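import Pool.Agent.TH452.TC.Tr3

/-!
Fourier analysis for sign choices, preliminaries.
-/

set_option autoImplicit false

namespace Pool.Agent.TH452.TC

open NumberField Pool.Agent.TH965.St

open scoped Classical in
theorem four1 {X : Type} [Fintype X] (m : ℕ) (hm : Fintype.card X = m) (hodd : Odd m)
    (η : X → Qb) (hη : ∀ x, η x = 1 ∨ η x = -1) (hp : ∏ x, η x = 1) :
    ∑ S ∈ Finset.univ.filter (fun S : Finset X => Even S.card), ∏ x ∈ S, η x =
      if ∀ x, η x = 1 then (2 : Qb) ^ (m - 1) else 0 := by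
  have h1 : ∑ S : Finset X, ∏ x ∈ S, η x = ∏ x, (1 + η x) := by
    rw [Finset.prod_one_add, Finset.powerset_univ]
  have h2 : ∑ S : Finset X, (-1 : Qb) ^ S.card * ∏ x ∈ S, η x = ∏ x, (1 + -η x) := by
    rw [Finset.prod_one_add, Finset.powerset_univ]
    refine Finset.sum_congr rfl fun S _ => ?_
    rw [← Finset.prod_const, ← Finset.prod_mul_distrib]
    exact Finset.prod_congr rfl fun x _ => by ring
  have h3 : 2 * ∑ S ∈ Finset.univ.filter (fun S : Finset X => Even S.card), ∏ x ∈ S, η x =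
      ∏ x, (1 + η x) + ∏ x, (1 + -η x) := by
    rw [← h1, ← h2, ← Finset.sum_add_distrib, Finset.sum_filter, Finset.mul_sum]
    refine Finset.sum_congr rfl fun S _ => ?_
    split_ifs with h
    · rw [h.neg_one_pow]
      ring
    · rw [(Nat.not_even_iff_odd.1 h).neg_one_pow]
      ring
  have hm0 : 0 < m := hodd.pos
  have h20 : (2 : Qb) ≠ 0 := two_ne_zero
  have hX : Nonempty X := Fintype.card_pos_iff.1 (by rw [hm]; exact hm0)
  apply mul_left_cancel₀ h20
  rw [h3]
  split_ifs with h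
  · have e1 : ∏ x, (1 + η x) = 2 ^ m := by
      rw [Finset.prod_congr rfl (fun x _ => by rw [h x] : ∀ x ∈ Finset.univ, 1 + η x = 1 + 1)]
      rw [Finset.prod_const, Finset.card_univ, hm]
      norm_num
    have e2 : ∏ x, (1 + -η x) = 0 := by
      obtain ⟨x⟩ := hX
      refine Finset.prod_eq_zero (Finset.mem_univ x) ?_
      rw [h x]
      ring
    rw [e1, e2, add_zero, ← pow_succ']
    congr 1
    omega
  · push Not at h
    obtain ⟨x, hx⟩ := h
    have e1 : ∏ x, (1 + η x) = 0 := by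
      refine Finset.prod_eq_zero (Finset.mem_univ x) ?_
      rw [(hη x).resolve_left hx]
      ring
    have e2 : ∏ x, (1 + -η x) = 0 := by
      by_contra hne
      have hne := Finset.prod_ne_zero_iff.1 hne
      have h4 : ∀ x, η x = -1 := by
        intro x
        rcases hη x with h5 | h5
        · exfalso
          apply hne x (Finset.mem_univ x)
          rw [h5]
          ring
        · exact h5
      rw [Finset.prod_congr rfl (fun x _ => h4 x), Finset.prod_const, Finset.card_univ, hm,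
        hodd.neg_one_pow] at hp
      norm_num at hp
    rw [e1, e2]
    ring

theorem card_sq (r : Qb) (hr : r ≠ 0) (g : GQ) (hg : g r = r ∨ g r = -r) [Decidable (g r = r)] :
    (Nat.card {δ : Qb // δ ^ 2 = r ^ 2 ∧ g δ = δ} : ℤ) = 1 + (if g r = r then 1 else -1) := by
  classical
  have hrr : r ≠ -r := by
    intro h
    apply hr
    have : (2 : Qb) * r = 0 := by linear_combination h
    exact (mul_eq_zero.1 this).resolve_left two_ne_zero
  split_ifs with h
  · have e : {δ : Qb // δ ^ 2 = r ^ 2 ∧ g δ = δ} ≃ ({r, -r} : Finset Qb) := by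
      refine Equiv.subtypeEquivRight fun δ => ?_
      rw [Finset.mem_insert, Finset.mem_singleton]
      constructor
      · rintro ⟨h1, -⟩
        exact sq_eq_sq_iff_eq_or_eq_neg.1 h1
      · rintro (rfl | rfl)
        · exact ⟨rfl, h⟩
        · exact ⟨neg_sq r, by rw [map_neg, h]⟩
    rw [Nat.card_congr e, Nat.card_eq_fintype_card, Fintype.card_coe, Finset.card_pair hrr]
    norm_num
  · have hgr := hg.resolve_left h
    have : IsEmpty {δ : Qb // δ ^ 2 = r ^ 2 ∧ g δ = δ} := by
      constructor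
      rintro ⟨δ, h1, h2⟩
      rcases sq_eq_sq_iff_eq_or_eq_neg.1 h1 with rfl | rfl
      · exact h h2
      · rw [map_neg, hgr, neg_neg] at h2
        exact hrr h2
    rw [Nat.card_of_isEmpty]
    norm_num

theorem roots_two (a : Qb) (ha : a ≠ 0) : Nat.card {z : Qb // z ^ 2 = a} = 2 := by
  classical
  obtain ⟨r, hr⟩ := IsAlgClosed.exists_pow_nat_eq (k := Qb) a (n := 2) (by norm_num)
  have hr0 : r ≠ 0 := by
    rintro rfl
    apply ha
    rw [← hr]
    ring
  have h1 := card_sq r hr0 1 (Or.inl rfl)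
  rw [if_pos (show (1 : GQ) r = r from rfl)] at h1
  have e : {δ : Qb // δ ^ 2 = r ^ 2 ∧ (1 : GQ) δ = δ} ≃ {z : Qb // z ^ 2 = a} :=
    Equiv.subtypeEquivRight fun δ => by
      rw [hr]
      exact ⟨fun h => h.1, fun h => ⟨h, rfl⟩⟩
  rw [Nat.card_congr e] at h1
  omega

theorem zs_card (B : Subgroup GQ) (P : Subgroup B) [Fintype (B ⧸ P)] (m : ℕ)
    (hcard : Fintype.card (B ⧸ P) = m) (hodd : Odd m) (a : B ⧸ P → Qb) (ρ : Qb)
    (ha : ∀ (β : B) x, a (β • x) = (β : GQ) (a x)) (hρ : ∀ β : B, (β : GQ) ρ = ρ)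
    (hprod : ∏ x, a x = ρ ^ 2) (ha0 : ∀ x, a x ≠ 0) (hρ0 : ρ ≠ 0) :
    Nat.card (Zs B P a ρ ha hρ) = 2 ^ (m - 1) := by
  classical
  have hfin := zs_finite B P a ρ ha hρ
  have hneg : (-1 : Qb) ^ m = -1 := hodd.neg_one_pow
  have hpn : ∀ f : B ⧸ P → Qb, ∏ x, -f x = -∏ x, f x := by
    intro f
    calc ∏ x, -f x = ∏ x, (-1) * f x := Finset.prod_congr rfl fun x _ => by ring
      _ = (-1) ^ m * ∏ x, f x := by
          rw [Finset.prod_mul_distrib, Finset.prod_const, Finset.card_univ, hcard]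
      _ = -∏ x, f x := by rw [hneg]; ring
  have hρρ : ρ ≠ -ρ := by
    intro h
    apply hρ0
    have : (2 : Qb) * ρ = 0 := by linear_combination h
    exact (mul_eq_zero.1 this).resolve_left two_ne_zero
  have hpm : ∀ f : B ⧸ P → Qb, (∀ x, f x ^ 2 = a x) → ∏ x, f x = ρ ∨ ∏ x, f x = -ρ := by
    intro f hf
    have h1 : (∏ x, f x) ^ 2 = ρ ^ 2 := by
      rw [← Finset.prod_pow, ← hprod]
      exact Finset.prod_congr rfl fun x _ => hf x
    exact sq_eq_sq_iff_eq_or_eq_neg.1 h1
  have e1 : {f : B ⧸ P → Qb // ∀ x, f x ^ 2 = a x} ≃ (∀ x : B ⧸ P, {z : Qb // z ^ 2 = a x}) :=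
    Equiv.subtypePiEquivPi (p := fun (x : B ⧸ P) (z : Qb) => z ^ 2 = a x)
  have h1 : Nat.card {f : B ⧸ P → Qb // ∀ x, f x ^ 2 = a x} = 2 ^ m := by
    rw [Nat.card_congr e1, Nat.card_pi, Finset.prod_congr rfl (fun x _ => roots_two _ (ha0 x)),
      Finset.prod_const, Finset.card_univ, hcard]
  have e2 : (Zs B P a ρ ha hρ) ⊕ (Zs B P a ρ ha hρ) ≃ {f : B ⧸ P → Qb // ∀ x, f x ^ 2 = a x} := by
    refine Equiv.ofBijective (Sum.elim (fun t => ⟨fun x => t.1 x, fun x => t.2.1 x⟩)
      (fun t => ⟨fun x => -(t.1 x), fun x => by rw [neg_sq]; exact t.2.1 x⟩)) ⟨?_, ?_⟩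
    · rintro (t | t) (t' | t') h
      · simp only [Sum.elim_inl, Subtype.mk.injEq] at h
        rw [Sum.inl.injEq]
        exact Subtype.ext h
      · exfalso
        simp only [Sum.elim_inl, Sum.elim_inr, Subtype.mk.injEq] at h
        have h2 : ∏ x, (fun x => t.1 x) x = ∏ x, (fun x => -(t'.1 x)) x := by rw [h]
        have h3 : ∏ x, (fun x => t.1 x) x = ρ := t.2.2
        have h4 : ∏ x, (fun x => -(t'.1 x)) x = -ρ := by
          rw [hpn (fun x => t'.1 x)]
          congr 1
          exact t'.2.2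
        rw [h3, h4] at h2
        exact hρρ h2
      · exfalso
        simp only [Sum.elim_inl, Sum.elim_inr, Subtype.mk.injEq] at h
        have h2 : ∏ x, (fun x => -(t.1 x)) x = ∏ x, (fun x => t'.1 x) x := by rw [h]
        have h3 : ∏ x, (fun x => t'.1 x) x = ρ := t'.2.2
        have h4 : ∏ x, (fun x => -(t.1 x)) x = -ρ := by
          rw [hpn (fun x => t.1 x)]
          congr 1
          exact t.2.2
        rw [h3, h4] at h2
        exact hρρ h2.symm
      · simp only [Sum.elim_inr, Subtype.mk.injEq] at h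
        rw [Sum.inr.injEq]
        apply Subtype.ext
        funext x
        exact neg_injective (congrFun h x)
    · rintro ⟨f, hf⟩
      rcases hpm f hf with h | h
      · exact ⟨Sum.inl ⟨f, hf, h⟩, rfl⟩
      · refine ⟨Sum.inr ⟨fun x => -f x, fun x => by rw [neg_sq]; exact hf x, ?_⟩, ?_⟩
        · show ∏ x, -f x = ρ
          rw [hpn, h, neg_neg]
        · apply Subtype.ext
          funext x
          show -(-f x) = f x
          ring
  have h2 := Nat.card_congr e2
  rw [Nat.card_sum, h1] at h2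
  have hm0 : 0 < m := hodd.pos
  have h3 : 2 ^ m = 2 * 2 ^ (m - 1) := by
    rw [← pow_succ']
    congr 1
    omega
  omega

end Pool.Agent.TH452.TC
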