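import Pool.Agent.TH452.TC.Fo1

/-!
Fourier analysis for sign choices.
-/

set_option autoImplicit false

namespace Pool.Agent.TH452.TC

open NumberField Pool.Agent.TH965.St

theorem mp_one (B : Type) [Group B] {X : Type} [MulAction B X] (S : Finset X) :
    Finset.map (MulAction.toPerm (1 : B)).toEmbedding S = S := by
  ext x
  simp

theorem mp_mul {B : Type} [Group B] {X : Type} [MulAction B X] (β γ : B) (S : Finset X) :
    Finset.map (MulAction.toPerm (β * γ)).toEmbedding S =
      Finset.map (MulAction.toPerm β).toEmbedding (Finset.map (MulAction.toPerm γ).toEmbedding S) := by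
  rw [Finset.map_map]
  congr 1
  ext x
  exact mul_smul β γ x

theorem mp_even {B : Type} [Group B] {X : Type} [MulAction B X] (β : B) (S : Finset X) :
    Even (Finset.map (MulAction.toPerm β).toEmbedding S).card ↔ Even S.card := by
  rw [Finset.card_map]

/-- sets -/
def Fs (X : Type) : Type := Finset X

/-- sets with a number -/
def Fp (X : Type) : Type := Finset X × Qb

instance fsAct (B : Type) [Group B] (X : Type) [MulAction B X] : MulAction B (Fs X) where
  smul β S := Finset.map (MulAction.toPerm β).toEmbedding S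
  one_smul S := mp_one B S
  mul_smul β γ S := mp_mul β γ S

theorem fs_smul (B : Type) [Group B] (X : Type) [MulAction B X] (β : B) (S : Fs X) :
    (β • S : Fs X) = Finset.map (MulAction.toPerm β).toEmbedding S := rfl

noncomputable instance fpAct (B : Subgroup GQ) (X : Type) [MulAction B X] : MulAction B (Fp X) where
  smul β p := (Finset.map (MulAction.toPerm β).toEmbedding p.1, (β : GQ) p.2)
  one_smul p := Prod.ext (mp_one B p.1) rfl
  mul_smul β γ p := Prod.ext (mp_mul β γ p.1) rfl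

theorem fp_smul (B : Subgroup GQ) (X : Type) [MulAction B X] (β : B) (p : Fp X) :
    (β • p : Fp X) = (Finset.map (MulAction.toPerm β).toEmbedding p.1, (β : GQ) p.2) := rfl

/-- nonempty sets with an even number of elements -/
def Ev (B : Type) [Group B] (X : Type) [MulAction B X] : SubMulAction B (Fs X) where
  carrier := {S : Finset X | S.Nonempty ∧ Even S.card}
  smul_mem' := by
    rintro β S ⟨h1, h2⟩
    refine ⟨?_, ?_⟩
    · exact (Finset.map_nonempty).2 h1
    · exact (mp_even β _).2 h2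

/-- the double cover -/
noncomputable def Ep (B : Subgroup GQ) (P : Subgroup B) (a : B ⧸ P → Qb)
    (ha : ∀ (β : B) x, a (β • x) = (β : GQ) (a x)) : SubMulAction B (Fp (B ⧸ P)) where
  carrier := {p : Finset (B ⧸ P) × Qb | (p.1.Nonempty ∧ Even p.1.card) ∧ p.2 ^ 2 = ∏ x ∈ p.1, a x}
  smul_mem' := by
    rintro β p ⟨⟨h1, h2⟩, h3⟩
    refine ⟨⟨?_, ?_⟩, ?_⟩
    · exact (Finset.map_nonempty).2 h1
    · exact (mp_even β _).2 h2
    · show ((β : GQ) p.2) ^ 2 = ∏ x ∈ Finset.map (MulAction.toPerm β).toEmbedding p.1, a x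
      rw [← map_pow, h3, Finset.prod_map, map_prod]
      exact Finset.prod_congr rfl fun x _ => (ha β x).symm

open scoped Classical in
theorem fx_ev (B : Subgroup GQ) (P : Subgroup B) [Fintype (B ⧸ P)] (β : B) :
    fx (G := B) (Ev B (B ⧸ P)) β = ∑ S ∈ Finset.univ.filter (fun S : Finset (B ⧸ P) =>
      (S.Nonempty ∧ Even S.card) ∧ Finset.map (MulAction.toPerm β).toEmbedding S = S), (1 : ℤ) := by
  unfold fx
  have e : {t : Ev B (B ⧸ P) // β • t = t} ≃ {S : Finset (B ⧸ P) //
      (S.Nonempty ∧ Even S.card) ∧ Finset.map (MulAction.toPerm β).toEmbedding S = S} :=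
    { toFun := fun t => ⟨t.1.1, t.1.2, congrArg Subtype.val t.2⟩
      invFun := fun S => ⟨⟨S.1, S.2.1⟩, Subtype.ext S.2.2⟩
      left_inv := fun t => rfl
      right_inv := fun t => rfl }
  rw [Nat.card_congr e, Nat.card_eq_fintype_card, Fintype.card_subtype, Finset.sum_const]
  simp

open scoped Classical in
theorem fx_ep (B : Subgroup GQ) (P : Subgroup B) [Fintype (B ⧸ P)] (a : B ⧸ P → Qb)
    (ha : ∀ (β : B) x, a (β • x) = (β : GQ) (a x)) (ha0 : ∀ x, a x ≠ 0)
    (t0 : B ⧸ P → Qb) (ht0 : ∀ x, t0 x ^ 2 = a x) (β : B) :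
    fx (G := B) (Ep B P a ha) β = ∑ S ∈ Finset.univ.filter (fun S : Finset (B ⧸ P) =>
      (S.Nonempty ∧ Even S.card) ∧ Finset.map (MulAction.toPerm β).toEmbedding S = S),
      (1 + if (β : GQ) (∏ x ∈ S, t0 x) = ∏ x ∈ S, t0 x then (1 : ℤ) else -1) := by
  unfold fx
  have e : {t : Ep B P a ha // β • t = t} ≃ Σ S : {S : Finset (B ⧸ P) //
      (S.Nonempty ∧ Even S.card) ∧ Finset.map (MulAction.toPerm β).toEmbedding S = S},
      {δ : Qb // δ ^ 2 = (∏ x ∈ S.1, t0 x) ^ 2 ∧ (β : GQ) δ = δ} :=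
    { toFun := fun t => ⟨⟨t.1.1.1, t.1.2.1, congrArg (fun z => z.1.1) t.2⟩,
        ⟨t.1.1.2, by
          rw [← Finset.prod_pow, Finset.prod_congr rfl (fun x _ => ht0 x)]
          exact t.1.2.2, congrArg (fun z => z.1.2) t.2⟩⟩
      invFun := fun z => ⟨⟨(z.1.1, z.2.1), z.1.2.1, by
        show z.2.1 ^ 2 = ∏ x ∈ z.1.1, a x
        rw [z.2.2.1, ← Finset.prod_pow]
        exact Finset.prod_congr rfl (fun x _ => ht0 x)⟩,
        Subtype.ext (Prod.ext z.1.2.2 z.2.2.2)⟩
      left_inv := fun t => rfl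
      right_inv := fun t => rfl }
  have hfin : ∀ S : {S : Finset (B ⧸ P) // (S.Nonempty ∧ Even S.card) ∧
      Finset.map (MulAction.toPerm β).toEmbedding S = S},
      Finite {δ : Qb // δ ^ 2 = (∏ x ∈ S.1, t0 x) ^ 2 ∧ (β : GQ) δ = δ} := by
    intro S
    refine ((Set.toFinite ({∏ x ∈ S.1, t0 x, -∏ x ∈ S.1, t0 x} : Set Qb)).subset ?_).to_subtype
    rintro δ ⟨h1, -⟩
    rcases sq_eq_sq_iff_eq_or_eq_neg.1 h1 with h | h
    · exact Or.inl h
    · exact Or.inr h
  rw [Nat.card_congr e, Nat.card_sigma]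
  push_cast
  rw [Finset.sum_subtype (Finset.univ.filter (fun S : Finset (B ⧸ P) =>
      (S.Nonempty ∧ Even S.card) ∧ Finset.map (MulAction.toPerm β).toEmbedding S = S))
      (p := fun S => (S.Nonempty ∧ Even S.card) ∧
        Finset.map (MulAction.toPerm β).toEmbedding S = S) (by simp)]
  refine Finset.sum_congr rfl fun S _ => ?_
  have h0 : ∏ x ∈ S.1, t0 x ≠ 0 := by
    rw [Finset.prod_ne_zero_iff]
    intro x _ hx
    apply ha0 x
    rw [← ht0, hx]
    ring
  refine card_sq _ h0 _ ?_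
  apply sq_eq_sq_iff_eq_or_eq_neg.1
  rw [← map_pow, ← Finset.prod_pow, Finset.prod_congr rfl (fun x _ => ht0 x), map_prod]
  rw [Finset.prod_congr rfl (fun x _ => (ha β x).symm)]
  have h1 : ∏ x ∈ S.1, a (β • x) = ∏ x ∈ Finset.map (MulAction.toPerm β).toEmbedding S.1, a x := by
    rw [Finset.prod_map]
    rfl
  rw [h1, S.2.2]

end Pool.Agent.TH452.TC
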