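import Pool.Agent.TH452.TC.Fo2

/-!
Fourier analysis for sign choices, main identity.
-/

set_option autoImplicit false

namespace Pool.Agent.TH452.TC

open NumberField Pool.Agent.TH965.St

theorem ee (p q : Prop) [Decidable p] [Decidable q] :
    (¬ (p ↔ q) → (if p then (-1 : Qb) else 1) * (if q then -1 else 1) = -1) ∧
    ((p ↔ q) → (if p then (-1 : Qb) else 1) * (if q then -1 else 1) = 1) := by
  by_cases hp : p <;> by_cases hq : q <;> simp [hp, hq]

open scoped Classical in
theorem fx_zs (B : Subgroup GQ) (P : Subgroup B) [Fintype (B ⧸ P)] (m : ℕ)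
    (hcard : Fintype.card (B ⧸ P) = m) (hodd : Odd m) (a : B ⧸ P → Qb) (ρ : Qb)
    (ha : ∀ (β : B) x, a (β • x) = (β : GQ) (a x)) (hρ : ∀ β : B, (β : GQ) ρ = ρ)
    (hprod : ∏ x, a x = ρ ^ 2) (ha0 : ∀ x, a x ≠ 0) (hρ0 : ρ ≠ 0)
    (t0 : Zs B P a ρ ha hρ) (β : B) :
    fx (G := B) (Zs B P a ρ ha hρ) β = 1 + ∑ S ∈ Finset.univ.filter (fun S : Finset (B ⧸ P) =>
      (S.Nonempty ∧ Even S.card) ∧ Finset.map (MulAction.toPerm β).toEmbedding S = S),
      (if (β : GQ) (∏ x ∈ S, t0.1 x) = ∏ x ∈ S, t0.1 x then (1 : ℤ) else -1) := by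
  have hfin := zs_finite B P a ρ ha hρ
  have hft : Fintype (Zs B P a ρ ha hρ) := Fintype.ofFinite _
  have hcardT : Fintype.card (Zs B P a ρ ha hρ) = 2 ^ (m - 1) := by
    rw [← Nat.card_eq_fintype_card]
    exact zs_card B P m hcard hodd a ρ ha hρ hprod ha0 hρ0
  obtain ⟨F, hF⟩ : ∃ F : Zs B P a ρ ha hρ → (B ⧸ P → Qb), F = fun t x => t.1 x := ⟨_, rfl⟩
  have hFsq : ∀ t x, F t x ^ 2 = a x := fun t x => by rw [hF]; exact t.2.1 x
  have hFp : ∀ t, ∏ x, F t x = ρ := fun t => by rw [hF]; exact t.2.2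
  have hF0 : ∀ t x, F t x ≠ 0 := by
    intro t x h0
    apply ha0 x
    rw [← hFsq t x, h0]
    ring
  have hFS0 : ∀ t (S : Finset (B ⧸ P)), ∏ x ∈ S, F t x ≠ 0 := fun t S =>
    Finset.prod_ne_zero_iff.2 fun x _ => hF0 t x
  have hFβ : ∀ t x, F (β • t) x = (β : GQ) (F t (β⁻¹ • x)) := fun t x => by
    rw [hF]
    rfl
  have hFinj : ∀ t t', F t = F t' → t = t' := by
    intro t t' h
    rw [hF] at h
    exact Subtype.ext h
  have hFmk : ∀ f : B ⧸ P → Qb, (∀ x, f x ^ 2 = a x) → ∏ x, f x = ρ → ∃ t, F t = f := by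
    intro f h1 h2
    exact ⟨⟨f, h1, h2⟩, by rw [hF]⟩
  obtain ⟨η, hη⟩ : ∃ η : Zs B P a ρ ha hρ → (B ⧸ P → Qb), η = fun t x => F (β • t) x / F t x :=
    ⟨_, rfl⟩
  have hηe : ∀ t x, η t x = F (β • t) x / F t x := fun t x => by rw [hη]
  have hη1 : ∀ t x, η t x = 1 ∨ η t x = -1 := by
    intro t x
    have h1 : F (β • t) x ^ 2 = F t x ^ 2 := by rw [hFsq, hFsq]
    rw [hηe]
    rcases sq_eq_sq_iff_eq_or_eq_neg.1 h1 with h | h
    · left
      rw [h, div_self (hF0 t x)]
    · right
      rw [h, neg_div, div_self (hF0 t x)]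
  have hηp : ∀ t, ∏ x, η t x = 1 := by
    intro t
    rw [Finset.prod_congr rfl (fun x _ => hηe t x), Finset.prod_div_distrib, hFp, hFp,
      div_self hρ0]
  have hηfix : ∀ t, (∀ x, η t x = 1) ↔ β • t = t := by
    intro t
    constructor
    · intro h
      apply hFinj
      funext x
      have := h x
      rw [hηe] at this
      exact (div_eq_one_iff_eq (hF0 t x)).1 this
    · intro h x
      rw [hηe, h, div_self (hF0 t x)]
  have hmain : ∀ t, ∑ S ∈ Finset.univ.filter (fun S : Finset (B ⧸ P) => Even S.card),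
      ∏ x ∈ S, η t x = if β • t = t then (2 : Qb) ^ (m - 1) else 0 := by
    intro t
    rw [four1 m hcard hodd (η t) (hη1 t) (hηp t)]
    by_cases h : β • t = t
    · rw [if_pos h, if_pos ((hηfix t).2 h)]
    · rw [if_neg h, if_neg (fun h' => h ((hηfix t).1 h'))]
  have hprodS : ∀ t (S : Finset (B ⧸ P)), ∏ x ∈ S, η t x =
      (β : GQ) (∏ x ∈ Finset.map (MulAction.toPerm β⁻¹).toEmbedding S, F t x) / ∏ x ∈ S, F t x := by
    intro t S
    rw [Finset.prod_congr rfl (fun x _ => hηe t x), Finset.prod_div_distrib]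
    congr 1
    rw [Finset.prod_map, map_prod]
    exact Finset.prod_congr rfl fun x _ => hFβ t x
  have hinv : ∀ S : Finset (B ⧸ P), Finset.map (MulAction.toPerm β⁻¹).toEmbedding S = S ↔
      Finset.map (MulAction.toPerm β).toEmbedding S = S := by
    intro S
    constructor
    · intro h
      conv_lhs => rw [← h]
      rw [← mp_mul, mul_inv_cancel, mp_one]
    · intro h
      conv_lhs => rw [← h]
      rw [← mp_mul, inv_mul_cancel, mp_one]
  have hsumS : ∀ S : Finset (B ⧸ P), Even S.card → ∑ t, ∏ x ∈ S, η t x =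
      if Finset.map (MulAction.toPerm β).toEmbedding S = S then
        (2 : Qb) ^ (m - 1) * (((if (β : GQ) (∏ x ∈ S, F t0 x) = ∏ x ∈ S, F t0 x then (1 : ℤ)
          else -1) : ℤ) : Qb) else 0 := by
    intro S hS
    split_ifs with hfix hκ
    · -- invariant, fixed
      have h1 : ∀ t, ∏ x ∈ S, η t x = 1 := by
        intro t
        rw [hprodS, (hinv S).2 hfix]
        have h2 : (∏ x ∈ S, F t x) ^ 2 = (∏ x ∈ S, F t0 x) ^ 2 := by
          rw [← Finset.prod_pow, ← Finset.prod_pow]
          exact Finset.prod_congr rfl fun x _ => by rw [hFsq, hFsq]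
        rcases sq_eq_sq_iff_eq_or_eq_neg.1 h2 with h3 | h3
        · rw [h3, hκ, div_self (hFS0 t0 S)]
        · rw [h3, map_neg, hκ, div_self (neg_ne_zero.2 (hFS0 t0 S))]
      rw [Finset.sum_congr rfl (fun t _ => h1 t), Finset.sum_const, Finset.card_univ, hcardT]
      simp
    · have hκ' : (β : GQ) (∏ x ∈ S, F t0 x) = -∏ x ∈ S, F t0 x := by
        have h2 : ((β : GQ) (∏ x ∈ S, F t0 x)) ^ 2 = (∏ x ∈ S, F t0 x) ^ 2 := by
          rw [← map_pow, ← Finset.prod_pow, Finset.prod_congr rfl (fun x _ => hFsq t0 x), map_prod]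
          rw [Finset.prod_congr rfl (fun x _ => (ha β x).symm)]
          have h1 : ∏ x ∈ S, a (β • x) =
              ∏ x ∈ Finset.map (MulAction.toPerm β).toEmbedding S, a x := by
            rw [Finset.prod_map]
            rfl
          rw [h1, hfix]
        exact (sq_eq_sq_iff_eq_or_eq_neg.1 h2).resolve_left hκ
      have h1 : ∀ t, ∏ x ∈ S, η t x = -1 := by
        intro t
        rw [hprodS, (hinv S).2 hfix]
        have h2 : (∏ x ∈ S, F t x) ^ 2 = (∏ x ∈ S, F t0 x) ^ 2 := by
          rw [← Finset.prod_pow, ← Finset.prod_pow]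
          exact Finset.prod_congr rfl fun x _ => by rw [hFsq, hFsq]
        rcases sq_eq_sq_iff_eq_or_eq_neg.1 h2 with h3 | h3
        · rw [h3, hκ', neg_div, div_self (hFS0 t0 S)]
        · rw [h3, map_neg, hκ', neg_neg, div_neg, div_self (hFS0 t0 S)]
      rw [Finset.sum_congr rfl (fun t _ => h1 t), Finset.sum_const, Finset.card_univ, hcardT]
      simp
    · -- not invariant
      obtain ⟨S', hS'⟩ : ∃ S', S' = Finset.map (MulAction.toPerm β⁻¹).toEmbedding S := ⟨_, rfl⟩
      have hne : S' ≠ S := by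
        rw [hS']
        exact fun h => hfix ((hinv S).1 h)
      have hcS' : Even S'.card := by
        rw [hS', Finset.card_map]
        exact hS
      obtain ⟨x1, hx1⟩ : ∃ x1, ¬ (x1 ∈ S' ↔ x1 ∈ S) := by
        by_contra hno
        push Not at hno
        exact hne (Finset.ext hno)
      obtain ⟨x2, hx2⟩ : ∃ x2, (x2 ∈ S' ↔ x2 ∈ S) := by
        by_contra hno
        push Not at hno
        have h1 : S' = Sᶜ := by
          ext x
          rw [Finset.mem_compl]
          rcases hno x with h | h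
          · exact ⟨fun _ => h.2, fun _ => h.1⟩
          · exact ⟨fun h' => absurd h' h.1, fun h' => absurd h.2 h'⟩
        have h2 := Finset.card_add_card_compl S
        rw [← h1, hcard] at h2
        have h3 : Even m := by rw [← h2]; exact hS.add hcS'
        exact (Nat.not_even_iff_odd.2 hodd) h3
      obtain ⟨s, hs⟩ : ∃ s : B ⧸ P → Qb,
          s = fun x => (if x = x1 then (-1 : Qb) else 1) * (if x = x2 then (-1 : Qb) else 1) :=
        ⟨_, rfl⟩
      have hs2 : ∀ x, s x * s x = 1 := by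
        intro x
        rw [hs]
        simp only
        split_ifs <;> norm_num
      have hsS : ∀ U : Finset (B ⧸ P), ∏ x ∈ U, s x =
          (if x1 ∈ U then (-1 : Qb) else 1) * (if x2 ∈ U then (-1 : Qb) else 1) := by
        intro U
        rw [hs, Finset.prod_mul_distrib, Finset.prod_ite_eq', Finset.prod_ite_eq']
      have hflip : ∀ t, ∃ t', F t' = fun x => s x * F t x := by
        intro t
        apply hFmk
        · intro x
          rw [mul_pow, hFsq, sq, hs2, one_mul]
        · rw [Finset.prod_mul_distrib, hFp, hsS]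
          simp
      choose fl hfl using hflip
      have hflinv : Function.Involutive fl := by
        intro t
        apply hFinj
        rw [hfl, hfl]
        funext x
        rw [← mul_assoc, hs2, one_mul]
      have hneg : ∀ t, ∏ x ∈ S, η (fl t) x = -∏ x ∈ S, η t x := by
        intro t
        rw [hprodS, hprodS, ← hS', hfl, Finset.prod_mul_distrib, Finset.prod_mul_distrib, hsS, hsS,
          map_mul]
        have h1 := (ee (x1 ∈ S') (x1 ∈ S)).1 hx1
        have h2 := (ee (x2 ∈ S') (x2 ∈ S)).2 hx2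
        have h3 : (β : GQ) ((if x1 ∈ S' then (-1 : Qb) else 1) * (if x2 ∈ S' then (-1 : Qb) else 1)) =
            (if x1 ∈ S' then (-1 : Qb) else 1) * (if x2 ∈ S' then (-1 : Qb) else 1) := by
          split_ifs <;> simp
        rw [h3]
        have h4 : ∀ q : Prop, ∀ [Decidable q], (if q then (-1 : Qb) else 1) ≠ 0 := by
          intro q _
          split_ifs <;> norm_num
        have h5 : ∀ q : Prop, ∀ [Decidable q],
            (if q then (-1 : Qb) else 1) * (if q then (-1 : Qb) else 1) = 1 := by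
          intro q _
          split_ifs <;> norm_num
        have e1 := h5 (x1 ∈ S)
        have e2 := h5 (x2 ∈ S)
        have h6 := hFS0 t S
        have n1 := h4 (x1 ∈ S)
        have n2 := h4 (x2 ∈ S)
        obtain ⟨u, hu⟩ : ∃ u : Qb, u = (if x1 ∈ S' then (-1 : Qb) else 1) := ⟨_, rfl⟩
        obtain ⟨u', hu'⟩ : ∃ u' : Qb, u' = (if x2 ∈ S' then (-1 : Qb) else 1) := ⟨_, rfl⟩
        obtain ⟨v, hv⟩ : ∃ v : Qb, v = (if x1 ∈ S then (-1 : Qb) else 1) := ⟨_, rfl⟩
        obtain ⟨v', hv'⟩ : ∃ v' : Qb, v' = (if x2 ∈ S then (-1 : Qb) else 1) := ⟨_, rfl⟩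
        rw [← hu, ← hu', ← hv, ← hv']
        rw [← hu, ← hv] at h1
        rw [← hu', ← hv'] at h2
        rw [← hv] at e1 n1
        rw [← hv'] at e2 n2
        rw [div_eq_iff (mul_ne_zero (mul_ne_zero n1 n2) h6)]
        have hu1 : u = -v := by linear_combination v * h1 - u * e1
        have hu2 : u' = v' := by linear_combination v' * h2 - u' * e2
        rw [hu1, hu2]
        field_simp
      have h1 : ∑ t, ∏ x ∈ S, η t x = -∑ t, ∏ x ∈ S, η t x := by
        conv_lhs => rw [← Equiv.sum_comp (hflinv.toPerm) (fun t => ∏ x ∈ S, η t x)]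
        rw [← Finset.sum_neg_distrib]
        exact Finset.sum_congr rfl fun t _ => hneg t
      have h2 : (2 : Qb) * ∑ t, ∏ x ∈ S, η t x = 0 := by linear_combination h1
      exact (mul_eq_zero.1 h2).resolve_left two_ne_zero
  have h20 : (2 : Qb) ^ (m - 1) ≠ 0 := pow_ne_zero _ two_ne_zero
  have hF0t : F t0 = fun x => t0.1 x := by rw [hF]
  have hfinal : (2 : Qb) ^ (m - 1) * (fx (G := B) (Zs B P a ρ ha hρ) β : Qb) =
      (2 : Qb) ^ (m - 1) * ((1 + ∑ S ∈ Finset.univ.filter (fun S : Finset (B ⧸ P) =>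
      (S.Nonempty ∧ Even S.card) ∧ Finset.map (MulAction.toPerm β).toEmbedding S = S),
      (if (β : GQ) (∏ x ∈ S, F t0 x) = ∏ x ∈ S, F t0 x then (1 : ℤ) else -1) : ℤ) : Qb) := by
    have h1 : (2 : Qb) ^ (m - 1) * (fx (G := B) (Zs B P a ρ ha hρ) β : Qb) =
        ∑ t, ∑ S ∈ Finset.univ.filter (fun S : Finset (B ⧸ P) => Even S.card),
          ∏ x ∈ S, η t x := by
      rw [Finset.sum_congr rfl (fun t _ => hmain t), Finset.sum_ite, Finset.sum_const_zero,
        add_zero, Finset.sum_const, nsmul_eq_mul, mul_comm]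
      congr 1
      unfold fx
      rw [Nat.card_eq_fintype_card, Fintype.card_subtype]
      push_cast
      rfl
    rw [h1, Finset.sum_comm]
    have h2 : ∑ S ∈ Finset.univ.filter (fun S : Finset (B ⧸ P) => Even S.card),
        ∑ t, ∏ x ∈ S, η t x = ∑ S ∈ Finset.univ.filter (fun S : Finset (B ⧸ P) => Even S.card),
        if Finset.map (MulAction.toPerm β).toEmbedding S = S then
        (2 : Qb) ^ (m - 1) * (((if (β : GQ) (∏ x ∈ S, F t0 x) = ∏ x ∈ S, F t0 x then (1 : ℤ)
          else -1) : ℤ) : Qb) else 0 :=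
      Finset.sum_congr rfl fun S hS => hsumS S (Finset.mem_filter.1 hS).2
    rw [h2, ← Finset.sum_filter, Finset.filter_filter]
    have h3 : Finset.univ.filter (fun S : Finset (B ⧸ P) => Even S.card ∧
        Finset.map (MulAction.toPerm β).toEmbedding S = S) =
        insert ∅ (Finset.univ.filter (fun S : Finset (B ⧸ P) =>
      (S.Nonempty ∧ Even S.card) ∧ Finset.map (MulAction.toPerm β).toEmbedding S = S)) := by
      ext S
      simp only [Finset.mem_filter, Finset.mem_univ, true_and, Finset.mem_insert]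
      constructor
      · rintro ⟨h4, h5⟩
        rcases S.eq_empty_or_nonempty with h6 | h6
        · exact Or.inl h6
        · exact Or.inr ⟨⟨h6, h4⟩, h5⟩
      · rintro (rfl | ⟨⟨h6, h4⟩, h5⟩)
        · exact ⟨by simp, by simp⟩
        · exact ⟨h4, h5⟩
    rw [h3, Finset.sum_insert (by simp), Finset.prod_empty, map_one, if_pos rfl, ← Finset.mul_sum]
    push_cast
    ring
  have h4 := mul_left_cancel₀ h20 hfinal
  have h5 : fx (G := B) (Zs B P a ρ ha hρ) β = 1 + ∑ S ∈ Finset.univ.filter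
      (fun S : Finset (B ⧸ P) => (S.Nonempty ∧ Even S.card) ∧
        Finset.map (MulAction.toPerm β).toEmbedding S = S),
      (if (β : GQ) (∏ x ∈ S, F t0 x) = ∏ x ∈ S, F t0 x then (1 : ℤ) else -1) := by
    exact_mod_cast h4
  rw [h5, hF0t]

end Pool.Agent.TH452.TC
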