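import Pool.Agent.TH452.TC.Grp4

/-!
Permutation characters of a finite group modulo those on which the involution `c` has no fixed point,
fifth part: a power of two suffices.
-/

set_option autoImplicit false

namespace Pool.Agent.TH452.TC

open Finset

variable {G : Type} [Group G]

theorem ban [Finite G] {c : G} {N : Subgroup G} {f : G → ℤ} (D : Dat c N f) (p : ℕ)
    [hp : Fact p.Prime] (hp2 : p ≠ 2) : ∃ m : ℕ, ¬ p ∣ m ∧ (m : ℤ) • f ∈ Tc c := by
  classical
  have : Fintype G := Fintype.ofFinite G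
  have hc1 : c ≠ 1 := fun h => D.cN (h ▸ N.one_mem)
  choose H hH1 hH2 using hyper D.sq hc1 p hp2
  obtain ⟨F, hFd⟩ : ∃ F : Finset G → (G → ℤ),
    F = fun S => ∏ s ∈ S, (1 - pf (H s) ^ (p - 1)) := ⟨_, rfl⟩
  have hFP : ∀ S, F S ∈ Pm G := fun S => by
    rw [hFd]
    exact Subring.prod_mem _ fun s _ =>
      (Pm G).sub_mem (Pm G).one_mem ((Pm G).pow_mem (pf_mem_Pm _) _)
  have hF : ∀ S, F S * f - f ∈ Tc c := by
    intro S
    induction S using Finset.induction_on with
    | empty =>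
      have : F ∅ * f - f = 0 := by rw [hFd]; simp
      rw [this]
      exact (Tc c).zero_mem
    | insert a S ha ih =>
      have h3 : F (insert a S) * f - f =
          (F S * f - f) - (pf (H a) ^ (p - 2) * F S) * (pf (H a) * f) := by
        have h2 : pf (H a) ^ (p - 1) = pf (H a) ^ (p - 2) * pf (H a) := by
          rw [← pow_succ]
          congr 1
          have := hp.1.two_le
          omega
        rw [hFd]
        simp only
        rw [Finset.prod_insert ha, h2]
        ring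
      rw [h3]
      exact (Tc c).sub_mem ih (pm_mul_mem c
        ((Pm G).mul_mem ((Pm G).pow_mem (pf_mem_Pm _) _) (hFP S)) (key D _ (hH1 a)))
  obtain ⟨q, hq⟩ : ∃ q, q = F Finset.univ := ⟨_, rfl⟩
  have hqP : q ∈ Pm G := by rw [hq]; exact hFP _
  have hqf : q * f - f ∈ Tc c := by rw [hq]; exact hF _
  have hqp : ∀ g, (p : ℤ) ∣ q g := by
    intro g
    have h1 : q g = ∏ s, (1 - pf (H s) g ^ (p - 1)) := by
      rw [hq, hFd]
      simp only
      rw [Finset.prod_apply]
      rfl
    rw [h1]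
    refine dvd_trans ?_ (Finset.dvd_prod_of_mem _ (Finset.mem_univ g))
    have h2 : IsCoprime (pf (H g) g) (p : ℤ) :=
      (((Nat.prime_iff_prime_int.1 hp.1).coprime_iff_not_dvd).2 (hH2 g)).symm
    exact (Int.ModEq.pow_card_sub_one_eq_one hp.1 h2).dvd
  have hqa : ∀ a : ℕ, q ^ a * f - f ∈ Tc c := by
    intro a
    induction a with
    | zero =>
      rw [pow_zero, one_mul, sub_self]
      exact (Tc c).zero_mem
    | succ a ih =>
      have : q ^ (a + 1) * f - f = q * (q ^ a * f - f) + (q * f - f) := by ring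
      rw [this]
      exact (Tc c).add_mem (pm_mul_mem c hqP ih) hqf
  obtain ⟨a, m, hm, hn⟩ := Nat.exists_eq_pow_mul_and_not_dvd (Nat.card_pos (α := G)).ne' p
    hp.1.ne_one
  refine ⟨m, hm, ?_⟩
  have hpa : (p : ℤ) ^ a ≠ 0 := pow_ne_zero _ (by exact_mod_cast hp.1.ne_zero)
  obtain ⟨φ, hφ⟩ : ∃ φ : G → ℤ, φ = fun g => (q ^ a) g / (p : ℤ) ^ a := ⟨_, rfl⟩
  have hφ1 : ∀ g, (q ^ a) g = (p : ℤ) ^ a * φ g := by
    intro g
    rw [hφ]
    have : (p : ℤ) ^ a ∣ (q ^ a) g := by
      rw [Pi.pow_apply]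
      exact pow_dvd_pow_of_dvd (hqp g) a
    exact (Int.mul_ediv_cancel' this).symm
  have hrc : RC φ := by
    intro g g' y h
    rw [hφ]
    simp only
    rw [pm_RC ((Pm G).pow_mem hqP a) g g' y h]
  have h1 := artin D hrc
  have h2 : ((Nat.card G : ℤ) • φ) * f = (m : ℤ) • (q ^ a * f) := by
    funext g
    rw [Pi.mul_apply, Pi.smul_apply, Pi.smul_apply, Pi.mul_apply, hφ1, hn]
    simp only [smul_eq_mul]
    push_cast
    ring
  rw [h2] at h1
  have h3 : (m : ℤ) • f = (m : ℤ) • (q ^ a * f) - (m : ℤ) • (q ^ a * f - f) := by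
    rw [smul_sub]
    abel
  rw [h3]
  exact (Tc c).sub_mem h1 ((Tc c).zsmul_mem (hqa a) _)

theorem two_pow [Finite G] {c : G} {N : Subgroup G} {f : G → ℤ} (D : Dat c N f) :
    ∃ k : ℕ, ((2 : ℤ) ^ k) • f ∈ Tc c := by
  classical
  let I : AddSubgroup ℤ :=
    { carrier := {m | m • f ∈ Tc c}
      add_mem' := fun {a b} ha hb => by
        change (a + b) • f ∈ Tc c
        rw [add_smul]
        exact (Tc c).add_mem ha hb
      zero_mem' := by
        change (0 : ℤ) • f ∈ Tc c
        rw [zero_smul]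
        exact (Tc c).zero_mem
      neg_mem' := fun {a} ha => by
        change (-a) • f ∈ Tc c
        rw [neg_smul]
        exact (Tc c).neg_mem ha }
  obtain ⟨d, hd⟩ := Int.subgroup_cyclic I
  have hdvd : ∀ m, m ∈ I → d ∣ m := by
    intro m hm
    rw [hd, AddSubgroup.mem_closure_singleton] at hm
    obtain ⟨n, hn⟩ := hm
    exact ⟨n, by rw [← hn, smul_eq_mul, mul_comm]⟩
  have hdI : d ∈ I := by
    rw [hd]
    exact AddSubgroup.subset_closure rfl
  rcases Nat.eq_two_pow_or_exists_odd_prime_and_dvd d.natAbs with ⟨k, hk⟩ | ⟨p, hp, hpd, hodd⟩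
  · refine ⟨k, ?_⟩
    have h1 : ((2 : ℤ) ^ k) = (d.natAbs : ℤ) := by rw [hk]; push_cast; rfl
    have h2 : ((d.natAbs : ℕ) : ℤ) ∈ I := by
      rcases Int.natAbs_eq d with h | h
      · rw [← h]; exact hdI
      · have h3 : ((d.natAbs : ℕ) : ℤ) = -d := by omega
        rw [h3]
        exact I.neg_mem hdI
    rw [h1]
    exact h2
  · exfalso
    haveI : Fact p.Prime := ⟨hp⟩
    have hp2 : p ≠ 2 := by
      rintro rfl
      exact absurd hodd (by decide)
    obtain ⟨m, hm, hmf⟩ := ban D p hp2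
    have h1 : d ∣ (m : ℤ) := hdvd m hmf
    apply hm
    have h2 : (p : ℤ) ∣ d := Int.natCast_dvd.2 hpd
    exact_mod_cast h2.trans h1

end Pool.Agent.TH452.TC
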