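import Pool.Agent.TH965.St.Open
import Pool.Agent.TH452.TC.Grp5

/-!
The centralizer of a complex conjugation (Artin and Schreier), and compactness.
-/

set_option autoImplicit false

namespace Pool.Agent.TH452.TC

open NumberField Pool.Agent.TH965.St

theorem cent_cc {τ : Qb →+* ℂ} {c x : GQ} (h : Cj τ c) (hx : x * c = c * x) : x = 1 ∨ x = c := by
  have hxc : ∀ y, x (c y) = c (x y) := fun y => by
    have := congrArg (fun g : GQ => g y) hx
    simpa using this
  have hre : ∀ y, c y = y ↔ (τ y).im = 0 := by
    intro y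
    constructor
    · intro hy
      have h1 := h y
      rw [hy] at h1
      exact Complex.conj_eq_iff_im.1 h1.symm
    · intro hy
      apply τ.injective
      rw [h y]
      exact Complex.conj_eq_iff_im.2 hy
  have hpos : ∀ y, c y = y → 0 < (τ y).re → 0 < (τ (x y)).re := by
    intro y hy hp
    obtain ⟨z, hz⟩ := IsAlgClosed.exists_pow_nat_eq (k := Qb) y (n := 2) (by norm_num)
    have h1 : (τ z) ^ 2 = τ y := by rw [← map_pow, hz]
    have h2 : (τ y).im = 0 := (hre y).1 hy
    have h3 : (τ z).im = 0 := by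
      have e1 : ((τ z) ^ 2).im = 2 * ((τ z).re * (τ z).im) := by rw [sq, Complex.mul_im]; ring
      have e2 : ((τ z) ^ 2).re = (τ z).re ^ 2 - (τ z).im ^ 2 := by rw [sq, Complex.mul_re]; ring
      rw [h1] at e1 e2
      by_contra hne
      have h4 : (τ z).re = 0 := by
        have h5 : (τ z).re * (τ z).im = 0 := by linarith
        rcases mul_eq_zero.1 h5 with h6 | h6
        · exact h6
        · exact absurd h6 hne
      rw [h4] at e2
      nlinarith [sq_nonneg (τ z).im]
    have h4 : c z = z := (hre z).2 h3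
    have h5 : c (x z) = x z := by rw [← hxc, h4]
    have h6 : (τ (x z)).im = 0 := (hre _).1 h5
    have h7 : τ (x y) = (τ (x z)) ^ 2 := by rw [← map_pow, ← map_pow, hz]
    have hz0 : z ≠ 0 := by
      rintro rfl
      rw [← h1, map_zero] at hp
      norm_num at hp
    have h8 : τ (x z) ≠ 0 := by
      rw [Ne, map_eq_zero, EmbeddingLike.map_eq_zero_iff]
      exact hz0
    have h9 : (τ (x z)).re ≠ 0 := fun h => h8 (Complex.ext h h6)
    have h10 : (τ (x y)).re = (τ (x z)).re ^ 2 := by
      rw [h7, sq, Complex.mul_re, h6]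
      ring
    rw [h10]
    positivity
  have hfix : ∀ y, c y = y → x y = y := by
    intro y hy
    have hq : ∀ q : ℚ, c (algebraMap ℚ Qb q) = algebraMap ℚ Qb q := fun q => c.commutes q
    have hxq : ∀ q : ℚ, x (algebraMap ℚ Qb q) = algebraMap ℚ Qb q := fun q => x.commutes q
    have hτq : ∀ q : ℚ, τ (algebraMap ℚ Qb q) = (q : ℂ) := fun q => by
      rw [eq_ratCast, map_ratCast]
    have hc1 : c (x y) = x y := by rw [← hxc, hy]
    have him1 : (τ y).im = 0 := (hre _).1 hy
    have him2 : (τ (x y)).im = 0 := (hre _).1 hc1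
    apply τ.injective
    refine Complex.ext ?_ (by rw [him1, him2])
    rcases lt_trichotomy (τ (x y)).re (τ y).re with hlt | heq | hlt
    · exfalso
      obtain ⟨q, hq1, hq2⟩ := exists_rat_btwn hlt
      have h1 := hpos (y - algebraMap ℚ Qb q) (by rw [map_sub, hy, hq]) (by
        rw [map_sub, hτq, Complex.sub_re, Complex.ratCast_re]
        linarith)
      rw [map_sub, hxq, map_sub, hτq, Complex.sub_re, Complex.ratCast_re] at h1
      linarith
    · exact heq
    · exfalso
      obtain ⟨q, hq1, hq2⟩ := exists_rat_btwn hlt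
      have h1 := hpos (algebraMap ℚ Qb q - y) (by rw [map_sub, hy, hq]) (by
        rw [map_sub, hτq, Complex.sub_re, Complex.ratCast_re]
        linarith)
      rw [map_sub, hxq, map_sub, hτq, Complex.sub_re, Complex.ratCast_re] at h1
      linarith
  obtain ⟨i, hi⟩ := IsAlgClosed.exists_pow_nat_eq (k := Qb) (-1) (n := 2) (by norm_num)
  have hi0 : i ≠ 0 := by
    rintro rfl
    rw [zero_pow (by norm_num)] at hi
    norm_num at hi
  have hcc : ∀ y, c (c y) = y := fun y => by
    have := congrArg (fun g : GQ => g y) (Cj.sq h)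
    simpa using this
  have hpm : ∀ g : GQ, g i = i ∨ g i = -i := by
    intro g
    apply sq_eq_sq_iff_eq_or_eq_neg.1
    rw [← map_pow, hi, map_neg, map_one]
  have hci : c i = -i := by
    rcases hpm c with h1 | h1
    · exfalso
      have h2 : (τ i).im = 0 := (hre i).1 h1
      have h3 : (τ i) ^ 2 = -1 := by rw [← map_pow, hi, map_neg, map_one]
      have h4 := congrArg Complex.re h3
      rw [sq, Complex.mul_re, h2, Complex.neg_re, Complex.one_re] at h4
      nlinarith [sq_nonneg (τ i).re]
    · exact h1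
  have hdec : ∀ w : Qb, ∃ a b, c a = a ∧ c b = b ∧ w = a + i * b := by
    intro w
    refine ⟨(w + c w) / 2, (w - c w) / (2 * i), ?_, ?_, ?_⟩
    · rw [map_div₀, map_add, hcc, map_ofNat, add_comm]
    · rw [map_div₀, map_sub, hcc, map_mul, map_ofNat, hci]
      field_simp
      ring
    · field_simp
      ring
  rcases hpm x with h1 | h1
  · left
    ext w
    obtain ⟨a, b, ha, hb, rfl⟩ := hdec w
    rw [map_add, map_mul, h1, hfix a ha, hfix b hb]
    rfl
  · right
    ext w
    obtain ⟨a, b, ha, hb, rfl⟩ := hdec w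
    rw [map_add, map_mul, h1, hfix a ha, hfix b hb, map_add, map_mul, ha, hb, hci]

end Pool.Agent.TH452.TC
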