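import Pool.Agent.TH452.TC.Gal

/-!
Compactness.
-/

set_option autoImplicit false

namespace Pool.Agent.TH452.TC

open NumberField Pool.Agent.TH965.St

theorem top_lemma {G : Type} [Group G] [TopologicalSpace G] [IsTopologicalGroup G] [CompactSpace G]
    (c : G) (U0 : Subgroup G) (hU0 : IsOpen (U0 : Set G)) {ι : Type} (W : ι → Subgroup G)
    (hW : ∀ i, IsOpen (W i : Set G))
    (hsep : ∀ x, (∀ i, x * c * x⁻¹ * c⁻¹ ∈ W i) → x ∈ U0 ∨ x * c ∈ U0) :
    ∃ Y : Finset ι, ∀ x, (∀ i ∈ Y, x * c * x⁻¹ * c⁻¹ ∈ W i) → x ∈ U0 ∨ x * c ∈ U0 := by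
  classical
  let Z : Set G := {x | x ∉ U0 ∧ x * c ∉ U0}
  have hZc : IsClosed Z := by
    have h1 : IsClosed ((U0 : Set G)ᶜ) := isClosed_compl_iff.2 hU0
    exact h1.inter (h1.preimage (continuous_mul_const c))
  have hZk : IsCompact Z := hZc.isCompact
  let V : ι → Set G := fun i => ((fun x : G => x * c * x⁻¹ * c⁻¹) ⁻¹' (W i : Set G))ᶜ
  have hcont : Continuous (fun x : G => x * c * x⁻¹ * c⁻¹) := by fun_prop
  have hV : ∀ i, IsOpen (V i) := by
    intro i
    have h1 : IsClosed (W i : Set G) := Subgroup.isClosed_of_isOpen _ (hW i)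
    exact (h1.preimage hcont).isOpen_compl
  have hcov : Z ⊆ ⋃ i, V i := by
    intro x hx
    by_contra hno
    rw [Set.mem_iUnion] at hno
    push Not at hno
    have h2 : ∀ i, x * c * x⁻¹ * c⁻¹ ∈ W i := by
      intro i
      by_contra h3
      exact hno i h3
    rcases hsep x h2 with h3 | h3
    · exact hx.1 h3
    · exact hx.2 h3
  obtain ⟨Y, hY⟩ := hZk.elim_finite_subcover V hV hcov
  refine ⟨Y, fun x hx => ?_⟩
  by_contra hno
  push Not at hno
  obtain ⟨i, hiY, hi⟩ := Set.mem_iUnion₂.1 (hY (show x ∈ Z from hno))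
  exact hi (hx i hiY)

theorem exists_open {τ : Qb →+* ℂ} {c : GQ} (h : Cj τ c) {L0 : IntermediateField ℚ Qb}
    (hL0 : NumberField L0) : ∃ L : IntermediateField ℚ Qb, NumberField L ∧ L0 ≤ L ∧ Normal ℚ L ∧
      ∀ x : GQ, x * c * x⁻¹ * c⁻¹ ∈ L.fixingSubgroup →
        x ∈ L0.fixingSubgroup ∨ x * c ∈ L0.fixingSubgroup := by
  classical
  have : FiniteDimensional ℚ L0 := (nf_iff L0).1 hL0
  have ho0 : IsOpen (L0.fixingSubgroup : Set GQ) := IntermediateField.fixingSubgroup_isOpen L0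
  have hoy : ∀ y : Qb, IsOpen ((IntermediateField.adjoin ℚ {y}).fixingSubgroup : Set GQ) := by
    intro y
    have : FiniteDimensional ℚ (IntermediateField.adjoin ℚ {y}) := (nf_iff _).1 (nf_adjoin y)
    exact IntermediateField.fixingSubgroup_isOpen _
  have hsep : ∀ x : GQ, (∀ y : Qb, x * c * x⁻¹ * c⁻¹ ∈
      (IntermediateField.adjoin ℚ {y}).fixingSubgroup) →
      x ∈ L0.fixingSubgroup ∨ x * c ∈ L0.fixingSubgroup := by
    intro x hx
    have h1 : x * c * x⁻¹ * c⁻¹ = 1 := by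
      apply AlgEquiv.ext
      intro y
      exact (mem_fix_adjoin y _).1 (hx y)
    have h3 : x * c = c * x := by
      have h4 : x * c = (x * c * x⁻¹ * c⁻¹) * (c * x) := by group
      rw [h4, h1, one_mul]
    rcases cent_cc h h3 with h5 | h5
    · left
      rw [h5]
      exact Subgroup.one_mem _
    · right
      rw [h5, Cj.sq h]
      exact Subgroup.one_mem _
  obtain ⟨Y, hY⟩ := top_lemma c L0.fixingSubgroup ho0 _ hoy hsep
  have hfin : FiniteDimensional ℚ (IntermediateField.adjoin ℚ (Y : Set Qb)) := by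
    apply IntermediateField.finiteDimensional_adjoin
    intro y _
    exact (Algebra.IsAlgebraic.isAlgebraic (R := ℚ) y).isIntegral
  let L1 : IntermediateField ℚ Qb := L0 ⊔ IntermediateField.adjoin ℚ (Y : Set Qb)
  have hL1fd : FiniteDimensional ℚ L1 := IntermediateField.finiteDimensional_sup _ _
  obtain ⟨L, hLd⟩ : ∃ L, L = IntermediateField.normalClosure ℚ L1 Qb := ⟨_, rfl⟩
  have hL1L : L1 ≤ L := by rw [hLd]; exact IntermediateField.le_normalClosure L1
  have hLfd : FiniteDimensional ℚ L := by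
    rw [hLd]
    exact normalClosure.is_finiteDimensional ℚ _ Qb
  have hLn : Normal ℚ L := by
    rw [hLd]
    exact normalClosure.normal ℚ _ Qb
  refine ⟨L, (nf_iff L).2 hLfd, le_sup_left.trans hL1L, hLn, ?_⟩
  intro x hx
  refine hY x fun y hy => ?_
  have h1 : L.fixingSubgroup ≤ (IntermediateField.adjoin ℚ {y}).fixingSubgroup := by
    refine IntermediateField.fixingSubgroup_le (le_trans ?_ (le_sup_right.trans hL1L))
    exact IntermediateField.adjoin.mono _ _ _ (by simpa using hy)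
  exact h1 hx

end Pool.Agent.TH452.TC
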