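import Pool.Agent.TH452.TC.Gal2

/-!
Numbers of fixed embeddings of number fields.
-/

set_option autoImplicit false

namespace Pool.Agent.TH452.TC

open NumberField Pool.Agent.TH965.St

/-- number of embeddings fixed by `g` -/
noncomputable def em (K : IntermediateField ℚ Qb) (g : GQ) : ℤ :=
  (Nat.card {φ : K →ₐ[ℚ] Qb // ∀ x, g (φ x) = φ x} : ℤ)

theorem exists_ext {K : IntermediateField ℚ Qb} (φ : K →ₐ[ℚ] Qb) :
    ∃ σ : GQ, ∀ x : K, σ (x : Qb) = φ x := by
  obtain ⟨ψ, hψ⟩ := IsAlgClosed.surjective_domRestrict_of_isAlgebraic (K := ℚ) (L := K) (M := Qb)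
    (E := Qb) φ
  refine ⟨AlgEquiv.ofBijective ψ (Algebra.IsAlgebraic.algHom_bijective ψ), fun x => ?_⟩
  rw [← hψ]
  rfl

theorem em_eq (K : IntermediateField ℚ Qb) (g : GQ) : em K g = pf K.fixingSubgroup g := by
  classical
  have hmem : ∀ h : GQ, h ∈ K.fixingSubgroup ↔ ∀ x : K, h (x : Qb) = x := by
    intro h
    rw [IntermediateField.mem_fixingSubgroup_iff]
    exact ⟨fun h1 x => h1 x x.2, fun h1 x hx => h1 ⟨x, hx⟩⟩
  unfold em pf
  congr 1
  symm
  refine Nat.card_congr (Equiv.ofBijective (fun x => ⟨((x.1.out : GQ) : Qb →ₐ[ℚ] Qb).comp K.val, ?_⟩)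
    ⟨?_, ?_⟩)
  · intro k
    have h1 : g • ((x.1.out : GQ) : GQ ⧸ K.fixingSubgroup) = ((x.1.out : GQ) : GQ ⧸ K.fixingSubgroup) := by
      rw [QuotientGroup.out_eq']
      exact x.2
    rw [fixed_iff] at h1
    have h2 := (hmem _).1 h1 k
    have h3 : (x.1.out : GQ)⁻¹ (g ((x.1.out : GQ) (k : Qb))) = k := h2
    have h4 : g ((x.1.out : GQ) (k : Qb)) = (x.1.out : GQ) (k : Qb) := by
      have h5 := congrArg (x.1.out : GQ) h3
      have h6 : ∀ y : Qb, (x.1.out : GQ) ((x.1.out : GQ)⁻¹ y) = y := fun y => by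
        rw [← AlgEquiv.mul_apply, mul_inv_cancel]
        rfl
      rwa [h6] at h5
    exact h4
  · rintro ⟨x, hx⟩ ⟨y, hy⟩ hxy
    have h1 : ((x.out : GQ) : Qb →ₐ[ℚ] Qb).comp K.val = ((y.out : GQ) : Qb →ₐ[ℚ] Qb).comp K.val :=
      congrArg Subtype.val hxy
    have h2 : ∀ k : K, (x.out : GQ) (k : Qb) = (y.out : GQ) (k : Qb) := fun k =>
      DFunLike.congr_fun h1 k
    apply Subtype.ext
    show x = y
    rw [← QuotientGroup.out_eq' x, ← QuotientGroup.out_eq' y, QuotientGroup.eq, hmem]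
    intro k
    show (x.out : GQ)⁻¹ ((y.out : GQ) (k : Qb)) = k
    rw [← h2 k, ← AlgEquiv.mul_apply, inv_mul_cancel]
    rfl
  · rintro ⟨φ, hφ⟩
    obtain ⟨σ, hσ⟩ := exists_ext φ
    refine ⟨⟨(σ : GQ ⧸ K.fixingSubgroup), ?_⟩, ?_⟩
    · rw [fixed_iff, hmem]
      intro k
      show σ⁻¹ (g (σ (k : Qb))) = k
      rw [hσ, hφ, ← hσ, ← AlgEquiv.mul_apply, inv_mul_cancel]
      rfl
    · apply Subtype.ext
      apply AlgHom.ext
      intro k
      show ((σ : GQ ⧸ K.fixingSubgroup).out : GQ) (k : Qb) = φ k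
      obtain ⟨h, hh⟩ := QuotientGroup.mk_out_eq_mul K.fixingSubgroup σ
      rw [hh, AlgEquiv.mul_apply, (hmem _).1 h.2 k, hσ]

theorem em_one (K : IntermediateField ℚ Qb) [NumberField K] : em K 1 = Module.finrank ℚ K := by
  have e : {φ : K →ₐ[ℚ] Qb // ∀ x, (1 : GQ) (φ x) = φ x} ≃ (K →ₐ[ℚ] Qb) :=
    Equiv.subtypeUnivEquiv fun φ x => rfl
  unfold em
  rw [Nat.card_congr e, Nat.card_eq_fintype_card, AlgHom.card ℚ K Qb]

theorem comp_bij (τ : Qb →+* ℂ) (K : IntermediateField ℚ Qb) [NumberField K] :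
    Function.Bijective (fun φ : K →ₐ[ℚ] Qb => (τ.comp φ.toRingHom : K →+* ℂ)) := by
  rw [Fintype.bijective_iff_injective_and_card]
  constructor
  · intro φ ψ h
    apply AlgHom.ext
    intro x
    exact τ.injective (RingHom.congr_fun h x)
  · rw [AlgHom.card ℚ K Qb, NumberField.Embeddings.card K ℂ]

theorem em_cc {τ : Qb →+* ℂ} {c : GQ} (h : Cj τ c) (K : IntermediateField ℚ Qb) [NumberField K] :
    em K c = InfinitePlace.nrRealPlaces K := by
  classical
  unfold em
  rw [← InfinitePlace.card_real_embeddings, ← Nat.card_eq_fintype_card]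
  congr 1
  refine Nat.card_congr (Equiv.subtypeEquiv (Equiv.ofBijective _ (comp_bij τ K)) fun φ => ?_)
  constructor
  · intro h1
    ext x
    show (starRingEnd ℂ) (τ (φ x)) = τ (φ x)
    rw [← h, h1]
  · intro h1 x
    apply τ.injective
    rw [h]
    exact RingHom.congr_fun h1 x

theorem pf_comap {G G' : Type} [Group G] [Group G'] (π : G →* G') (hπ : Function.Surjective π)
    (H : Subgroup G') (g : G) : pf (H.comap π) g = pf H (π g) := by
  unfold pf
  congr 1
  have hbij : Function.Bijective (Quotient.map' (s₁ := QuotientGroup.leftRel (H.comap π))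
      (s₂ := QuotientGroup.leftRel H) π (by
        intro a b hab
        rw [QuotientGroup.leftRel_apply] at hab ⊢
        rw [← map_inv, ← map_mul]
        exact hab) : (G ⧸ H.comap π) → (G' ⧸ H)) := by
    constructor
    · intro x y hxy
      induction x using Quotient.inductionOn' with | _ x
      induction y using Quotient.inductionOn' with | _ y
      rw [Quotient.map'_mk'', Quotient.map'_mk''] at hxy
      have h1 := Quotient.eq''.1 hxy
      rw [QuotientGroup.leftRel_apply, ← map_inv, ← map_mul] at h1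
      apply Quotient.eq''.2
      rw [QuotientGroup.leftRel_apply]
      exact h1
    · intro y
      induction y using Quotient.inductionOn' with | _ y
      obtain ⟨x, rfl⟩ := hπ y
      exact ⟨Quotient.mk'' x, rfl⟩
  refine Nat.card_congr (Equiv.subtypeEquiv (Equiv.ofBijective _ hbij) fun x => ?_)
  induction x using Quotient.inductionOn' with | _ x
  show g • ((x : G) : G ⧸ H.comap π) = ((x : G) : G ⧸ H.comap π) ↔
    π g • ((π x : G') : G' ⧸ H) = ((π x : G') : G' ⧸ H)
  rw [fixed_iff, fixed_iff, Subgroup.mem_comap]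
  simp only [map_mul, map_inv]

end Pool.Agent.TH452.TC
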