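import Pool.Agent.TH452.TC.Gal3

/-!
The signature character of a number field and totally complex fields.
-/

set_option autoImplicit false

namespace Pool.Agent.TH452.TC

open NumberField Pool.Agent.TH965.St

/-- number fields in the algebraic closure of `ℚ` -/
abbrev NF : Type := {K : IntermediateField ℚ Qb // NumberField K}

theorem tc_of_em {τ : Qb →+* ℂ} {c : GQ} (h : Cj τ c) (K : IntermediateField ℚ Qb) [NumberField K]
    (h0 : em K c = 0) : IsTotallyComplex K := by
  rw [em_cc h] at h0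
  exact nrRealPlaces_eq_zero_iff.1 (by exact_mod_cast h0)

theorem tc_combo {G : Type} [Group G] (π : GQ →* G) (hπ : Function.Surjective π)
    {L : IntermediateField ℚ Qb} (hL : NumberField L) (hker : π.ker = L.fixingSubgroup)
    {c : GQ} {φ : G → ℤ} (hφ : φ ∈ Tc (π c)) :
    ∃ n : NF →₀ ℤ, (∀ K ∈ n.support, em K.1 c = 0) ∧
      ∀ g : GQ, n.sum (fun K a => a * em K.1 g) = φ (π g) := by
  classical
  unfold Tc at hφ
  induction hφ using AddSubgroup.closure_induction with
  | mem f hf =>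
    obtain ⟨H, hH, rfl⟩ := hf
    have hle : L.fixingSubgroup ≤ H.comap π := by
      rw [← hker]
      intro x hx
      rw [Subgroup.mem_comap, (MonoidHom.mem_ker).1 hx]
      exact H.one_mem
    obtain ⟨F, hF, hFH, -⟩ := exists_field hL (H.comap π) hle
    have hem : ∀ g, em F g = pf H (π g) := by
      intro g
      rw [em_eq, hFH, pf_comap π hπ]
    refine ⟨Finsupp.single ⟨F, hF⟩ 1, ?_, ?_⟩
    · intro K hK
      have h1 := Finsupp.support_single_subset hK
      rw [Finset.mem_singleton] at h1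
      rw [h1]
      show em F c = 0
      rw [hem]
      exact pf_zero hH
    · intro g
      rw [Finsupp.sum_single_index (by simp), one_mul]
      exact hem g
  | zero =>
    refine ⟨0, by simp, fun g => ?_⟩
    simp
  | add f f' _ _ h1 h2 =>
    obtain ⟨n, hn, hn'⟩ := h1
    obtain ⟨m, hm, hm'⟩ := h2
    refine ⟨n + m, ?_, ?_⟩
    · intro K hK
      rcases Finset.mem_union.1 (Finsupp.support_add hK) with h3 | h3
      · exact hn K h3
      · exact hm K h3
    · intro g
      rw [Finsupp.sum_add_index' (by simp) (by intros; ring), hn', hm']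
      rfl
  | neg f _ h1 =>
    obtain ⟨n, hn, hn'⟩ := h1
    refine ⟨-n, ?_, ?_⟩
    · intro K hK
      rw [Finsupp.support_neg] at hK
      exact hn K hK
    · intro g
      rw [Finsupp.sum_neg_index (by simp)]
      rw [Pi.neg_apply, ← hn', ← Finsupp.sum_neg]
      simp

theorem pf_mul_mem {G : Type} [Group G] {N H : Subgroup G} (hN : N.Normal) (hNH : N ≤ H) (g : G)
    {n : G} (hn : n ∈ N) : pf H (g * n) = pf H g := by
  unfold pf
  congr 1
  refine Nat.card_congr (Equiv.subtypeEquivRight fun x => ?_)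
  obtain ⟨y, rfl⟩ := QuotientGroup.mk_surjective x
  rw [fixed_iff, fixed_iff]
  have e : y⁻¹ * (g * n) * y = (y⁻¹ * g * y) * (y⁻¹ * n * y) := by group
  rw [e]
  apply H.mul_mem_cancel_right
  apply hNH
  have := hN.conj_mem n hn y⁻¹
  rwa [inv_inv] at this

/-- abstract form of the main step -/
theorem dat_of {G0 G : Type} [Group G0] [Group G] [Finite G] (π : G0 →* G)
    (hπ : Function.Surjective π) {N H : Subgroup G0} (hN : N.Normal) (hNH : N ≤ H)
    (hk : π.ker ≤ N) {c : G0} (hcN : c ∉ N) (hc : c * c = 1)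
    (hcent : ∀ x, x * c * x⁻¹ * c⁻¹ ∈ π.ker → x ∈ N ∨ x * c ∈ N)
    (hev : ∃ k, pf H 1 - pf H c = 2 * k) :
    Dat (π c) (N.map π) (pf (H.map π) - fun _ => pf H c) := by
  have hmem : ∀ {N' : Subgroup G0}, π.ker ≤ N' → ∀ x, π x ∈ N'.map π ↔ x ∈ N' := by
    intro N' hN' x
    rw [← Subgroup.mem_comap, Subgroup.comap_map_eq_self hN']
  have hpf : ∀ g, pf (H.map π) (π g) = pf H g := by
    intro g
    rw [← pf_comap π hπ, Subgroup.comap_map_eq_self (hk.trans hNH)]
  have hNm : (N.map π).Normal := hN.map π hπ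
  refine ⟨hNm, ?_, ?_, ?_, ?_, ?_, ?_, ?_⟩
  · rw [hmem hk]
    exact hcN
  · intro x hx
    obtain ⟨y, rfl⟩ := hπ x
    rw [← map_mul, hmem hk, hmem hk]
    apply hcent
    rw [MonoidHom.mem_ker, map_mul, map_mul, map_mul, hx, map_inv, map_inv]
    group
  · rw [← map_mul, hc, map_one]
  · apply Subring.sub_mem
    · exact pf_mem_Pm _
    · have : (fun _ : G => pf H c) = ((pf H c : ℤ) : G → ℤ) := by
        funext g
        simp
      rw [this]
      exact intCast_mem _ _
  · intro g n hn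
    show pf (H.map π) (g * n) - pf H c = pf (H.map π) g - pf H c
    rw [pf_mul_mem hNm (Subgroup.map_mono hNH) g hn]
  · show pf (H.map π) (π c) - pf H c = 0
    rw [hpf, sub_self]
  · obtain ⟨k, hk⟩ := hev
    refine ⟨k, ?_⟩
    show pf (H.map π) 1 - pf H c = 2 * k
    rw [← map_one π, hpf, hk]

theorem main_em {τ : Qb →+* ℂ} {c : GQ} (h : Cj τ c) (K : IntermediateField ℚ Qb)
    [hK : NumberField K] : ∃ k : ℕ, ∃ n : NF →₀ ℤ, (∀ F ∈ n.support, em F.1 c = 0) ∧
      ∀ g : GQ, n.sum (fun F a => a * em F.1 g) = 2 ^ k * (em K g - em K c) := by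
  classical
  obtain ⟨i, hi⟩ := IsAlgClosed.exists_pow_nat_eq (k := Qb) (-1) (n := 2) (by norm_num)
  obtain ⟨L1, hL1⟩ : ∃ L1, L1 = K ⊔ IntermediateField.adjoin ℚ {i} := ⟨_, rfl⟩
  have hL1n : NumberField L1 := by rw [hL1]; exact nf_sup hK (nf_adjoin i)
  have hL1fd : FiniteDimensional ℚ L1 := (nf_iff L1).1 hL1n
  obtain ⟨L0, hL0d⟩ : ∃ L0, L0 = IntermediateField.normalClosure ℚ L1 Qb := ⟨_, rfl⟩
  have hL1L0 : L1 ≤ L0 := by rw [hL0d]; exact IntermediateField.le_normalClosure L1
  have hL0fd : FiniteDimensional ℚ L0 := by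
    rw [hL0d]
    exact normalClosure.is_finiteDimensional ℚ _ Qb
  have hL0n : Normal ℚ L0 := by
    rw [hL0d]
    exact normalClosure.normal ℚ _ Qb
  have hL0 : NumberField L0 := (nf_iff L0).2 hL0fd
  obtain ⟨L, hL, hL0L, hLn, hcent⟩ := exists_open h hL0
  have hnorm : ∀ M : IntermediateField ℚ Qb, Normal ℚ M → M.fixingSubgroup.Normal := by
    intro M hM
    have : IsGalois ℚ M := { __ := hM }
    exact InfiniteGalois.normal_iff_isGalois M |>.2 this
  have hUn := hnorm L hLn
  have hNn := hnorm L0 hL0n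
  have hfin : Finite (GQ ⧸ L.fixingSubgroup) := finite_quot_of_open hL L.fixingSubgroup le_rfl
  have hcN : c ∉ L0.fixingSubgroup := by
    intro hc
    have h1 : i ∈ L0 := by
      apply hL1L0
      rw [hL1]
      exact (le_sup_right : _ ≤ K ⊔ IntermediateField.adjoin ℚ {i})
        (IntermediateField.mem_adjoin_simple_self ℚ i)
    have h2 : c i = i := (IntermediateField.mem_fixingSubgroup_iff _ _).1 hc i h1
    have h3 := h i
    rw [h2] at h3
    have h4 : (τ i).im = 0 := Complex.conj_eq_iff_im.1 h3.symm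
    have h5 : (τ i) ^ 2 = -1 := by rw [← map_pow, hi, map_neg, map_one]
    have h6 : ((τ i) ^ 2).re = -1 := by rw [h5]; simp
    rw [sq, Complex.mul_re, h4] at h6
    nlinarith [sq_nonneg (τ i).re]
  have hNH : L0.fixingSubgroup ≤ K.fixingSubgroup := by
    apply IntermediateField.fixingSubgroup_le
    refine le_trans ?_ hL1L0
    rw [hL1]
    exact le_sup_left
  have hker : (QuotientGroup.mk' L.fixingSubgroup).ker = L.fixingSubgroup :=
    QuotientGroup.ker_mk' _
  have hle : L.fixingSubgroup ≤ L0.fixingSubgroup := IntermediateField.fixingSubgroup_le hL0L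
  have hpi : Function.Surjective (QuotientGroup.mk' L.fixingSubgroup) :=
    QuotientGroup.mk'_surjective _
  have hev : ∃ k, pf K.fixingSubgroup 1 - pf K.fixingSubgroup c = 2 * k := by
    refine ⟨(InfinitePlace.nrComplexPlaces K : ℤ), ?_⟩
    rw [← em_eq, ← em_eq, em_one, em_cc h, ← InfinitePlace.card_add_two_mul_card_eq_rank]
    push_cast
    ring
  have D := dat_of (QuotientGroup.mk' L.fixingSubgroup) hpi hNn hNH (by rw [hker]; exact hle) hcN
    (Cj.sq h) (by rw [hker]; exact hcent) hev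
  obtain ⟨k, hk⟩ := two_pow D
  obtain ⟨n, hn, hn'⟩ := tc_combo (QuotientGroup.mk' L.fixingSubgroup) hpi hL hker hk
  refine ⟨k, n, hn, fun g => ?_⟩
  rw [hn', Pi.smul_apply, smul_eq_mul, em_eq, em_eq]
  congr 1
  show pf (K.fixingSubgroup.map (QuotientGroup.mk' L.fixingSubgroup))
    ((QuotientGroup.mk' L.fixingSubgroup) g) - _ = _
  rw [← pf_comap _ hpi, Subgroup.comap_map_eq_self (by rw [hker]; exact hle.trans hNH)]

end Pool.Agent.TH452.TC
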