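import Pool.Agent.TH452.TC.Gal4

/-!
Multiplicative functions of number fields.
-/

set_option autoImplicit false

namespace Pool.Agent.TH452.TC

open NumberField Pool.Agent.TH965.St

theorem exists_cj : ∃ (τ : Qb →+* ℂ) (c : GQ), Cj τ c := by
  let τ : Qb →+* ℂ := (IsAlgClosed.lift (R := ℚ) (M := ℂ) (S := Qb) : Qb →ₐ[ℚ] ℂ).toRingHom
  obtain ⟨σ, hσ⟩ := ComplexEmbedding.exists_comp_symm_eq_of_comp_eq (k := ℚ) (K := Qb) τ
    ((starRingEnd ℂ).comp τ) (Subsingleton.elim _ _)
  refine ⟨τ, σ.symm, fun x => ?_⟩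
  exact RingHom.congr_fun hσ x

variable {Z : Type} [CommGroup Z]

theorem zpow_sum' {ι : Type} (s : Finset ι) (z : Z) (e : ι → ℤ) :
    ∏ i ∈ s, z ^ e i = z ^ ∑ i ∈ s, e i := by
  classical
  induction s using Finset.induction_on with
  | empty => simp
  | insert a s ha ih => rw [Finset.prod_insert ha, Finset.sum_insert ha, ih, zpow_add]

/-- trivial on linear relations of permutation characters -/
def Mu (f : NF → Z) : Prop :=
  ∀ n : NF →₀ ℤ, (∀ g, n.sum (fun K k => k * em K.1 g) = 0) → n.prod (fun K k => f K ^ k) = 1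

theorem Mu.mul {f g : NF → Z} (hf : Mu f) (hg : Mu g) : Mu (fun K => f K * g K) := by
  intro n hn
  have h1 := hf n hn
  have h2 := hg n hn
  calc n.prod (fun K k => (f K * g K) ^ k)
      = n.prod (fun K k => f K ^ k) * n.prod (fun K k => g K ^ k) := by
        rw [← Finsupp.prod_mul]
        exact Finsupp.prod_congr fun K _ => mul_zpow _ _ _
    _ = 1 := by rw [h1, h2, one_mul]

theorem Mu.inv {f : NF → Z} (hf : Mu f) : Mu (fun K => (f K)⁻¹) := by
  intro n hn
  have h1 := hf n hn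
  calc n.prod (fun K k => ((f K)⁻¹) ^ k) = (n.prod (fun K k => f K ^ k))⁻¹ := by
        rw [← Finsupp.prod_inv]
        exact Finsupp.prod_congr fun K _ => inv_zpow _ _
    _ = 1 := by rw [h1, inv_one]

theorem Mu.pow {f : NF → Z} (hf : Mu f) (h : ℕ) : Mu (fun K => f K ^ h) := by
  induction h with
  | zero =>
    intro n _
    simp
  | succ m ih =>
    have : (fun K => f K ^ (m + 1)) = fun K => f K ^ m * f K := by
      funext K
      exact pow_succ _ _
    rw [this]
    exact ih.mul hf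

theorem mu_exp (z : Z) (e : NF → ℕ) (he : ∀ n : NF →₀ ℤ,
    (∀ g, n.sum (fun K k => k * em K.1 g) = 0) → n.sum (fun K k => k * (e K : ℤ)) = 0) :
    Mu (fun K => z ^ e K) := by
  intro n hn
  have h1 := he n hn
  have h2 : n.prod (fun K k => (z ^ e K) ^ k) = z ^ (n.sum (fun K k => k * (e K : ℤ))) := by
    unfold Finsupp.prod Finsupp.sum
    rw [← zpow_sum']
    refine Finset.prod_congr rfl fun K _ => ?_
    show (z ^ e K) ^ n K = z ^ (n K * (e K : ℤ))
    rw [← zpow_natCast, ← zpow_mul, mul_comm]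
  rw [h2, h1, zpow_zero]

theorem exp_of_two (e : NF → ℕ) (a b : ℤ) (g g' : GQ)
    (h : ∀ K, 2 * (e K : ℤ) = a * em K.1 g + b * em K.1 g') (n : NF →₀ ℤ)
    (hn : ∀ g, n.sum (fun K k => k * em K.1 g) = 0) : n.sum (fun K k => k * (e K : ℤ)) = 0 := by
  have h1 : 2 * n.sum (fun K k => k * (e K : ℤ)) =
      a * n.sum (fun K k => k * em K.1 g) + b * n.sum (fun K k => k * em K.1 g') := by
    unfold Finsupp.sum
    rw [Finset.mul_sum, Finset.mul_sum, Finset.mul_sum, ← Finset.sum_add_distrib]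
    refine Finset.sum_congr rfl fun K _ => ?_
    have := h K
    calc 2 * (n K * (e K : ℤ)) = n K * (2 * (e K : ℤ)) := by ring
      _ = _ := by rw [this]; ring
  rw [hn g, hn g'] at h1
  omega

theorem pow_closed {T : Subgroup Z} (hT : ∀ z, z ^ 2 ∈ T → z ∈ T) (k : ℕ) :
    ∀ z, z ^ (2 ^ k) ∈ T → z ∈ T := by
  induction k with
  | zero => intro z hz; simpa using hz
  | succ k ih =>
    intro z hz
    apply ih
    apply hT
    rw [← pow_mul, ← pow_succ]
    exact hz

theorem em_bot (g : GQ) : em (⊥ : IntermediateField ℚ Qb) g = 1 := by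
  have hb : NumberField (⊥ : IntermediateField ℚ Qb) :=
    (nf_iff _).2 (inferInstance : FiniteDimensional ℚ (⊥ : IntermediateField ℚ Qb))
  have h2 : ∀ φ : (⊥ : IntermediateField ℚ Qb) →ₐ[ℚ] Qb, ∀ x, g (φ x) = φ x := by
    intro φ x
    obtain ⟨q, hq⟩ := IntermediateField.mem_bot.1 x.2
    have h3 : x = algebraMap ℚ (⊥ : IntermediateField ℚ Qb) q := Subtype.ext hq.symm
    rw [h3, AlgHom.commutes, AlgEquiv.commutes]
  have h4 : em (⊥ : IntermediateField ℚ Qb) g = em (⊥ : IntermediateField ℚ Qb) 1 := by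
    unfold em
    congr 1
    exact Nat.card_congr (Equiv.subtypeEquivRight fun φ => ⟨fun _ x => rfl, fun _ => h2 φ⟩)
  rw [h4, em_one, IntermediateField.finrank_bot]
  rfl

theorem main_mu {f : NF → Z} (hf : Mu f) {T : Subgroup Z} (hT : ∀ z, z ^ 2 ∈ T → z ∈ T)
    (hTC : ∀ F : NF, (∃ _ : NumberField F.1, IsTotallyComplex F.1) → f F ∈ T) (rat : NF)
    (hrat : rat.1 = ⊥) (K : NF) (r : ℕ) (hr : ∀ _ : NumberField K.1, InfinitePlace.nrRealPlaces K.1 = r) :
    f K / f rat ^ r ∈ T := by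
  classical
  obtain ⟨τ, c, h⟩ := exists_cj
  have hKn : NumberField K.1 := K.2
  obtain ⟨k, n, hn, hrel⟩ := main_em h K.1
  have hc : em K.1 c = r := by rw [em_cc h, hr hKn]
  have hs : ∀ g, (n - Finsupp.single K (2 ^ k : ℤ) + Finsupp.single rat (2 ^ k * (r : ℤ))).sum
      (fun F a => a * em F.1 g) = 0 := by
    intro g
    rw [Finsupp.sum_add_index' (by simp) (by intros; ring),
      Finsupp.sum_sub_index (by intros; ring), Finsupp.sum_single_index (by simp),
      Finsupp.sum_single_index (by simp), hrel, hrat, em_bot, hc]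
    ring
  have hp := hf _ hs
  rw [Finsupp.prod_add_index' (by simp) (by intros; exact zpow_add _ _ _), sub_eq_add_neg,
    Finsupp.prod_add_index' (by simp) (by intros; exact zpow_add _ _ _), ← Finsupp.single_neg,
    Finsupp.prod_single_index (by simp), Finsupp.prod_single_index (by simp)] at hp
  apply pow_closed hT k
  have hmem : n.prod (fun F a => f F ^ a) ∈ T := by
    unfold Finsupp.prod
    refine Subgroup.prod_mem _ fun F hF => Subgroup.zpow_mem _ (hTC F ?_) _
    have hFn : NumberField F.1 := F.2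
    exact ⟨hFn, tc_of_em h F.1 (hn F hF)⟩
  have : (f K / f rat ^ r) ^ 2 ^ k = n.prod (fun F a => f F ^ a) := by
    rw [div_pow, ← pow_mul, div_eq_iff_eq_mul]
    have e1 : f K ^ (-(2 ^ k : ℤ)) = (f K ^ 2 ^ k)⁻¹ := by
      rw [zpow_neg]
      congr 1
      rw [← zpow_natCast]
      push_cast
      rfl
    have e2 : f rat ^ (2 ^ k * (r : ℤ)) = f rat ^ (r * 2 ^ k) := by
      rw [← zpow_natCast]
      push_cast
      rw [mul_comm]
    rw [e1, e2] at hp
    have h3 : (n.prod fun F a => f F ^ a) * f rat ^ (r * 2 ^ k) = f K ^ 2 ^ k := by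
      calc (n.prod fun F a => f F ^ a) * f rat ^ (r * 2 ^ k)
          = ((n.prod fun F a => f F ^ a) * (f K ^ 2 ^ k)⁻¹ * f rat ^ (r * 2 ^ k)) * f K ^ 2 ^ k := by
            rw [mul_assoc, mul_assoc]
            congr 1
            rw [mul_comm (f rat ^ (r * 2 ^ k)), inv_mul_cancel_left]
        _ = _ := by rw [hp, one_mul]
    exact h3.symm
  rw [this]
  exact hmem

end Pool.Agent.TH452.TC
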