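import Mathlib

/-!
Permutation characters of a finite group modulo those on which the involution `c` has no fixed point.
-/

set_option autoImplicit false

namespace Pool.Agent.TH452.TC

open Finset

variable {G : Type} [Group G]

/-- number of cosets fixed by `g` -/
noncomputable def pf (H : Subgroup G) (g : G) : ℤ := (Nat.card {x : G ⧸ H // g • x = x} : ℤ)

/-- number of fixed points -/
noncomputable def fx (X : Type) [MulAction G X] (g : G) : ℤ := (Nat.card {x : X // g • x = x} : ℤ)

/-- ring of virtual permutation characters -/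
def Pm (G : Type) [Group G] : Subring (G → ℤ) :=
  Subring.closure {f | ∃ (X : Type) (_ : Finite X) (_ : MulAction G X), f = fx X}

/-- the group generated by the `pf H` with no conjugate of `c` in `H` -/
def Tc (c : G) : AddSubgroup (G → ℤ) :=
  AddSubgroup.closure {f | ∃ H : Subgroup G, (∀ x, x⁻¹ * c * x ∉ H) ∧ f = pf H}

theorem pf_eq_fx (H : Subgroup G) : pf H = fx (G := G) (G ⧸ H) := rfl

theorem fx_prod (X Y : Type) [MulAction G X] [MulAction G Y] :
    fx (G := G) (X × Y) = fx X * fx Y := by
  funext g
  unfold fx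
  rw [Pi.mul_apply]
  have e : {x : X × Y // g • x = x} ≃ {x : X // g • x = x} × {y : Y // g • y = y} :=
    { toFun := fun z => (⟨z.1.1, congrArg Prod.fst z.2⟩, ⟨z.1.2, congrArg Prod.snd z.2⟩)
      invFun := fun z => ⟨(z.1.1, z.2.1), Prod.ext z.1.2 z.2.2⟩
      left_inv := fun z => rfl
      right_inv := fun z => rfl }
  rw [Nat.card_congr e, Nat.card_prod]
  push_cast
  rfl

theorem fx_mem_Tc [Finite G] (c : G) (X : Type) [Finite X] [MulAction G X]
    (hX : ∀ x : X, c • x ≠ x) : fx X ∈ Tc c := by
  classical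
  have key : fx (G := G) X = ∑ᶠ ω : Quotient (MulAction.orbitRel G X),
      pf (MulAction.stabilizer G ω.out) := by
    have : Fintype (Quotient (MulAction.orbitRel G X)) := Fintype.ofFinite _
    rw [finsum_eq_sum_of_fintype]
    funext g
    rw [Finset.sum_apply]
    unfold fx pf
    have e : (Σ ω : Quotient (MulAction.orbitRel G X),
        {q : G ⧸ MulAction.stabilizer G ω.out // g • q = q}) ≃ {x : X // g • x = x} := by
      refine Equiv.ofBijective
        (fun z => ⟨MulAction.ofQuotientStabilizer G z.1.out z.2.1, ?_⟩) ⟨?_, ?_⟩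
      · rw [← MulAction.ofQuotientStabilizer_smul, z.2.2]
      · rintro ⟨ω, q, hq⟩ ⟨ω', q', hq'⟩ h
        have h1 : MulAction.ofQuotientStabilizer G ω.out q =
            MulAction.ofQuotientStabilizer G ω'.out q' := congrArg Subtype.val h
        have h2 : ∀ (ω : Quotient (MulAction.orbitRel G X)) (q : G ⧸ MulAction.stabilizer G ω.out),
            (Quotient.mk (MulAction.orbitRel G X) (MulAction.ofQuotientStabilizer G ω.out q)) = ω := by
          intro ω q
          conv_rhs => rw [← Quotient.out_eq ω]
          apply Quotient.sound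
          exact MulAction.ofQuotientStabilizer_mem_orbit G ω.out q
        have h3 : ω = ω' := by rw [← h2 ω q, ← h2 ω' q', h1]
        subst h3
        have h4 := MulAction.injective_ofQuotientStabilizer G ω.out h1
        subst h4
        rfl
      · rintro ⟨x, hx⟩
        have h1 : x ∈ MulAction.orbit G (Quotient.mk (MulAction.orbitRel G X) x).out := by
          have := Quotient.mk_out (s := MulAction.orbitRel G X) x
          exact MulAction.orbitRel_apply.1 ((MulAction.orbitRel G X).symm this)
        obtain ⟨y, hy⟩ := h1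
        have hy' : MulAction.ofQuotientStabilizer G (Quotient.mk (MulAction.orbitRel G X) x).out
            (y : G ⧸ MulAction.stabilizer G (Quotient.mk (MulAction.orbitRel G X) x).out) = x := hy
        refine ⟨⟨Quotient.mk (MulAction.orbitRel G X) x, (y : G ⧸ _), ?_⟩, ?_⟩
        · apply MulAction.injective_ofQuotientStabilizer G
          rw [MulAction.ofQuotientStabilizer_smul, hy', hx]
        · exact Subtype.ext hy'
    rw [← Nat.card_congr e, Nat.card_sigma]
    push_cast
    rfl
  rw [key]
  refine finsum_induction (fun f => f ∈ Tc c) (Tc c).zero_mem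
    (fun _ _ h1 h2 => (Tc c).add_mem h1 h2) fun ω => ?_
  refine AddSubgroup.subset_closure ⟨_, fun x hx => ?_, rfl⟩
  rw [MulAction.mem_stabilizer_iff] at hx
  apply hX (x • ω.out)
  have h1 : x • ((x⁻¹ * c * x) • ω.out) = x • ω.out := by rw [hx]
  rw [smul_smul] at h1
  rw [smul_smul, ← h1]
  congr 1
  group

theorem fx_mul_mem [Finite G] (c : G) (X : Type) [Finite X] [MulAction G X] {b : G → ℤ}
    (hb : b ∈ Tc c) : fx X * b ∈ Tc c := by
  induction hb using AddSubgroup.closure_induction with
  | mem b hb =>
    obtain ⟨H, hH, rfl⟩ := hb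
    rw [pf_eq_fx, ← fx_prod]
    apply fx_mem_Tc
    rintro ⟨x, y⟩ h
    have h2 : c • y = y := congrArg Prod.snd h
    obtain ⟨z, rfl⟩ := QuotientGroup.mk_surjective y
    rw [MulAction.Quotient.smul_mk, QuotientGroup.eq] at h2
    apply hH z
    have h3 := H.inv_mem h2
    rw [smul_eq_mul] at h3
    have e : (((c * z)⁻¹ * z))⁻¹ = z⁻¹ * c * z := by group
    rwa [e] at h3
  | zero => rw [mul_zero]; exact (Tc c).zero_mem
  | add b b' _ _ h1 h2 => rw [mul_add]; exact (Tc c).add_mem h1 h2
  | neg b _ h1 => rw [mul_neg]; exact (Tc c).neg_mem h1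

theorem pm_mul_mem [Finite G] (c : G) {a b : G → ℤ} (ha : a ∈ Pm G) (hb : b ∈ Tc c) :
    a * b ∈ Tc c := by
  induction ha using Subring.closure_induction generalizing b with
  | mem a ha =>
    obtain ⟨X, hX1, hX2, rfl⟩ := ha
    exact fx_mul_mem c X hb
  | zero => rw [zero_mul]; exact (Tc c).zero_mem
  | one => rw [one_mul]; exact hb
  | add a a' _ _ h1 h2 => rw [add_mul]; exact (Tc c).add_mem (h1 hb) (h2 hb)
  | neg a _ h1 => rw [neg_mul]; exact (Tc c).neg_mem (h1 hb)
  | mul a a' _ _ h1 h2 => rw [mul_assoc]; exact h1 (h2 hb)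

theorem pf_mem_Pm [Finite G] (H : Subgroup G) : pf H ∈ Pm G :=
  Subring.subset_closure ⟨G ⧸ H, inferInstance, inferInstance, rfl⟩

/-- constant on the elements generating conjugate cyclic subgroups -/
def RC (φ : G → ℤ) : Prop :=
  ∀ g g' y : G, Subgroup.zpowers g' = Subgroup.zpowers (y⁻¹ * g * y) → φ g = φ g'

theorem fx_RC (X : Type) [MulAction G X] : RC (fx (G := G) X) := by
  intro g g' y h
  have h1 : ∀ (a b : G), a ∈ Subgroup.zpowers b → ∀ x : X, b • x = x → a • x = x := by
    intro a b hab x hx
    have h2 : Subgroup.zpowers b ≤ MulAction.stabilizer G x := by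
      rw [Subgroup.zpowers_le]
      exact hx
    exact h2 hab
  have h3 : fx (G := G) X (y⁻¹ * g * y) = fx X g' := by
    have e : ∀ x : X, ((y⁻¹ * g * y) • x = x) ↔ (g' • x = x) := by
      intro x
      refine ⟨h1 _ _ ?_ x, h1 _ _ ?_ x⟩
      · rw [← h]; exact Subgroup.mem_zpowers g'
      · rw [h]; exact Subgroup.mem_zpowers _
    unfold fx
    rw [Nat.card_congr (Equiv.subtypeEquivRight e)]
  rw [← h3]
  unfold fx
  congr 1
  refine Nat.card_congr
    { toFun := fun x => ⟨y⁻¹ • x.1, by
        rw [smul_smul, mul_assoc, mul_inv_cancel, mul_one, ← smul_smul, x.2]⟩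
      invFun := fun x => ⟨y • x.1, by
        have h5 := congrArg (fun z => y • z) x.2
        simp only [smul_smul] at h5
        rw [smul_smul]
        rw [← h5]
        congr 1
        group⟩
      left_inv := fun x => by simp
      right_inv := fun x => by simp }

theorem pm_RC {q : G → ℤ} (hq : q ∈ Pm G) : RC q := by
  induction hq using Subring.closure_induction with
  | mem a ha =>
    obtain ⟨X, hX1, hX2, rfl⟩ := ha
    exact fx_RC X
  | zero => intro g g' y _; rfl
  | one => intro g g' y _; rfl
  | add a a' _ _ h1 h2 =>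
    intro g g' y h
    rw [Pi.add_apply, Pi.add_apply, h1 g g' y h, h2 g g' y h]
  | neg a _ h1 =>
    intro g g' y h
    rw [Pi.neg_apply, Pi.neg_apply, h1 g g' y h]
  | mul a a' _ _ h1 h2 =>
    intro g g' y h
    rw [Pi.mul_apply, Pi.mul_apply, h1 g g' y h, h2 g g' y h]

end Pool.Agent.TH452.TC
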