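import Pool.Agent.TH452.TC.Grp

/-!
Permutation characters of a finite group modulo those on which the involution `c` has no fixed point,
second part.
-/

set_option autoImplicit false

namespace Pool.Agent.TH452.TC

open Finset

variable {G : Type} [Group G]

/-- conjugates of `c` in `H` are central in `H` -/
def Good (c : G) (H : Subgroup G) : Prop :=
  ∀ x, x⁻¹ * c * x ∈ H → ∀ h ∈ H, h * (x⁻¹ * c * x) = (x⁻¹ * c * x) * h

/-- the data -/
structure Dat (c : G) (N : Subgroup G) (f : G → ℤ) : Prop where
  nor : N.Normal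
  cN : c ∉ N
  cent : ∀ x, x * c = c * x → x ∈ N ∨ x * c ∈ N
  sq : c * c = 1
  pm : f ∈ Pm G
  fN : ∀ g, ∀ n ∈ N, f (g * n) = f g
  fc : f c = 0
  even : ∃ k, f 1 = 2 * k

theorem rc_conj {φ : G → ℤ} (h : RC φ) (g y : G) : φ (y⁻¹ * g * y) = φ g := (h g _ y rfl).symm

theorem fixed_iff (H : Subgroup G) (g y : G) : g • (y : G ⧸ H) = (y : G ⧸ H) ↔ y⁻¹ * g * y ∈ H := by
  rw [MulAction.Quotient.smul_mk, QuotientGroup.eq, smul_eq_mul]
  have e : (g * y)⁻¹ * y = (y⁻¹ * g * y)⁻¹ := by group
  rw [e, H.inv_mem_iff]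

theorem pf_zero {H : Subgroup G} {g : G} (h : ∀ y, y⁻¹ * g * y ∉ H) : pf H g = 0 := by
  unfold pf
  have : IsEmpty {x : G ⧸ H // g • x = x} := by
    constructor
    rintro ⟨x, hx⟩
    obtain ⟨y, rfl⟩ := QuotientGroup.mk_surjective x
    exact h y ((fixed_iff H g y).1 hx)
  rw [Nat.card_of_isEmpty, Nat.cast_zero]

theorem key [Finite G] {c : G} {N : Subgroup G} {f : G → ℤ} (D : Dat c N f) (H : Subgroup G)
    (hH : Good c H) : pf H * f ∈ Tc c := by
  classical
  have hN := D.nor
  have hrc := pm_RC D.pm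
  by_cases hx : ∃ x, x⁻¹ * c * x ∈ H
  swap
  · push Not at hx
    rw [mul_comm]
    exact pm_mul_mem c D.pm (AddSubgroup.subset_closure ⟨H, hx, rfl⟩)
  obtain ⟨x, hx⟩ := hx
  obtain ⟨c', hc'⟩ : ∃ c', c' = x⁻¹ * c * x := ⟨_, rfl⟩
  have hcinv : c⁻¹ = c := inv_eq_of_mul_eq_one_left D.sq
  have hc'sq : c' * c' = 1 := by
    rw [hc']
    have : x⁻¹ * c * x * (x⁻¹ * c * x) = x⁻¹ * (c * c) * x := by group
    rw [this, D.sq]
    group
  have hc'inv : c'⁻¹ = c' := inv_eq_of_mul_eq_one_left hc'sq
  have hc'N : c' ∉ N := by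
    intro h
    apply D.cN
    have h2 := hN.conj_mem c' h x
    rw [hc'] at h2
    have e : x * (x⁻¹ * c * x) * x⁻¹ = c := by group
    rwa [e] at h2
  have hc'H : c' ∈ H := by rw [hc']; exact hx
  have hcomm : ∀ h ∈ H, h * c' = c' * h := by
    intro h hh
    rw [hc']
    exact hH x hx h hh
  have hcase : ∀ h ∈ H, (h ∈ N ∧ f h = f 1) ∨ (h ∉ N ∧ h * c' ∈ N ∧ f h = 0) := by
    intro h hh
    have h1 : (x * h * x⁻¹) * c = c * (x * h * x⁻¹) := by
      have h2 := hcomm h hh
      rw [hc'] at h2
      have e1 : (x * h * x⁻¹) * c = x * (h * (x⁻¹ * c * x)) * x⁻¹ := by group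
      have e2 : c * (x * h * x⁻¹) = x * (x⁻¹ * c * x * h) * x⁻¹ := by group
      rw [e1, e2, h2]
    have hmem : ∀ u, x * u * x⁻¹ ∈ N → u ∈ N := by
      intro u hu
      have h2 := hN.conj_mem _ hu x⁻¹
      have e : x⁻¹ * (x * u * x⁻¹) * x⁻¹⁻¹ = u := by group
      rwa [e] at h2
    rcases D.cent _ h1 with h2 | h2
    · left
      have h3 := hmem h h2
      refine ⟨h3, ?_⟩
      have := D.fN 1 h h3
      rwa [one_mul] at this
    · right
      have h3 : h * c' ∈ N := by
        apply hmem
        rw [hc']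
        have e : x * (h * (x⁻¹ * c * x)) * x⁻¹ = x * h * x⁻¹ * c := by group
        rwa [e]
      refine ⟨fun h4 => hc'N ?_, h3, ?_⟩
      · have := N.mul_mem (N.inv_mem h4) h3
        rwa [inv_mul_cancel_left] at this
      · have h5 : c' * h ∈ N := by rw [← hcomm h hh]; exact h3
        have h6 := D.fN c' _ h5
        rw [← mul_assoc, hc'sq, one_mul] at h6
        rw [h6, hc', rc_conj hrc, D.fc]
  obtain ⟨k, hk⟩ := D.even
  have hmain : pf H * f = k • pf (H ⊓ N) := by
    funext g
    rw [Pi.mul_apply, Pi.smul_apply, smul_eq_mul]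
    by_cases hg : g ∈ N
    · have hf1 : f g = f 1 := by
        have := D.fN 1 g hg
        rwa [one_mul] at this
      have hfix : ∀ y, y⁻¹ * g * y ∈ H → y⁻¹ * g * y ∈ H ⊓ N := by
        intro y hy
        refine ⟨hy, ?_⟩
        have := hN.conj_mem g hg y⁻¹
        rwa [inv_inv] at this
      have hout : ∀ z : {z : G ⧸ H // g • z = z}, (z.1.out)⁻¹ * g * z.1.out ∈ H ⊓ N := by
        intro z
        apply hfix
        rw [← fixed_iff, QuotientGroup.out_eq', z.2]
      have e : ({z : G ⧸ H // g • z = z} × Bool) ≃ {z : G ⧸ (H ⊓ N) // g • z = z} := by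
        refine Equiv.ofBijective (fun w => ⟨((w.1.1.out * (if w.2 then c' else 1) : G) :
          G ⧸ (H ⊓ N)), ?_⟩) ⟨?_, ?_⟩
        · rw [fixed_iff]
          have h1 := hout w.1
          rcases w with ⟨w, b⟩
          cases b
          · simpa using h1
          · simp only [if_true]
            have e : (w.1.out * c')⁻¹ * g * (w.1.out * c') =
              c'⁻¹ * ((w.1.out)⁻¹ * g * w.1.out) * c' := by group
            rw [e]
            refine ⟨H.mul_mem (H.mul_mem (H.inv_mem hc'H) h1.1) hc'H, ?_⟩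
            have := hN.conj_mem _ h1.2 c'⁻¹
            rwa [inv_inv] at this
        · rintro ⟨⟨w, hw⟩, b⟩ ⟨⟨w', hw'⟩, b'⟩ h
          have h1 := congrArg Subtype.val h
          simp only at h1
          rw [QuotientGroup.eq] at h1
          have hww : w = w' := by
            rw [← QuotientGroup.out_eq' w, ← QuotientGroup.out_eq' w', QuotientGroup.eq]
            have h2 : ((if b then c' else 1) : G) ∈ H := by split_ifs; exact hc'H; exact H.one_mem
            have h3 : ((if b' then c' else 1) : G) ∈ H := by split_ifs; exact hc'H; exact H.one_mem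
            have h4 := H.mul_mem (H.mul_mem h2 h1.1) (H.inv_mem h3)
            convert h4 using 1
            group
          subst hww
          have hbb : b = b' := by
            by_contra hne
            apply hc'N
            have h2 := h1.2
            cases b <;> cases b'
            · exact absurd rfl hne
            · simpa using h2
            · simp only [if_true, Bool.false_eq_true, if_false, mul_one] at h2
              have e : (w.out * c')⁻¹ * w.out = c'⁻¹ := by group
              rw [e, hc'inv] at h2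
              exact h2
            · exact absurd rfl hne
          rw [hbb]
        · rintro ⟨z, hz⟩
          obtain ⟨w, rfl⟩ := QuotientGroup.mk_surjective z
          have h1 := (fixed_iff (H ⊓ N) g w).1 hz
          have h2 : g • (w : G ⧸ H) = (w : G ⧸ H) := (fixed_iff H g w).2 h1.1
          obtain ⟨h, hh⟩ : ∃ h, h = ((w : G ⧸ H).out)⁻¹ * w := ⟨_, rfl⟩
          have hhH : h ∈ H := by
            rw [hh, ← QuotientGroup.eq, QuotientGroup.out_eq']
          rcases hcase h hhH with ⟨h3, -⟩ | ⟨-, h3, -⟩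
          · refine ⟨⟨⟨(w : G ⧸ H), h2⟩, false⟩, Subtype.ext ?_⟩
            simp only [Bool.false_eq_true, if_false, mul_one]
            rw [QuotientGroup.eq, ← hh]
            exact ⟨hhH, h3⟩
          · refine ⟨⟨⟨(w : G ⧸ H), h2⟩, true⟩, Subtype.ext ?_⟩
            simp only [if_true]
            rw [QuotientGroup.eq]
            have e : ((w : G ⧸ H).out * c')⁻¹ * w = c'⁻¹ * h := by rw [hh]; group
            rw [e, hc'inv, ← hcomm h hhH]
            exact ⟨H.mul_mem hhH hc'H, h3⟩
      have hcard : pf (H ⊓ N) g = 2 * pf H g := by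
        unfold pf
        rw [← Nat.card_congr e, Nat.card_prod, Nat.card_eq_fintype_card (α := Bool),
          Fintype.card_bool]
        push_cast
        ring
      rw [hcard, hf1, hk]
      ring
    · have h0 : pf (H ⊓ N) g = 0 := by
        apply pf_zero
        intro y hy
        apply hg
        have := hN.conj_mem _ hy.2 y
        have e : y * (y⁻¹ * g * y) * y⁻¹ = g := by group
        rwa [e] at this
      rw [h0, mul_zero]
      by_cases hy : ∃ y, y⁻¹ * g * y ∈ H
      · obtain ⟨y, hy⟩ := hy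
        rcases hcase _ hy with ⟨h3, -⟩ | ⟨-, -, h3⟩
        · exfalso
          apply hg
          have := hN.conj_mem _ h3 y
          have e : y * (y⁻¹ * g * y) * y⁻¹ = g := by group
          rwa [e] at this
        · rw [rc_conj hrc] at h3
          rw [h3, mul_zero]
      · push Not at hy
        rw [pf_zero hy, zero_mul]
  rw [hmain]
  refine (Tc c).zsmul_mem ?_ k
  refine AddSubgroup.subset_closure ⟨H ⊓ N, fun y hy => ?_, rfl⟩
  apply D.cN
  have := hN.conj_mem _ hy.2 y
  have e : y * (y⁻¹ * c * y) * y⁻¹ = c := by group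
  rwa [e] at this

end Pool.Agent.TH452.TC
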