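import Pool.Agent.TH452.TC.Grp2

/-!
Permutation characters of a finite group modulo those on which the involution `c` has no fixed point,
third part: Artin induction.
-/

set_option autoImplicit false

namespace Pool.Agent.TH452.TC

open Finset

variable {G : Type} [Group G]

/-- number of `y` such that `y⁻¹ g y` generates `C` -/
noncomputable def Ac (C : Subgroup G) (g : G) : ℤ :=
  (Nat.card {y : G // Subgroup.zpowers (y⁻¹ * g * y) = C} : ℤ)

theorem good_cyclic (c : G) (a : G) : Good c (Subgroup.zpowers a) := by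
  intro x hx h hh
  obtain ⟨i, hi⟩ := Subgroup.mem_zpowers_iff.1 hx
  obtain ⟨j, hj⟩ := Subgroup.mem_zpowers_iff.1 hh
  rw [← hi, ← hj, ← zpow_add, ← zpow_add, add_comm]

theorem ac_sum [Finite G] [Fintype (Subgroup G)] (g : G) :
    ∑ C : Subgroup G, Ac C g = (Nat.card G : ℤ) := by
  classical
  unfold Ac
  rw [← Nat.card_congr (Equiv.sigmaFiberEquiv (fun y : G => Subgroup.zpowers (y⁻¹ * g * y))),
    Nat.card_sigma]
  push_cast
  rfl

theorem pf_card [Finite G] (B : Subgroup G) (g : G) :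
    (Nat.card B : ℤ) * pf B g = (Nat.card {y : G // y⁻¹ * g * y ∈ B} : ℤ) := by
  unfold pf
  have e1 : {y : G // y⁻¹ * g * y ∈ B} ≃ {z : (G ⧸ B) × B // g • z.1 = z.1} := by
    refine (Subgroup.groupEquivQuotientProdSubgroup (s := B)).subtypeEquiv fun y => ?_
    have h1 : ((Subgroup.groupEquivQuotientProdSubgroup (s := B)) y).1 = (y : G ⧸ B) := rfl
    rw [h1, fixed_iff]
  rw [Nat.card_congr e1, Nat.card_congr
    (Equiv.prodSubtypeFstEquivSubtypeProd (p := fun x : G ⧸ B => g • x = x)), Nat.card_prod]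
  push_cast
  ring

theorem pf_sum [Finite G] [Fintype (Subgroup G)] (B : Subgroup G) (g : G) [DecidablePred (· ≤ B)] :
    (Nat.card B : ℤ) * pf B g = ∑ C ∈ Finset.univ.filter (· ≤ B), Ac C g := by
  classical
  rw [pf_card]
  unfold Ac
  have e1 : {y : G // y⁻¹ * g * y ∈ B} ≃ Σ C : {C : Subgroup G // C ≤ B},
      {y : G // Subgroup.zpowers (y⁻¹ * g * y) = C.1} :=
    { toFun := fun y => ⟨⟨Subgroup.zpowers (y.1⁻¹ * g * y.1),
        (Subgroup.zpowers_le).2 y.2⟩, ⟨y.1, rfl⟩⟩
      invFun := fun z => ⟨z.2.1, by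
        have h := z.1.2
        rw [← z.2.2, Subgroup.zpowers_le] at h
        exact h⟩
      left_inv := fun y => rfl
      right_inv := by
        rintro ⟨⟨C, hC⟩, ⟨y, hy⟩⟩
        cases hy
        rfl }
  rw [Nat.card_congr e1, Nat.card_sigma]
  push_cast
  rw [Finset.sum_subtype (Finset.univ.filter (· ≤ B)) (p := fun C => C ≤ B) (by simp)]

theorem ac_zero {C : Subgroup G} (hC : ¬ ∃ a, C = Subgroup.zpowers a) (g : G) : Ac C g = 0 := by
  unfold Ac
  have : IsEmpty {y : G // Subgroup.zpowers (y⁻¹ * g * y) = C} :=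
    ⟨fun y => hC ⟨_, y.2.symm⟩⟩
  rw [Nat.card_of_isEmpty, Nat.cast_zero]

theorem ac_mem [Finite G] {c : G} {N : Subgroup G} {f : G → ℤ} (D : Dat c N f) :
    ∀ (n : ℕ) (C : Subgroup G), Nat.card C = n → Ac C * f ∈ Tc c := by
  classical
  have : Fintype (Subgroup G) := Fintype.ofFinite _
  intro n
  induction n using Nat.strong_induction_on with
  | _ n ih =>
    intro C hn
    by_cases hC : ∃ a, C = Subgroup.zpowers a
    swap
    · have h0 : Ac C = 0 := funext fun g => ac_zero hC g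
      rw [h0, zero_mul]
      exact (Tc c).zero_mem
    obtain ⟨a, ha⟩ := hC
    have hgood : Good c C := by rw [ha]; exact good_cyclic c a
    have h1 : Ac C = (Nat.card C : ℤ) • pf C -
        ∑ B ∈ (Finset.univ.filter (· ≤ C)).erase C, Ac B := by
      funext g
      rw [Pi.sub_apply, Pi.smul_apply, smul_eq_mul, pf_sum, Finset.sum_apply]
      rw [← Finset.add_sum_erase _ _ (show C ∈ Finset.univ.filter (· ≤ C) by simp)]
      ring
    rw [h1, sub_mul, smul_mul_assoc, Finset.sum_mul]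
    refine (Tc c).sub_mem ((Tc c).zsmul_mem (key D C hgood) _) ((Tc c).sum_mem fun B hB => ?_)
    rw [Finset.mem_erase, Finset.mem_filter] at hB
    refine ih (Nat.card B) ?_ B rfl
    rw [← hn]
    have hlt : B < C := lt_of_le_of_ne hB.2.2 hB.1
    exact Set.ncard_lt_ncard hlt (Set.toFinite _)

theorem artin [Finite G] {c : G} {N : Subgroup G} {f : G → ℤ} (D : Dat c N f) {φ : G → ℤ}
    (hφ : RC φ) : ((Nat.card G : ℤ) • φ) * f ∈ Tc c := by
  classical
  have : Fintype (Subgroup G) := Fintype.ofFinite _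
  have h1 : ((Nat.card G : ℤ) • φ) * f = ∑ C : Subgroup G, φ * (Ac C * f) := by
    funext g
    rw [Pi.mul_apply, Pi.smul_apply, smul_eq_mul, ← ac_sum g, Finset.sum_mul, Finset.sum_mul,
      Finset.sum_apply]
    refine Finset.sum_congr rfl fun C _ => ?_
    rw [Pi.mul_apply, Pi.mul_apply]
    ring
  rw [h1]
  refine (Tc c).sum_mem fun C _ => ?_
  by_cases hC : ∃ a, C = Subgroup.zpowers a
  · obtain ⟨a, ha⟩ := hC
    have h2 : φ * (Ac C * f) = φ a • (Ac C * f) := by
      funext g
      rw [Pi.mul_apply, Pi.smul_apply, smul_eq_mul, Pi.mul_apply]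
      by_cases hy : ∃ y : G, Subgroup.zpowers (y⁻¹ * g * y) = C
      · obtain ⟨y, hy⟩ := hy
        rw [hφ g a y (by rw [hy, ha])]
      · have h0 : Ac C g = 0 := by
          unfold Ac
          have : IsEmpty {y : G // Subgroup.zpowers (y⁻¹ * g * y) = C} :=
            ⟨fun y => hy ⟨y.1, y.2⟩⟩
          rw [Nat.card_of_isEmpty, Nat.cast_zero]
        rw [h0]
        ring
    rw [h2]
    exact (Tc c).zsmul_mem (ac_mem D _ C rfl) _
  · have h0 : Ac C = 0 := funext fun g => ac_zero hC g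
    rw [h0, zero_mul, mul_zero]
    exact (Tc c).zero_mem

end Pool.Agent.TH452.TC
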