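import Pool.Agent.TH452.TC.Grp3

/-!
Permutation characters of a finite group modulo those on which the involution `c` has no fixed point,
fourth part: hyperelementary subgroups.
-/

set_option autoImplicit false

namespace Pool.Agent.TH452.TC

open Finset

variable {G : Type} [Group G]

/-- In a cyclic group an involution is unique. -/
theorem inv_unique [Finite G] {t u v : G} (hu : u ∈ Subgroup.zpowers t)
    (hv : v ∈ Subgroup.zpowers t) (hu1 : u ≠ 1) (hv1 : v ≠ 1) (hu2 : u * u = 1) (hv2 : v * v = 1) :
    u = v := by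
  classical
  have : Fintype G := Fintype.ofFinite G
  have hcyc : IsCyclic (Subgroup.zpowers t) := inferInstance
  have h1 := IsCyclic.card_pow_eq_one_le (α := Subgroup.zpowers t) (n := 2) (by norm_num)
  by_contra hne
  let U : Subgroup.zpowers t := ⟨u, hu⟩
  let V : Subgroup.zpowers t := ⟨v, hv⟩
  have h2 : ({1, U, V} : Finset (Subgroup.zpowers t)) ⊆
      Finset.univ.filter (fun a : Subgroup.zpowers t => a ^ 2 = 1) := by
    intro a ha
    rw [Finset.mem_filter]
    refine ⟨Finset.mem_univ _, ?_⟩
    rw [Finset.mem_insert, Finset.mem_insert, Finset.mem_singleton] at ha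
    rcases ha with rfl | rfl | rfl
    · exact one_pow 2
    · exact Subtype.ext (by rw [sq]; exact hu2)
    · exact Subtype.ext (by rw [sq]; exact hv2)
  have h3 : ({1, U, V} : Finset (Subgroup.zpowers t)).card = 3 := by
    rw [Finset.card_eq_three]
    refine ⟨1, U, V, ?_, ?_, ?_, rfl⟩
    · intro h; exact hu1 (congrArg Subtype.val h).symm
    · intro h; exact hv1 (congrArg Subtype.val h).symm
    · intro h; exact hne (congrArg Subtype.val h)
  have h4 := Finset.card_le_card h2
  omega

theorem hyper [Finite G] {c : G} (hc : c * c = 1) (hc1 : c ≠ 1) (p : ℕ) [hp : Fact p.Prime]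
    (hp2 : p ≠ 2) (s : G) : ∃ H : Subgroup G, Good c H ∧ ¬ (p : ℤ) ∣ pf H s := by
  classical
  obtain ⟨k, m', hm', hn⟩ := Nat.exists_eq_pow_mul_and_not_dvd (orderOf_pos s).ne' p
    hp.1.ne_one
  obtain ⟨t, ht⟩ : ∃ t, t = s ^ (p ^ k) := ⟨_, rfl⟩
  have htm : t ^ m' = 1 := by
    rw [ht, ← pow_mul, ← hn, pow_orderOf_eq_one]
  obtain ⟨C, hC⟩ : ∃ C, C = Subgroup.zpowers t := ⟨_, rfl⟩
  let NC := Subgroup.normalizer (C : Set G)
  let C' : Subgroup NC := C.subgroupOf NC
  have hCn : C'.Normal := Subgroup.normal_in_normalizer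
  have hCNC : C ≤ NC := Subgroup.le_normalizer
  let P : Sylow p (NC ⧸ C') := default
  let H' : Subgroup NC := (P : Subgroup (NC ⧸ C')).comap (QuotientGroup.mk' C')
  let H : Subgroup G := H'.map NC.subtype
  have hHNC : H ≤ NC := Subgroup.map_subtype_le H'
  have hCH' : C' ≤ H' := by
    intro x hx
    rw [Subgroup.mem_comap, QuotientGroup.mk'_apply, (QuotientGroup.eq_one_iff x).2 hx]
    exact (P : Subgroup (NC ⧸ C')).one_mem
  -- elements of order prime to `p` of `H` are in `C`
  have hprime : ∀ (x : G) (hx : x ∈ H) (r : ℕ), x ^ r = 1 → ¬ p ∣ r → x ∈ C := by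
    intro x hx r hr hpr
    obtain ⟨y, hy, rfl⟩ := hx
    have hyP : (QuotientGroup.mk' C' y) ∈ (P : Subgroup (NC ⧸ C')) := hy
    obtain ⟨j, hj⟩ := P.2 ⟨_, hyP⟩
    have hj' : (QuotientGroup.mk' C' y) ^ (p ^ j) = 1 := congrArg Subtype.val hj
    have hr' : (QuotientGroup.mk' C' y) ^ r = 1 := by
      rw [← map_pow]
      have : y ^ r = 1 := Subtype.ext hr
      rw [this, map_one]
    have hcop : Nat.Coprime (p ^ j) r := Nat.Coprime.pow_left j ((Nat.Prime.coprime_iff_not_dvd
      hp.1).2 hpr)
    have h1 : orderOf (QuotientGroup.mk' C' y) = 1 :=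
      Nat.eq_one_of_dvd_coprimes hcop (orderOf_dvd_of_pow_eq_one hj') (orderOf_dvd_of_pow_eq_one hr')
    rw [orderOf_eq_one_iff] at h1
    have h2 : y ∈ C' := (QuotientGroup.eq_one_iff y).1 h1
    exact h2
  refine ⟨H, ?_, ?_⟩
  · -- good
    intro x hx h hh
    obtain ⟨c', hc'⟩ : ∃ c', c' = x⁻¹ * c * x := ⟨_, rfl⟩
    rw [← hc'] at hx ⊢
    have hc'sq : c' * c' = 1 := by
      rw [hc']
      have : x⁻¹ * c * x * (x⁻¹ * c * x) = x⁻¹ * (c * c) * x := by group
      rw [this, hc]
      group
    have hc'1 : c' ≠ 1 := by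
      intro h0
      apply hc1
      rw [hc'] at h0
      have : c = x * (x⁻¹ * c * x) * x⁻¹ := by group
      rw [this, h0]
      group
    have hpd : ¬ p ∣ 2 := by
      intro h2
      exact hp2 ((Nat.prime_dvd_prime_iff_eq hp.1 Nat.prime_two).1 h2)
    have h1 : c' ∈ C := hprime c' hx 2 (by rw [sq]; exact hc'sq) hpd
    have h2 : h * c' * h⁻¹ ∈ C := (Subgroup.mem_normalizer_iff.1 (hHNC hh) c').1 h1
    have h3 : h * c' * h⁻¹ = c' := by
      rw [hC] at h1 h2
      refine inv_unique h2 h1 ?_ hc'1 ?_ hc'sq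
      · intro h0
        apply hc'1
        have : c' = h⁻¹ * (h * c' * h⁻¹) * h := by group
        rw [this, h0]
        group
      · have : h * c' * h⁻¹ * (h * c' * h⁻¹) = h * (c' * c') * h⁻¹ := by group
        rw [this, hc'sq]
        group
    calc h * c' = h * c' * h⁻¹ * h := by group
      _ = c' * h := by rw [h3]
  · -- number of fixed points
    have hsN : s ∈ NC := by
      rw [Subgroup.mem_normalizer_iff]
      intro x
      have hst : s * t = t * s := by rw [ht, ← pow_succ, ← pow_succ']
      have hconj : ∀ x ∈ C, s * x * s⁻¹ = x := by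
        intro x hx
        rw [hC] at hx
        obtain ⟨i, rfl⟩ := Subgroup.mem_zpowers_iff.1 hx
        have : Commute s (t ^ i) := (show Commute s t from hst).zpow_right i
        rw [this.eq, mul_inv_cancel_right]
      constructor
      · intro hx
        rw [hconj x hx]
        exact hx
      · intro hx
        have h1 := hconj _ hx
        have h2 : s * (s * x * s⁻¹) * s⁻¹ = s * x * s⁻¹ := h1
        have h3 : s * x * s⁻¹ = x := by
          have h4 : s⁻¹ * (s * (s * x * s⁻¹) * s⁻¹) * s = s⁻¹ * (s * x * s⁻¹) * s := by rw [h2]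
          have e1 : s⁻¹ * (s * (s * x * s⁻¹) * s⁻¹) * s = s * x * s⁻¹ := by group
          have e2 : s⁻¹ * (s * x * s⁻¹) * s = x := by group
          rw [e1, e2] at h4
          exact h4
        rw [h3] at hx
        exact hx
    let s' : NC := ⟨s, hsN⟩
    -- fixed points on `G / H` and on `NC / H'`
    have hfixN : ∀ y : G, y⁻¹ * s * y ∈ H → y ∈ NC := by
      intro y hy
      have h1 : y⁻¹ * t * y ∈ C := by
        have e : y⁻¹ * t * y = (y⁻¹ * s * y) ^ (p ^ k) := by
          rw [ht]
          have := conj_pow (a := y⁻¹) (b := s) (i := p ^ k)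
          rw [inv_inv] at this
          exact this.symm
        refine hprime _ ?_ m' ?_ hm'
        · rw [e]
          exact H.pow_mem hy _
        · have := conj_pow (a := y⁻¹) (b := t) (i := m')
          rw [inv_inv] at this
          rw [this, htm]
          group
      have h2 : ∀ x ∈ C, y⁻¹ * x * y ∈ C := by
        intro x hx
        rw [hC] at hx
        obtain ⟨i, rfl⟩ := Subgroup.mem_zpowers_iff.1 hx
        have h3 := C.zpow_mem h1 i
        have := conj_zpow (a := y⁻¹) (b := t) (i := i)
        rw [inv_inv] at this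
        rw [this] at h3
        exact h3
      have h3 : y⁻¹ ∈ NC := by
        refine Subgroup.mem_normalizer_fintype (S := (C : Set G)) fun x hx => ?_
        have := h2 x hx
        rwa [inv_inv]
      have := NC.inv_mem h3
      rwa [inv_inv] at this
    have hmemH : ∀ y : NC, (y : G) ∈ H ↔ y ∈ H' := by
      intro y
      constructor
      · rintro ⟨z, hz, hzy⟩
        have : z = y := Subtype.ext hzy
        rwa [← this]
      · intro hy
        exact ⟨y, hy, rfl⟩
    have e1 : {x : NC ⧸ H' // s' • x = x} ≃ {x : G ⧸ H // s • x = x} := by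
      refine Equiv.ofBijective (fun x => ⟨(((x.1.out : NC) : G) : G ⧸ H), ?_⟩) ⟨?_, ?_⟩
      · rw [fixed_iff]
        have h1 : (x.1.out)⁻¹ * s' * x.1.out ∈ H' := by
          rw [← fixed_iff, QuotientGroup.out_eq', x.2]
        exact (hmemH _).2 h1
      · rintro ⟨x, hx⟩ ⟨y, hy⟩ h
        have h1 := congrArg Subtype.val h
        simp only at h1
        rw [QuotientGroup.eq] at h1
        apply Subtype.ext
        change x = y
        rw [← QuotientGroup.out_eq' x, ← QuotientGroup.out_eq' y, QuotientGroup.eq]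
        exact (hmemH _).1 h1
      · rintro ⟨x, hx⟩
        obtain ⟨y, rfl⟩ := QuotientGroup.mk_surjective x
        have h1 := (fixed_iff H s y).1 hx
        have hyN := hfixN y h1
        have h2 : s' • ((⟨y, hyN⟩ : NC) : NC ⧸ H') = ((⟨y, hyN⟩ : NC) : NC ⧸ H') := by
          rw [fixed_iff]
          exact (hmemH _).1 h1
        refine ⟨⟨((⟨y, hyN⟩ : NC) : NC ⧸ H'), h2⟩, Subtype.ext ?_⟩
        simp only
        rw [QuotientGroup.eq]
        have h3 : (((⟨y, hyN⟩ : NC) : NC ⧸ H').out)⁻¹ * (⟨y, hyN⟩ : NC) ∈ H' := by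
          rw [← QuotientGroup.eq, QuotientGroup.out_eq']
        exact (hmemH _).2 h3
    have hpf : pf H s = (Nat.card {x : NC ⧸ H' // s' • x = x} : ℤ) := by
      unfold pf
      rw [Nat.card_congr e1]
    rw [hpf]
    have : Fintype (NC ⧸ H') := Fintype.ofFinite _
    -- the map `s'` on `NC / H'`
    let σ : Function.End (NC ⧸ H') := fun x => s' • x
    have hσ : ∀ n : ℕ, σ ^ n = fun x => s' ^ n • x := by
      intro n
      induction n with
      | zero =>
        rw [pow_zero]
        funext x
        change x = s' ^ 0 • x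
        rw [pow_zero, one_smul]
      | succ n ih =>
        rw [pow_succ, ih]
        funext x
        change s' ^ n • s' • x = _
        rw [smul_smul, ← pow_succ]
    have hσ1 : σ ^ (p ^ k) = 1 := by
      rw [hσ]
      funext x
      obtain ⟨y, rfl⟩ := QuotientGroup.mk_surjective x
      change s' ^ (p ^ k) • (y : NC ⧸ H') = (y : NC ⧸ H')
      rw [fixed_iff]
      apply hCH'
      have h1 : s' ^ (p ^ k) ∈ C' := by
        change ((s' ^ (p ^ k) : NC) : G) ∈ C
        have : ((s' ^ (p ^ k) : NC) : G) = t := by rw [ht]; rfl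
        rw [this, hC]
        exact Subgroup.mem_zpowers t
      have := hCn.conj_mem _ h1 y⁻¹
      rwa [inv_inv] at this
    have h5 := Equiv.Perm.card_fixedPoints_modEq (f := σ) (p := p) (n := k) hσ1
    have h6 : Fintype.card (Function.fixedPoints σ) = Nat.card {x : NC ⧸ H' // s' • x = x} := by
      rw [← Nat.card_eq_fintype_card]
      rfl
    rw [h6] at h5
    have h7 : ¬ p ∣ Fintype.card (NC ⧸ H') := by
      rw [← Nat.card_eq_fintype_card, ← Subgroup.index_eq_card]
      have h8 : H'.index = (P : Subgroup (NC ⧸ C')).index :=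
        Subgroup.index_comap_of_surjective _ (QuotientGroup.mk'_surjective C')
      rw [h8]
      exact P.not_dvd_index
    intro h9
    apply h7
    have h10 : p ∣ Nat.card {x : NC ⧸ H' // s' • x = x} := by exact_mod_cast h9
    exact (Nat.ModEq.dvd_iff h5 dvd_rfl).2 h10

end Pool.Agent.TH452.TC
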