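import Pool.Agent.TH452.TC.Tr5

/-!
Towers of Galois extensions of prime degree; the general case up to a power of two.
-/

set_option autoImplicit false

namespace Pool.Agent.TH452.TC

open NumberField Pool.Agent.TH965.St

/-- obtained from `ℚ` by successive Galois extensions of prime degree -/
inductive Tower : IntermediateField ℚ (AlgebraicClosure ℚ) → Prop
  | base : Tower ⊥
  | step (K L : IntermediateField ℚ (AlgebraicClosure ℚ)) (hKL : K ≤ L)
      (hnor : ∀ σ : Gal(AlgebraicClosure ℚ/ℚ), (∀ x ∈ K, σ x = x) → ∀ x ∈ L, σ x ∈ L)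
      (p : ℕ) (hp : p.Prime) (hdeg : Module.finrank ℚ L = p * Module.finrank ℚ K)
      (hK : Tower K) : Tower L

theorem tower_pos {K : IntermediateField ℚ Qb} (hK : Tower K) : 0 < Module.finrank ℚ K := by
  induction hK with
  | base =>
    have h1 : Module.finrank ℚ (⊥ : IntermediateField ℚ Qb) = 1 := IntermediateField.finrank_bot
    rw [h1]
    norm_num
  | step K L hKL hnor p hp hdeg hK ih =>
    rw [hdeg]
    exact Nat.mul_pos hp.pos ih

theorem tower_nf {K : IntermediateField ℚ Qb} (hK : Tower K) : NumberField K := by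
  rw [nf_iff]
  exact Module.finite_of_finrank_pos (tower_pos hK)

theorem tower_em {τ : Qb →+* ℂ} {c : GQ} (h : Cj τ c) {K : IntermediateField ℚ Qb} (hK : Tower K)
    (hreal : ∀ y : GQ, ∀ x ∈ K, (y⁻¹ * c * y) x = x) :
    em K - (Module.finrank ℚ K : ℤ) • (1 : GQ → ℤ) ∈ To Op c := by
  induction hK with
  | base =>
    have h1 : Module.finrank ℚ (⊥ : IntermediateField ℚ Qb) = 1 := IntermediateField.finrank_bot
    have h2 : em (⊥ : IntermediateField ℚ Qb) -
        (Module.finrank ℚ (⊥ : IntermediateField ℚ Qb) : ℤ) • (1 : GQ → ℤ) = 0 := by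
      rw [h1]
      funext g
      rw [Pi.sub_apply, em_bot]
      simp
    rw [h2]
    exact (To Op c).zero_mem
  | step K L hKL hnor p hp hdeg hK ih =>
    have hKn := tower_nf hK
    have hLn := tower_nf (Tower.step K L hKL hnor p hp hdeg hK)
    have h1 := ih fun y x hx => hreal y x (hKL hx)
    have h2 := step h hKn hLn hKL hreal (fun σ hσ => hnor σ fun x hx =>
      (IntermediateField.mem_fixingSubgroup_iff _ _).1 hσ x hx) p hp hdeg
    have e1 : em L - (Module.finrank ℚ L : ℤ) • (1 : GQ → ℤ) =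
        (em L - (p : ℤ) • em K) + (p : ℤ) • (em K - (Module.finrank ℚ K : ℤ) • (1 : GQ → ℤ)) := by
      rw [hdeg]
      funext g
      simp only [Pi.sub_apply, Pi.add_apply, Pi.smul_apply, Pi.one_apply, smul_eq_mul]
      push_cast
      ring
    rw [e1]
    exact (To Op c).add_mem h2 ((To Op c).zsmul_mem h1 _)

variable {Z : Type} [CommGroup Z]

theorem main_mu' {f : NF → Z} (hf : Mu f) {T : Subgroup Z}
    {τ : Qb →+* ℂ} {c : GQ} (h : Cj τ c)
    (hTC : ∀ F : NF, em F.1 c = 0 → f F ∈ T) (rat : NF)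
    (hrat : rat.1 = ⊥) (K : NF) (r : ℕ) (hc : em K.1 c = r) :
    ∃ k : ℕ, (f K / f rat ^ r) ^ 2 ^ k ∈ T := by
  classical
  have hKn : NumberField K.1 := K.2
  obtain ⟨k, n, hn, hrel⟩ := main_em h K.1
  refine ⟨k, ?_⟩
  have hs : ∀ g, (n - Finsupp.single K (2 ^ k : ℤ) + Finsupp.single rat (2 ^ k * (r : ℤ))).sum
      (fun F a => a * em F.1 g) = 0 := by
    intro g
    rw [Finsupp.sum_add_index' (by simp) (by intros; ring),
      Finsupp.sum_sub_index (by intros; ring), Finsupp.sum_single_index (by simp),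
      Finsupp.sum_single_index (by simp), hrel, hrat, em_bot, hc]
    ring
  have hp := hf _ hs
  rw [Finsupp.prod_add_index' (by simp) (by intros; exact zpow_add _ _ _), sub_eq_add_neg,
    Finsupp.prod_add_index' (by simp) (by intros; exact zpow_add _ _ _), ← Finsupp.single_neg,
    Finsupp.prod_single_index (by simp), Finsupp.prod_single_index (by simp)] at hp
  have hmem : n.prod (fun F a => f F ^ a) ∈ T := by
    unfold Finsupp.prod
    exact Subgroup.prod_mem _ fun F hF => Subgroup.zpow_mem _ (hTC F (hn F hF)) _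
  have : (f K / f rat ^ r) ^ 2 ^ k = n.prod (fun F a => f F ^ a) := by
    rw [div_pow, ← pow_mul, div_eq_iff_eq_mul]
    have e1 : f K ^ (-(2 ^ k : ℤ)) = (f K ^ 2 ^ k)⁻¹ := by
      rw [zpow_neg]
      congr 1
      rw [← zpow_natCast]
      push_cast
      rfl
    have e2 : f rat ^ (2 ^ k * (r : ℤ)) = f rat ^ (r * 2 ^ k) := by
      rw [← zpow_natCast]
      push_cast
      rw [mul_comm]
    rw [e1, e2] at hp
    have h3 : (n.prod fun F a => f F ^ a) * f rat ^ (r * 2 ^ k) = f K ^ 2 ^ k := by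
      calc (n.prod fun F a => f F ^ a) * f rat ^ (r * 2 ^ k)
          = ((n.prod fun F a => f F ^ a) * (f K ^ 2 ^ k)⁻¹ * f rat ^ (r * 2 ^ k)) * f K ^ 2 ^ k := by
            rw [mul_assoc, mul_assoc]
            congr 1
            rw [mul_comm (f rat ^ (r * 2 ^ k)), inv_mul_cancel_left]
        _ = _ := by rw [hp, one_mul]
    exact h3.symm
  rw [this]
  exact hmem

end Pool.Agent.TH452.TC
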