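import Pool.Agent.TH452.TC.Pr
import Pool.Agent.TH452.TC.Fo3
import Pool.Agent.TH452.TC.Tr6

/-!
Totally real fields: preparation of the induction.
-/

set_option autoImplicit false

namespace Pool.Agent.TH452.TC

open NumberField Pool.Agent.TH965.St

/-- all permutation characters between `B ⊓ N0` and `B` are constant modulo the totally complex ones -/
def Sp (c : GQ) (N0 B : Subgroup GQ) : Prop :=
  ∀ U : Subgroup GQ, U ≤ B → B ⊓ N0 ≤ U → pf U - (U.relIndex B : ℤ) • pf B ∈ To Op c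

theorem map_relIndex (B : Subgroup GQ) (S : Subgroup B) :
    (S.map B.subtype).relIndex B = S.index := by
  unfold Subgroup.relIndex
  congr 1
  exact Subgroup.comap_map_eq_self_of_injective B.subtype_injective S

theorem pf_at_one {G : Type} [Group G] (S : Subgroup G) : pf S 1 = (S.index : ℤ) := by
  unfold pf
  have e : {x : G ⧸ S // (1 : G) • x = x} ≃ (G ⧸ S) :=
    Equiv.subtypeUnivEquiv fun x => one_smul _ x
  rw [Nat.card_congr e]
  rfl

theorem fx_at_one {G : Type} [Group G] (Y : Type) [MulAction G Y] :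
    fx (G := G) Y 1 = (Nat.card Y : ℤ) := by
  unfold fx
  have e : {x : Y // (1 : G) • x = x} ≃ Y := Equiv.subtypeUnivEquiv fun x => one_smul _ x
  rw [Nat.card_congr e]

theorem J_sum (B : Subgroup GQ) [Finite (GQ ⧸ B)] {ι : Type} (s : Finset ι) (φ : ι → B → ℤ) :
    J B (∑ i ∈ s, φ i) = ∑ i ∈ s, J B (φ i) := by
  have h : J B (∑ i ∈ s, φ i) = Jh B (∑ i ∈ s, φ i) := rfl
  rw [h, map_sum]
  rfl

theorem formii {c : GQ} {N0 B : Subgroup GQ} (hB : Sp c N0 B) [Finite (GQ ⧸ B)] (Y : Type)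
    [Finite Y] [MulAction B Y] (htriv : ∀ b : B, (b : GQ) ∈ N0 → ∀ y : Y, b • y = y) :
    J B (fx Y) - (Nat.card Y : ℤ) • pf B ∈ To Op c := by
  classical
  have : Fintype (Quotient (MulAction.orbitRel B Y)) := Fintype.ofFinite _
  have hfin : ∀ x : Y, Finite (B ⧸ MulAction.stabilizer B x) := fun x =>
    Finite.of_injective _ (MulAction.injective_ofQuotientStabilizer B x)
  have h0 : fx (G := B) Y = ∑ ω : Quotient (MulAction.orbitRel B Y),
      pf (MulAction.stabilizer B ω.out) := by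
    rw [fx_orbits, finsum_eq_sum_of_fintype]
  have h1 : J B (fx Y) = ∑ ω : Quotient (MulAction.orbitRel B Y),
      pf ((MulAction.stabilizer B ω.out).map B.subtype) := by
    rw [h0, J_sum]
    exact Finset.sum_congr rfl fun ω _ => J_pf B _
  have h2 : (Nat.card Y : ℤ) = ∑ ω : Quotient (MulAction.orbitRel B Y),
      ((MulAction.stabilizer B ω.out).index : ℤ) := by
    have h3 := congrFun h0 1
    rw [fx_at_one, Finset.sum_apply] at h3
    rw [h3]
    exact Finset.sum_congr rfl fun ω _ => pf_at_one _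
  rw [h1, h2, Finset.sum_smul, ← Finset.sum_sub_distrib]
  refine (To Op c).sum_mem fun ω _ => ?_
  have h3 := hB ((MulAction.stabilizer B ω.out).map B.subtype) (Subgroup.map_subtype_le _) (by
    intro g hg
    refine ⟨⟨g, hg.1⟩, ?_, rfl⟩
    exact MulAction.mem_stabilizer_iff.2 (htriv ⟨g, hg.1⟩ hg.2 _))
  rwa [map_relIndex] at h3

theorem sets_mem {c : GQ} {N0 B : Subgroup GQ} [Finite (GQ ⧸ B)] (T : Type)
    [Finite T] [MulAction B T] (hT : ∀ t : T, Sp c N0 ((MulAction.stabilizer B t).map B.subtype))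
    (Y : Type) [Finite Y] [MulAction B Y] (htriv : ∀ b : B, (b : GQ) ∈ N0 → ∀ y : Y, b • y = y) :
    J B (fx T * fx Y) - (Nat.card Y : ℤ) • J B (fx T) ∈ To Op c := by
  classical
  have : Fintype (Quotient (MulAction.orbitRel B T)) := Fintype.ofFinite _
  have hfin : ∀ x : T, Finite (B ⧸ MulAction.stabilizer B x) := fun x =>
    Finite.of_injective _ (MulAction.injective_ofQuotientStabilizer B x)
  have h0 : fx (G := B) T = ∑ ω : Quotient (MulAction.orbitRel B T),
      pf (MulAction.stabilizer B ω.out) := by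
    rw [fx_orbits, finsum_eq_sum_of_fintype]
  have hcl : ∀ a b : B, fx (G := B) Y (b⁻¹ * a * b) = fx Y a := by
    intro a b
    exact (fx_RC Y a _ b rfl).symm
  rw [h0, J_sum, Finset.sum_mul, J_sum, Finset.smul_sum, ← Finset.sum_sub_distrib]
  refine (To Op c).sum_mem fun ω _ => ?_
  rw [J_proj B _ _ hcl, J_pf]
  obtain ⟨S, hS⟩ : ∃ S, S = MulAction.stabilizer B ω.out := ⟨_, rfl⟩
  have hSf : Finite (B ⧸ S) := by rw [hS]; exact hfin _
  have hSp : Sp c N0 (S.map B.subtype) := by rw [hS]; exact hT _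
  rw [← hS]
  have hle : S.map B.subtype ≤ B := Subgroup.map_subtype_le S
  have hidx : (S.map B.subtype).index ≠ 0 := by
    rw [← Subgroup.relIndex_mul_index hle, map_relIndex]
    have h1 : S.index ≠ 0 := Subgroup.index_ne_zero_of_finite
    have h2 : B.index ≠ 0 := Subgroup.index_ne_zero_of_finite
    exact Nat.mul_ne_zero h1 h2
  have hSf' : Finite (GQ ⧸ S.map B.subtype) := Nat.finite_of_card_ne_zero hidx
  letI act : MulAction (S.map B.subtype) Y := MulAction.compHom Y (Subgroup.inclusion hle)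
  have h3 := formii hSp Y (fun b hb y => htriv (Subgroup.inclusion hle b) hb y)
  exact h3

theorem zs_free' {τ : Qb →+* ℂ} {c : GQ} (h : Cj τ c) (B : Subgroup GQ) (P : Subgroup B)
    [Fintype (B ⧸ P)] (a : B ⧸ P → Qb) (ρ : Qb)
    (ha : ∀ (β : B) x, a (β • x) = (β : GQ) (a x)) (hρ : ∀ β : B, (β : GQ) ρ = ρ)
    (hsum : ∑ x, a x = 0) (ha0 : ∀ x, a x ≠ 0)
    (t : Zs B P a ρ ha hρ) (b : B) (hb : ∃ y : GQ, (b : GQ) = y⁻¹ * c * y)
    (hx : ∀ x : B ⧸ P, b⁻¹ • x = x) :
    b • t ≠ t := by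
  intro ht
  obtain ⟨y, hy⟩ := hb
  have h1 : ∀ x, (b : GQ) (t.1 x) = t.1 x := by
    intro x
    have h2 : (b • t.1 : Fn (B ⧸ P)) = t.1 := congrArg Subtype.val ht
    have h3 := congrFun h2 x
    rw [fn_smul, hx] at h3
    exact h3
  have h2 : ∀ x, (τ (y (t.1 x))).im = 0 := by
    intro x
    have h3 := h1 x
    rw [hy, AlgEquiv.mul_apply, AlgEquiv.mul_apply] at h3
    have h4 : c (y (t.1 x)) = y (t.1 x) := by
      have h5 := congrArg y h3
      rwa [← AlgEquiv.mul_apply y y⁻¹, mul_inv_cancel, AlgEquiv.one_apply] at h5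
    have h5 := h (y (t.1 x))
    rw [h4] at h5
    exact Complex.conj_eq_iff_im.1 h5.symm
  have h3 : ∀ x, 0 < (τ (y (a x))).re := by
    intro x
    have h4 : a x = (t.1 x) ^ 2 := (t.2.1 x).symm
    have h5 : t.1 x ≠ 0 := by
      intro h0
      apply ha0 x
      rw [h4, h0]
      ring
    rw [h4, map_pow, map_pow, sq, Complex.mul_re, h2 x]
    have h6 : (τ (y (t.1 x))).re ≠ 0 := by
      intro h7
      apply h5
      have h8 : τ (y (t.1 x)) = 0 := Complex.ext h7 (h2 x)
      rw [map_eq_zero, EmbeddingLike.map_eq_zero_iff] at h8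
      exact h8
    have := mul_self_pos.2 h6
    linarith
  have h4 : (∑ x, τ (y (a x))).re = 0 := by
    rw [← map_sum, ← map_sum, hsum, map_zero, map_zero, Complex.zero_re]
  rw [Complex.re_sum] at h4
  have h5 : 0 < ∑ x, (τ (y (a x))).re :=
    Finset.sum_pos (fun x _ => h3 x) ⟨((1 : B) : B ⧸ P), Finset.mem_univ _⟩
  linarith

theorem i_field {τ : Qb →+* ℂ} {c : GQ} (h : Cj τ c) : ∃ N1 : Subgroup GQ, Op N1 ∧
    (∀ a b, a ∉ N1 → b ∉ N1 → a * b ∈ N1) ∧ (∀ y, y⁻¹ * c * y ∉ N1) := by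
  obtain ⟨i, hi⟩ := IsAlgClosed.exists_pow_nat_eq (k := Qb) (-1) (n := 2) (by norm_num)
  have hgi : ∀ g : GQ, g i = i ∨ g i = -i := by
    intro g
    have : (g i) ^ 2 = i ^ 2 := by rw [← map_pow, hi, map_neg, map_one]
    exact sq_eq_sq_iff_eq_or_eq_neg.1 this
  have hci : c i = -i := by
    rcases hgi c with h1 | h1
    · exfalso
      have h3 := h i
      rw [h1] at h3
      have h4 : (τ i).im = 0 := Complex.conj_eq_iff_im.1 h3.symm
      have h5 : (τ i) ^ 2 = -1 := by rw [← map_pow, hi, map_neg, map_one]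
      have h6 : ((τ i) ^ 2).re = -1 := by rw [h5]; simp
      rw [sq, Complex.mul_re, h4] at h6
      nlinarith [sq_nonneg (τ i).re]
    · exact h1
  have hi0 : i ≠ -i := by
    intro h1
    have h2 : (2 : Qb) * i = 0 := by linear_combination h1
    rcases mul_eq_zero.1 h2 with h3 | h3
    · exact two_ne_zero h3
    · rw [h3] at hi
      norm_num at hi
  have hmN : ∀ g, g ∈ (IntermediateField.adjoin ℚ {i}).fixingSubgroup ↔ g i = i := fun g =>
    mem_fix_adjoin i g
  refine ⟨(IntermediateField.adjoin ℚ {i}).fixingSubgroup, ⟨_, nf_adjoin i, le_rfl⟩, ?_, ?_⟩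
  · intro a b ha hb
    rw [hmN] at ha hb ⊢
    rw [AlgEquiv.mul_apply, (hgi b).resolve_left hb, map_neg, (hgi a).resolve_left ha, neg_neg]
  · intro y hy
    rw [hmN] at hy
    rw [AlgEquiv.mul_apply, AlgEquiv.mul_apply] at hy
    have h3 : c (y i) = y i := by
      have h5 := congrArg y hy
      rwa [← AlgEquiv.mul_apply y y⁻¹, mul_inv_cancel, AlgEquiv.one_apply] at h5
    rcases hgi y with h4 | h4
    · rw [h4, hci] at h3
      exact hi0 h3.symm
    · rw [h4, map_neg, hci, neg_neg] at h3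
      exact hi0 h3

end Pool.Agent.TH452.TC
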