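import Pool.Agent.TH452.TC.In1

/-!
Totally real fields: the induction.
-/

set_option autoImplicit false

namespace Pool.Agent.TH452.TC

open NumberField Pool.Agent.TH965.St

theorem op_fin {H : Subgroup GQ} (h : Op H) : Finite (GQ ⧸ H) := by
  obtain ⟨L, hL, hLH⟩ := h
  exact finite_quot_of_open hL H hLH

theorem ev_finite (B : Type) [Group B] (X : Type) [Fintype X] [MulAction B X] : Finite (Ev B X) := by
  have h1 : Finite (Finset X) := inferInstance
  have f : ∀ t : Ev B X, Finset X := fun t => t.1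
  exact @Finite.of_injective (Ev B X) (Finset X) h1 (fun t : Ev B X => t.1)
    fun t t' h => Subtype.ext h

theorem ep_finite (B : Subgroup GQ) (P : Subgroup B) [Fintype (B ⧸ P)] (a : B ⧸ P → Qb)
    (ha : ∀ (β : B) x, a (β • x) = (β : GQ) (a x)) : Finite (Ep B P a ha) := by
  have h1 : ∀ S : Finset (B ⧸ P), Finite {δ : Qb // δ ^ 2 = ∏ x ∈ S, a x} := by
    intro S
    obtain ⟨r, hr⟩ := IsAlgClosed.exists_pow_nat_eq (k := Qb) (∏ x ∈ S, a x) (n := 2) (by norm_num)
    refine ((Set.toFinite ({r, -r} : Set Qb)).subset ?_).to_subtype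
    intro δ hδ
    have h2 : δ ^ 2 = r ^ 2 := by rw [hr]; exact hδ
    rcases sq_eq_sq_iff_eq_or_eq_neg.1 h2 with h | h
    · exact Or.inl h
    · exact Or.inr h
  have h2 : Finite (Σ S : Finset (B ⧸ P), {δ : Qb // δ ^ 2 = ∏ x ∈ S, a x}) := inferInstance
  refine Finite.of_injective (fun t : Ep B P a ha =>
    (⟨t.1.1, ⟨t.1.2, t.2.2⟩⟩ : Σ S : Finset (B ⧸ P), {δ : Qb // δ ^ 2 = ∏ x ∈ S, a x})) ?_
  intro t t' h
  apply Subtype.ext
  have h3 : t.1.1 = t'.1.1 := congrArg (fun z => z.1) h
  have h4 : t.1.2 = t'.1.2 := congrArg (fun z => z.2.1) h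
  exact Prod.ext h3 h4

theorem stab_exists (B : Type) [Group B] (X : Type) [MulAction B X] (S : Fs X) :
    ∃ W : Subgroup B, ∀ b : B, b ∈ W ↔ Finset.map (MulAction.toPerm b).toEmbedding S = S :=
  ⟨MulAction.stabilizer B S, fun _ => MulAction.mem_stabilizer_iff⟩

theorem triv_quot (B : Subgroup GQ) (N0 : Subgroup GQ) (hN : N0.Normal) (P : Subgroup B)
    (hP : N0.subgroupOf B ≤ P) (b : B) (hb : (b : GQ) ∈ N0) (x : B ⧸ P) : b • x = x := by
  obtain ⟨z, rfl⟩ := QuotientGroup.mk_surjective x
  rw [fixed_iff]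
  apply hP
  rw [Subgroup.mem_subgroupOf]
  have := hN.conj_mem _ hb (z : GQ)⁻¹
  rw [inv_inv] at this
  exact this

theorem main_sp {τ : Qb →+* ℂ} {c : GQ} (h : Cj τ c) {N0 : Subgroup GQ} (hN0n : N0.Normal)
    (hN0 : Op N0) (hreal : ∀ y : GQ, y⁻¹ * c * y ∈ N0) :
    ∀ (n : ℕ) (B : Subgroup GQ), Op B → N0.relIndex B = n → Sp c N0 B := by
  classical
  intro n
  induction n using Nat.strong_induction_on with
  | _ n ih =>
    intro B hB hn U hU hNU
    have hBf := op_fin hB
    by_cases hUB : U = B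
    · rw [hUB, Subgroup.relIndex_self]
      simp
    have hOM : Op (B ⊓ N0) := op_inf _ _ hB hN0
    have hN'n : (N0.subgroupOf B).Normal := hN0n.subgroupOf B
    obtain ⟨N', hN'⟩ : ∃ N', N' = N0.subgroupOf B := ⟨_, rfl⟩
    rw [← hN'] at hN'n
    have hN'i : N'.index = n := by rw [hN']; exact hn
    have hn0 : n ≠ 0 := by
      rw [← hn]
      have h1 : (N0 ⊓ B).index ≠ 0 := by
        have := op_fin (op_inf _ _ hN0 hB)
        exact Subgroup.index_ne_zero_of_finite
      intro h2
      apply h1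
      rw [← Subgroup.relIndex_mul_index (inf_le_right : N0 ⊓ B ≤ B), Subgroup.inf_relIndex_right, h2,
        zero_mul]
    have hQf : Finite (B ⧸ N') := Nat.finite_of_card_ne_zero (by
      change N'.index ≠ 0
      rw [hN'i]
      exact hn0)
    -- induction hypothesis
    have hlt : ∀ B1 : Subgroup GQ, B1 ≤ B → B ⊓ N0 ≤ B1 → B1 ≠ B → N0.relIndex B1 < n := by
      intro B1 h1 h2 h3
      have e1 : N0 ⊓ B1 = B ⊓ N0 := le_antisymm
        (le_inf (inf_le_right.trans h1) inf_le_left) (le_inf inf_le_right h2)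
      have e2 : N0.relIndex B1 = (B ⊓ N0).relIndex B1 := by
        rw [← e1, Subgroup.inf_relIndex_right]
      have e3 : (B ⊓ N0).relIndex B = n := by
        rw [inf_comm, Subgroup.inf_relIndex_right, hn]
      have e4 := Subgroup.relIndex_mul_relIndex (B ⊓ N0) B1 B h2 h1
      rw [e3, ← e2] at e4
      have h5 : B1.relIndex B ≠ 1 := by
        intro h6
        exact h3 (le_antisymm h1 (Subgroup.relIndex_eq_one.1 h6))
      have h6 : B1.relIndex B ≠ 0 := by
        intro h7
        rw [h7, mul_zero] at e4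
        exact hn0 e4.symm
      have h7 : N0.relIndex B1 ≠ 0 := by
        intro h8
        rw [h8, zero_mul] at e4
        exact hn0 e4.symm
      rw [← e4]
      have h8 : 1 < B1.relIndex B := by omega
      exact lt_mul_of_one_lt_right (Nat.pos_of_ne_zero h7) h8
    have ihB : ∀ B1 : Subgroup GQ, Op B1 → B1 ≤ B → B ⊓ N0 ≤ B1 → B1 ≠ B → Sp c N0 B1 :=
      fun B1 h0 h1 h2 h3 => ih _ (hlt B1 h1 h2 h3) B1 h0 rfl
    have ihB2 : ∀ B1 B2 : Subgroup GQ, B1 ≤ B → B ⊓ N0 ≤ B1 → B1 ≠ B → B2 ≤ B1 → Op B2 →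
        Sp c N0 B2 := by
      intro B1 B2 h1 h2 h3 h4 h5
      have h6 := hlt B1 h1 h2 h3
      have h7 : N0.relIndex B1 ≠ 0 := by
        have h8 : (N0 ⊓ B1).index ≠ 0 := by
          have := op_fin (op_inf _ _ hN0 (op_mono _ _ h2 hOM))
          exact Subgroup.index_ne_zero_of_finite
        intro h9
        apply h8
        rw [← Subgroup.relIndex_mul_index (inf_le_right : N0 ⊓ B1 ≤ B1),
          Subgroup.inf_relIndex_right, h9, zero_mul]
      exact ih _ (lt_of_le_of_lt (Subgroup.relIndex_le_of_le_right h4 h7) h6) B2 h5 rfl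
    obtain ⟨Ub, hUb⟩ : ∃ Ub, Ub = U.subgroupOf B := ⟨_, rfl⟩
    have hUbmap : Ub.map B.subtype = U := by
      rw [hUb, Subgroup.subgroupOf_map_subtype]
      exact inf_eq_left.2 hU
    have hN'U : N' ≤ Ub := by
      intro b hb
      rw [hUb, Subgroup.mem_subgroupOf]
      rw [hN', Subgroup.mem_subgroupOf] at hb
      exact hNU ⟨b.2, hb⟩
    have hUbi : Ub.index = U.relIndex B := by rw [hUb]; rfl
    have hUbt : Ub ≠ ⊤ := by
      intro h1
      apply hUB
      rw [← hUbmap, h1, ← MonoidHom.range_eq_map]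
      exact B.range_subtype
    obtain ⟨π, hπ⟩ : ∃ π, π = QuotientGroup.mk' N' := ⟨_, rfl⟩
    have hπs : Function.Surjective π := by rw [hπ]; exact QuotientGroup.mk'_surjective _
    have hπk : π.ker = N' := by rw [hπ]; exact QuotientGroup.ker_mk' _
    let Pb : Sylow 2 (B ⧸ N') := default
    obtain ⟨P, hP⟩ : ∃ P, P = (Pb : Subgroup (B ⧸ N')).comap π := ⟨_, rfl⟩
    have hPi : P.index = (Pb : Subgroup (B ⧸ N')).index := by
      rw [hP]
      exact Subgroup.index_comap_of_surjective _ hπs
    have hN'P : N' ≤ P := by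
      rw [← hπk, hP]
      intro b hb
      rw [Subgroup.mem_comap, (MonoidHom.mem_ker).1 hb]
      exact Subgroup.one_mem _
    have hPodd : Odd P.index := by
      rw [hPi, ← Nat.not_even_iff_odd, even_iff_two_dvd]
      exact Pb.not_dvd_index
    by_cases hm : P.index = 1
    · -- two-group
      obtain ⟨k, hk⟩ := IsPGroup.iff_card.1 Pb.2
      have hcQ : Nat.card (B ⧸ N') = 2 ^ k := by
        rw [← Subgroup.card_mul_index (Pb : Subgroup (B ⧸ N')), ← hPi, hm, mul_one]
        exact hk
      obtain ⟨Uq, hUq⟩ : ∃ Uq, Uq = Ub.map π := ⟨_, rfl⟩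
      have hUqc : Uq.comap π = Ub := by
        rw [hUq]
        exact Subgroup.comap_map_eq_self (by rw [hπk]; exact hN'U)
      have hUqt : Uq ≠ ⊤ := by
        intro h1
        apply hUbt
        rw [← hUqc, h1, Subgroup.comap_top]
      obtain ⟨j, hjk, hj⟩ := (Nat.dvd_prime_pow Nat.prime_two).1
        (by rw [← hcQ]; exact Subgroup.card_subgroup_dvd_card Uq : Nat.card Uq ∣ 2 ^ k)
      have hjk' : j ≠ k := by
        intro h1
        apply hUqt
        apply Subgroup.eq_top_of_card_eq
        rw [hj, hcQ, h1]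
      have hk1 : 1 ≤ k := by omega
      obtain ⟨K, hK, hUK⟩ := Sylow.exists_subgroup_card_pow_prime_le (G := B ⧸ N') 2
        (n := j) (m := k - 1) (by rw [hcQ]; exact pow_dvd_pow 2 (by omega)) Uq hj (by omega)
      have hKi : K.index = 2 := by
        have h1 := Subgroup.card_mul_index K
        rw [hK, hcQ] at h1
        have h2 : 2 ^ k = 2 ^ (k - 1) * 2 := by
          rw [← pow_succ]
          congr 1
          omega
        rw [h2] at h1
        exact Nat.eq_of_mul_eq_mul_left (by positivity) h1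
      obtain ⟨P1, hP1⟩ : ∃ P1, P1 = K.comap π := ⟨_, rfl⟩
      have hP1i : P1.index = 2 := by
        rw [hP1, Subgroup.index_comap_of_surjective _ hπs, hKi]
      have hUP1 : Ub ≤ P1 := by
        rw [← hUqc, hP1]
        exact Subgroup.comap_mono hUK
      obtain ⟨B1, hB1⟩ : ∃ B1, B1 = P1.map B.subtype := ⟨_, rfl⟩
      have hB1B : B1 ≤ B := by rw [hB1]; exact Subgroup.map_subtype_le _
      have hUB1 : U ≤ B1 := by rw [← hUbmap, hB1]; exact Subgroup.map_mono hUP1
      have hMB1 : B ⊓ N0 ≤ B1 := hNU.trans hUB1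
      have hB1r : B1.relIndex B = 2 := by rw [hB1, map_relIndex, hP1i]
      have hB1ne : B1 ≠ B := by
        intro h1
        rw [h1, Subgroup.relIndex_self] at hB1r
        norm_num at hB1r
      have hOB1 : Op B1 := op_mono _ _ hMB1 hOM
      have hS1 := ihB B1 hOB1 hB1B hMB1 hB1ne U hUB1
        ((inf_le_inf_right N0 hB1B).trans hNU)
      obtain ⟨N1, hON1, hN1, hcN1⟩ := i_field h
      have hS2 := two_step Op op_inf op_mono c B P1 hP1i (by rw [← hB1]; exact hOB1) hB N1 hON1 hN1
        hcN1 (by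
          rintro b ⟨y, hy⟩
          apply hUP1
          apply hN'U
          rw [hN', Subgroup.mem_subgroupOf, hy]
          exact hreal y)
      rw [← hB1] at hS2
      have hr := Subgroup.relIndex_mul_relIndex U B1 B hUB1 hB1B
      rw [hB1r] at hr
      have e1 : pf U - (U.relIndex B : ℤ) • pf B = (pf U - (U.relIndex B1 : ℤ) • pf B1) +
          (U.relIndex B1 : ℤ) • (pf B1 - (2 : ℤ) • pf B) := by
        rw [← hr, smul_sub, smul_smul]
        push_cast
        abel
      rw [e1]
      exact (To Op c).add_mem hS1 ((To Op c).zsmul_mem hS2 _)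
    · -- odd index
      have hPf : Finite (B ⧸ P) := Nat.finite_of_card_ne_zero (by
        change P.index ≠ 0
        rintro h1
        rw [h1] at hPodd
        exact absurd hPodd (by decide))
      have hPft : Fintype (B ⧸ P) := Fintype.ofFinite _
      obtain ⟨m, hmd⟩ : ∃ m, m = P.index := ⟨_, rfl⟩
      have hcard : Fintype.card (B ⧸ P) = m := by
        rw [← Nat.card_eq_fintype_card, hmd]
        rfl
      rw [← hmd] at hPodd hm
      have hcX : ∀ b : B, (b : GQ) ∈ N0 → ∀ x : B ⧸ P, b • x = x := fun b hb x =>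
        triv_quot B N0 hN0n P (by rw [← hN']; exact hN'P) b hb x
      have hcY : ∀ b : B, (b : GQ) ∈ N0 → ∀ x : B ⧸ Ub, b • x = x := fun b hb x =>
        triv_quot B N0 hN0n Ub (by rw [← hN']; exact hN'U) b hb x
      have hMP : B ⊓ N0 ≤ P.map B.subtype := by
        intro g hg
        refine ⟨⟨g, hg.1⟩, hN'P ?_, rfl⟩
        rw [hN', Subgroup.mem_subgroupOf]
        exact hg.2
      obtain ⟨L, hL, hLP⟩ := op_mono _ _ hMP hOM
      obtain ⟨F, hF, hFP, -⟩ := exists_field hL _ hLP
      obtain ⟨L', hL', hLB⟩ := hB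
      obtain ⟨M, hM, hMB, -⟩ := exists_field hL' _ hLB
      have hB : Op B := ⟨L', hL', hLB⟩
      obtain ⟨b0, hb0F, hb0M⟩ : ∃ b0 ∈ F, b0 ∉ M := by
        by_contra hno
        push Not at hno
        have h1 : M.fixingSubgroup ≤ F.fixingSubgroup := IntermediateField.fixingSubgroup_le hno
        rw [hMB, hFP] at h1
        apply hm
        rw [hmd, ← map_relIndex]
        exact Subgroup.relIndex_eq_one.2 h1
      have hb0 : ∀ q ∈ P, (q : GQ) b0 = b0 := by
        intro q hq
        have h1 : (q : GQ) ∈ F.fixingSubgroup := by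
          rw [hFP]
          exact ⟨q, hq, rfl⟩
        exact (IntermediateField.mem_fixingSubgroup_iff _ _).1 h1 b0 hb0F
      obtain ⟨β0, hβ0⟩ : ∃ β0 : B, (β0 : GQ) b0 ≠ b0 := by
        by_contra hno
        push Not at hno
        apply hb0M
        have h1 := InfiniteGalois.fixedField_fixingSubgroup M
        rw [← h1, IntermediateField.mem_fixedField_iff]
        intro g hg
        exact hno ⟨g, by rw [← hMB]; exact hg⟩
      obtain ⟨a, ρ, ha, hsum, hprod, hρ, ha0, hρ0⟩ := exists_a B P m hcard hPodd b0 hb0 β0 hβ0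
      have hZf := zs_finite B P a ρ ha hρ
      have hEvf := ev_finite B (B ⧸ P)
      have hEpf := ep_finite B P a ha
      have hYf : Finite (B ⧸ Ub) := Nat.finite_of_card_ne_zero (by
        change Ub.index ≠ 0
        intro h1
        have h2 := Subgroup.index_dvd_of_le hN'U
        rw [h1, hN'i] at h2
        exact hn0 (Nat.eq_zero_of_zero_dvd h2))
      obtain ⟨⟨t0⟩, -⟩ : Nonempty (Zs B P a ρ ha hρ) ∧ Finite (Zs B P a ρ ha hρ) := by
        rw [← Nat.card_pos_iff, zs_card B P m hcard hPodd a ρ ha hρ hprod ha0 hρ0]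
        positivity
      have hid : fx (G := B) (Zs B P a ρ ha hρ) + (-1 : ℤ) • fx (G := B) (Ep B P a ha) +
          fx (G := B) (Ev B (B ⧸ P)) = 1 := by
        funext β
        rw [Pi.add_apply, Pi.add_apply, Pi.smul_apply,
          fx_zs B P m hcard hPodd a ρ ha hρ hprod ha0 hρ0 t0 β,
          fx_ep B P a ha ha0 (fun x => t0.1 x) t0.2.1 β, fx_ev B P β, Finset.sum_add_distrib,
          Pi.one_apply, smul_eq_mul]
        ring
      have hidx : (Nat.card (B ⧸ Ub) : ℤ) = (U.relIndex B : ℤ) := by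
        rw [← hUbi]
        rfl
      obtain ⟨w, hw⟩ : ∃ w : ℤ, w = (U.relIndex B : ℤ) := ⟨_, rfl⟩
      have e1 : fx (G := B) (B ⧸ Ub) + (-w) • (1 : B → ℤ) =
          (fx (G := B) (Zs B P a ρ ha hρ) * fx (B ⧸ Ub) + (-w) • fx (Zs B P a ρ ha hρ)) +
          (-1 : ℤ) • (fx (G := B) (Ep B P a ha) * fx (B ⧸ Ub) + (-w) • fx (Ep B P a ha)) +
          (fx (G := B) (Ev B (B ⧸ P)) * fx (B ⧸ Ub) + (-w) • fx (Ev B (B ⧸ P))) := by
        have h1 : fx (G := B) (B ⧸ Ub) + (-w) • (1 : B → ℤ) =
            (fx (G := B) (Zs B P a ρ ha hρ) + (-1 : ℤ) • fx (G := B) (Ep B P a ha) +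
          fx (G := B) (Ev B (B ⧸ P))) * (fx (G := B) (B ⧸ Ub) + (-w) • (1 : B → ℤ)) := by
          rw [hid, one_mul]
        rw [h1]
        funext β
        simp only [Pi.mul_apply, Pi.add_apply, Pi.smul_apply, Pi.one_apply, smul_eq_mul]
        ring
      have e2 : pf U - (U.relIndex B : ℤ) • pf B = J B (fx (G := B) (B ⧸ Ub) + (-w) • (1 : B → ℤ)) := by
        rw [J_add, J_smul, J_one, ← pf_eq_fx, J_pf, hUbmap, hw, neg_smul, sub_eq_add_neg]
      rw [e2, e1, J_add, J_add, J_smul]
      -- openness of stabilizers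
      have hopen : ∀ A : Set Qb, A.Finite → Op ((B ⊓ N0) ⊓ (IntermediateField.adjoin ℚ A).fixingSubgroup) := by
        intro A hA
        refine op_inf _ _ hOM ⟨IntermediateField.adjoin ℚ A, ?_, le_rfl⟩
        rw [nf_iff]
        have := hA.to_subtype
        apply IntermediateField.finiteDimensional_adjoin
        intro y _
        exact (Algebra.IsAlgebraic.isAlgebraic (R := ℚ) y).isIntegral
      have hadj : ∀ (A : Set Qb) (g : GQ), g ∈ (IntermediateField.adjoin ℚ A).fixingSubgroup →
          ∀ z ∈ A, g z = z := fun A g hg z hz =>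
        (IntermediateField.mem_fixingSubgroup_iff _ _).1 hg z (IntermediateField.subset_adjoin ℚ _ hz)
      have hfixZ : ∀ (t : Zs B P a ρ ha hρ) (b : B), (b : GQ) ∈ N0 →
          (∀ x, (b : GQ) (t.1 x) = t.1 x) → b • t = t := by
        intro t b hb h1
        apply Subtype.ext
        rw [SubMulAction.val_smul]
        funext x
        rw [fn_smul, hcX b⁻¹ (by
          rw [Subgroup.coe_inv]
          exact N0.inv_mem hb)]
        exact h1 x
      have hfree : ∀ (t : Zs B P a ρ ha hρ) (b : B), (∃ y : GQ, (b : GQ) = y⁻¹ * c * y) →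
          b • t ≠ t := by
        intro t b hb
        refine zs_free' h B P a ρ ha hρ hsum ha0 t b hb ?_
        obtain ⟨y, hy⟩ := hb
        apply hcX
        rw [Subgroup.coe_inv]
        apply N0.inv_mem
        rw [hy]
        exact hreal y
      have hSt : ∀ S : Finset (B ⧸ P), S.Nonempty → Even S.card → ∀ W : Subgroup B,
          (∀ b : B, b ∈ W ↔ Finset.map (MulAction.toPerm b).toEmbedding S = S) →
          W.map B.subtype ≤ B ∧ B ⊓ N0 ≤ W.map B.subtype ∧ W.map B.subtype ≠ B := by
        intro S hS1 hS2 W hW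
        refine ⟨Subgroup.map_subtype_le _, ?_, ?_⟩
        · intro g hg
          refine ⟨⟨g, hg.1⟩, (hW _).2 ?_, rfl⟩
          have h1 : (MulAction.toPerm (⟨g, hg.1⟩ : B) : Equiv.Perm (B ⧸ P)) = 1 := by
            ext x
            exact hcX ⟨g, hg.1⟩ hg.2 x
          rw [h1]
          exact Finset.ext fun x => by
            rw [Finset.mem_map]
            constructor
            · rintro ⟨z, hz, rfl⟩
              exact hz
            · intro hx
              exact ⟨x, hx, rfl⟩
        · intro h1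
          have h2 : W = ⊤ := by
            rw [eq_top_iff]
            intro b _
            have h3 : (b : GQ) ∈ W.map B.subtype := by rw [h1]; exact b.2
            obtain ⟨b', hb', hbb⟩ := h3
            have : b' = b := Subtype.ext hbb
            rwa [← this]
          have h3 : S = Finset.univ := by
            obtain ⟨x, hx⟩ := hS1
            ext x'
            simp only [Finset.mem_univ, iff_true]
            obtain ⟨z, rfl⟩ := QuotientGroup.mk_surjective x
            obtain ⟨z', rfl⟩ := QuotientGroup.mk_surjective x'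
            have h4 := (hW (z' * z⁻¹)).1 (by rw [h2]; exact Subgroup.mem_top _)
            rw [← h4, Finset.mem_map]
            refine ⟨_, hx, ?_⟩
            show ((z' * z⁻¹) • ((z : B) : B ⧸ P)) = ((z' : B) : B ⧸ P)
            rw [MulAction.Quotient.smul_mk, smul_eq_mul, inv_mul_cancel_right]
          rw [h3, Finset.card_univ, hcard] at hS2
          exact (Nat.not_even_iff_odd.2 hPodd) hS2
      refine (To Op c).add_mem ((To Op c).add_mem ?_ ((To Op c).zsmul_mem ?_ _)) ?_
      · rw [J_add, J_smul, ← fx_prod]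
        refine (To Op c).add_mem ?_ ((To Op c).zsmul_mem ?_ _)
        · refine J_fx_mem Op c B _ ?_ ?_
          · rintro ⟨t, y⟩
            refine op_mono _ _ ?_ (hopen (Set.range (fun x => t.1 x)) (Set.finite_range _))
            intro g hg
            refine ⟨⟨g, hg.1.1⟩, ?_, rfl⟩
            show (⟨g, hg.1.1⟩ : B) ∈ MulAction.stabilizer B (t, y)
            rw [MulAction.mem_stabilizer_iff]
            exact Prod.ext (hfixZ t _ hg.1.2 fun x => hadj _ g hg.2 _ ⟨x, rfl⟩)
              (hcY _ hg.1.2 y)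
          · rintro ⟨t, y⟩ b hb h1
            exact hfree t b hb (congrArg Prod.fst h1)
        · refine J_fx_mem Op c B _ ?_ hfree
          intro t
          refine op_mono _ _ ?_ (hopen (Set.range (fun x => t.1 x)) (Set.finite_range _))
          intro g hg
          refine ⟨⟨g, hg.1.1⟩, ?_, rfl⟩
          show (⟨g, hg.1.1⟩ : B) ∈ MulAction.stabilizer B t
          rw [MulAction.mem_stabilizer_iff]
          exact hfixZ t _ hg.1.2 fun x => hadj _ g hg.2 _ ⟨x, rfl⟩
      · rw [J_add, J_smul, neg_smul, ← sub_eq_add_neg, hw, ← hidx]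
        refine sets_mem (N0 := N0) _ ?_ _ hcY
        intro p
        obtain ⟨W, hW⟩ := stab_exists B (B ⧸ P) p.1.1
        obtain ⟨h1, h2, h3⟩ := hSt p.1.1 p.2.1.1 p.2.1.2 W hW
        refine ihB2 (W.map B.subtype) _ h1 h2 h3 (Subgroup.map_mono ?_) ?_
        · intro b hb
          rw [hW]
          exact congrArg (fun z : Ep B P a ha => z.1.1) (MulAction.mem_stabilizer_iff.1 hb)
        · refine op_mono _ _ ?_ (hopen {p.1.2} (Set.finite_singleton _))
          intro g hg
          refine ⟨⟨g, hg.1.1⟩, ?_, rfl⟩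
          show (⟨g, hg.1.1⟩ : B) ∈ MulAction.stabilizer B p
          rw [MulAction.mem_stabilizer_iff]
          apply Subtype.ext
          rw [SubMulAction.val_smul, fp_smul]
          refine Prod.ext ?_ (hadj _ g hg.2 _ rfl)
          have h4 : (⟨g, hg.1.1⟩ : B) ∈ W := by
            obtain ⟨b', hb', hbb⟩ := h2 hg.1
            have : b' = ⟨g, hg.1.1⟩ := Subtype.ext hbb
            rwa [← this]
          rw [hW] at h4
          exact h4
      · rw [J_add, J_smul, neg_smul, ← sub_eq_add_neg, hw, ← hidx]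
        refine sets_mem (N0 := N0) _ ?_ _ hcY
        intro S
        obtain ⟨h1, h2, h3⟩ := hSt S.1 S.2.1 S.2.2 (MulAction.stabilizer B S) (by
          intro b
          rw [MulAction.mem_stabilizer_iff]
          exact ⟨fun h => congrArg Subtype.val h, fun h => Subtype.ext h⟩)
        exact ihB _ (op_mono _ _ h2 hOM) h1 h2 h3

end Pool.Agent.TH452.TC
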