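import Pool.Agent.TH452.TC.In2
import Pool.Agent.TH452.TC.Tr6

/-!
Totally real fields: the permutation character is constant modulo the totally complex ones.
-/

set_option autoImplicit false

namespace Pool.Agent.TH452.TC

open NumberField Pool.Agent.TH965.St

theorem real_of_em' {τ : Qb →+* ℂ} {c : GQ} (h : Cj τ c) (K : IntermediateField ℚ Qb)
    [NumberField K] (hK : InfinitePlace.nrComplexPlaces K = 0) :
    ∀ φ : K →ₐ[ℚ] Qb, ∀ x, c (φ x) = φ x := by
  have h1 : em K c = em K 1 := by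
    rw [em_cc h, em_one, ← InfinitePlace.card_add_two_mul_card_eq_rank, hK]
    simp
  have e : {φ : K →ₐ[ℚ] Qb // ∀ x, (1 : GQ) (φ x) = φ x} ≃ (K →ₐ[ℚ] Qb) :=
    Equiv.subtypeUnivEquiv fun φ x => rfl
  unfold em at h1
  rw [Nat.card_congr e] at h1
  have h3 : Nat.card {φ : K →ₐ[ℚ] Qb // ∀ x, c (φ x) = φ x} = Nat.card (K →ₐ[ℚ] Qb) := by
    exact_mod_cast h1
  by_contra hno
  push Not at hno
  obtain ⟨φ, hφ⟩ := hno
  have h4 : Nat.card {φ : K →ₐ[ℚ] Qb // ∀ x, c (φ x) = φ x} < Nat.card (K →ₐ[ℚ] Qb) := by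
    have h5 : ({φ : K →ₐ[ℚ] Qb | ∀ x, c (φ x) = φ x}).ncard <
        (Set.univ : Set (K →ₐ[ℚ] Qb)).ncard := by
      apply Set.ncard_lt_ncard _ (Set.toFinite _)
      refine ⟨Set.subset_univ _, fun hsub => ?_⟩
      obtain ⟨x, hx⟩ := hφ
      exact hx ((hsub (Set.mem_univ φ)) x)
    rw [Set.ncard_univ] at h5
    exact h5
  omega

theorem real_em {τ : Qb →+* ℂ} {c : GQ} (h : Cj τ c) (K : IntermediateField ℚ Qb)
    [hKn : NumberField K] (hK : InfinitePlace.nrComplexPlaces K = 0) :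
    em K - (Module.finrank ℚ K : ℤ) • (1 : GQ → ℤ) ∈ To Op c := by
  have hKfd : FiniteDimensional ℚ K := (nf_iff K).1 hKn
  obtain ⟨L0, hL0d⟩ : ∃ L0, L0 = IntermediateField.normalClosure ℚ K Qb := ⟨_, rfl⟩
  have hL1L0 : K ≤ L0 := by rw [hL0d]; exact IntermediateField.le_normalClosure K
  have hL0fd : FiniteDimensional ℚ L0 := by
    rw [hL0d]
    exact normalClosure.is_finiteDimensional ℚ _ Qb
  have hL0n : Normal ℚ L0 := by
    rw [hL0d]
    exact normalClosure.normal ℚ _ Qb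
  have hL0 : NumberField L0 := (nf_iff L0).2 hL0fd
  have hgal : IsGalois ℚ L0 := { __ := hL0n }
  have hN : L0.fixingSubgroup.Normal := InfiniteGalois.normal_iff_isGalois L0 |>.2 hgal
  have hreal : ∀ y : GQ, y⁻¹ * c * y ∈ L0.fixingSubgroup := by
    intro y
    have h1 : L0 ≤ IntermediateField.fixedField (Subgroup.zpowers (y⁻¹ * c * y)) := by
      rw [hL0d, normalClosure_le_iff]
      intro f
      rintro _ ⟨x, rfl⟩
      rw [IntermediateField.mem_fixedField_iff]
      have h2 : (y⁻¹ * c * y) (f x) = f x := by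
        have h3 := real_of_em' h K hK ((y : Qb →ₐ[ℚ] Qb).comp f) x
        have h4 : c (y (f x)) = y (f x) := h3
        rw [AlgEquiv.mul_apply, AlgEquiv.mul_apply, h4, ← AlgEquiv.mul_apply, inv_mul_cancel]
        rfl
      have h5 : Subgroup.zpowers (y⁻¹ * c * y) ≤ MulAction.stabilizer GQ (f x) := by
        rw [Subgroup.zpowers_le, MulAction.mem_stabilizer_iff]
        exact h2
      intro g hg
      exact MulAction.mem_stabilizer_iff.1 (h5 hg)
    rw [IntermediateField.mem_fixingSubgroup_iff]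
    intro x hx
    exact (IntermediateField.mem_fixedField_iff _ _).1 (h1 hx) _ (Subgroup.mem_zpowers _)
  have hT : Op (⊤ : Subgroup GQ) := ⟨L0, hL0, le_top⟩
  have hU : Op K.fixingSubgroup := ⟨K, hKn, le_rfl⟩
  have h1 := main_sp h hN ⟨L0, hL0, le_rfl⟩ hreal _ ⊤ hT rfl K.fixingSubgroup le_top
    (inf_le_right.trans (IntermediateField.fixingSubgroup_le hL1L0))
  rw [pf_top, Subgroup.relIndex_top_right, index_fix] at h1
  have h2 : em K = pf K.fixingSubgroup := funext fun g => em_eq K g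
  rw [h2]
  exact h1

end Pool.Agent.TH452.TC
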