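import Pool.Agent.TH452.TC.Tr2

/-!
Projection formula.
-/

set_option autoImplicit false

namespace Pool.Agent.TH452.TC

variable {G : Type} [Group G]

theorem J_equiv (B : Subgroup G) (S : Subgroup B) (g : G) :
    ∃ e : (Σ x : {x : G ⧸ B // g • x = x}, {t : B ⧸ S // wx B g x • t = t}) ≃
      {z : G ⧸ S.map B.subtype // g • z = z}, ∀ p, ∃ b : B,
        ((e p).1.out)⁻¹ * g * (e p).1.out = ((b⁻¹ * wx B g p.1 * b : B) : G) := by
  classical
  have hmem : ∀ b : B, (b : G) ∈ S.map B.subtype ↔ b ∈ S := by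
    intro b
    constructor
    · rintro ⟨a, ha, hab⟩
      have : a = b := Subtype.ext hab
      rwa [← this]
    · intro hb
      exact ⟨b, hb, rfl⟩
  have hle : S.map B.subtype ≤ B := Subgroup.map_subtype_le S
  have hwd : ∀ z : (Σ x : {x : G ⧸ B // g • x = x}, {t : B ⧸ S // wx B g x • t = t}),
      g • ((z.1.1.out * (z.2.1.out : B) : G) : G ⧸ S.map B.subtype) =
        ((z.1.1.out * (z.2.1.out : B) : G) : G ⧸ S.map B.subtype) := by
    · intro z
      rw [fixed_iff]
      have h1 : (z.2.1.out)⁻¹ * wx B g z.1 * z.2.1.out ∈ S := by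
        rw [← fixed_iff, QuotientGroup.out_eq']
        exact z.2.2
      have h2 := (hmem _).2 h1
      have e1 : (((z.2.1.out)⁻¹ * wx B g z.1 * z.2.1.out : B) : G) =
          (z.1.1.out * (z.2.1.out : B) : G)⁻¹ * g * (z.1.1.out * (z.2.1.out : B) : G) := by
        unfold wx
        push_cast
        group
      rwa [e1] at h2
  have hbij : Function.Bijective (fun z : (Σ x : {x : G ⧸ B // g • x = x},
      {t : B ⧸ S // wx B g x • t = t}) =>
      (⟨((z.1.1.out * (z.2.1.out : B) : G) : G ⧸ S.map B.subtype), hwd z⟩ :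
        {z : G ⧸ S.map B.subtype // g • z = z})) := by
    refine ⟨?_, ?_⟩
    · rintro ⟨x, t⟩ ⟨x', t'⟩ h
      have h1 : ((x.1.out * (t.1.out : B) : G) : G ⧸ S.map B.subtype) =
          ((x'.1.out * (t'.1.out : B) : G) : G ⧸ S.map B.subtype) := congrArg Subtype.val h
      rw [QuotientGroup.eq] at h1
      have hx : x = x' := by
        apply Subtype.ext
        rw [← QuotientGroup.out_eq' x.1, ← QuotientGroup.out_eq' x'.1, QuotientGroup.eq]
        have h2 := hle h1
        have h3 := B.mul_mem (B.mul_mem (t.1.out : B).2 h2) (B.inv_mem (t'.1.out : B).2)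
        have e1 : (t.1.out : G) * ((x.1.out * (t.1.out : B) : G)⁻¹ * (x'.1.out * (t'.1.out : B) : G)) *
            (t'.1.out : G)⁻¹ = (x.1.out)⁻¹ * x'.1.out := by group
        rwa [e1] at h3
      subst hx
      have ht : t = t' := by
        apply Subtype.ext
        rw [← QuotientGroup.out_eq' t.1, ← QuotientGroup.out_eq' t'.1, QuotientGroup.eq, ← hmem]
        have e1 : (((t.1.out)⁻¹ * t'.1.out : B) : G) =
            (x.1.out * (t.1.out : B) : G)⁻¹ * (x.1.out * (t'.1.out : B) : G) := by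
          push_cast
          group
        rw [e1]
        exact h1
      subst ht
      rfl
    · rintro ⟨z, hz⟩
      obtain ⟨y, rfl⟩ := QuotientGroup.mk_surjective z
      have h1 := (fixed_iff _ g y).1 hz
      have h2 := hle h1
      have hx : g • (y : G ⧸ B) = (y : G ⧸ B) := (fixed_iff B g y).2 h2
      obtain ⟨b, hb⟩ := QuotientGroup.mk_out_eq_mul B y
      obtain ⟨s, hs⟩ := QuotientGroup.mk_out_eq_mul S b⁻¹
      obtain ⟨w, hw⟩ : ∃ w : B, w = b⁻¹ * (wx B g ⟨(y : G ⧸ B), hx⟩) * b := ⟨_, rfl⟩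
      have ht : wx B g ⟨(y : G ⧸ B), hx⟩ • ((b⁻¹ : B) : B ⧸ S) = ((b⁻¹ : B) : B ⧸ S) := by
        rw [fixed_iff, ← hmem]
        have e1 : (((b⁻¹)⁻¹ * wx B g ⟨(y : G ⧸ B), hx⟩ * b⁻¹ : B) : G) = y⁻¹ * g * y := by
          unfold wx
          push_cast
          rw [hb]
          group
        rw [e1]
        exact h1
      refine ⟨⟨⟨(y : G ⧸ B), hx⟩, ⟨((b⁻¹ : B) : B ⧸ S), ht⟩⟩, ?_⟩
      apply Subtype.ext
      show ((((y : G ⧸ B).out * (((b⁻¹ : B) : B ⧸ S).out : B) : G)) : G ⧸ S.map B.subtype) =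
        ((y : G) : G ⧸ S.map B.subtype)
      rw [hb, hs, QuotientGroup.eq]
      refine Subgroup.inv_mem_iff _ |>.1 ?_
      have e1 : ((y * (b : G) * ((b⁻¹ * (s : B) : B) : G))⁻¹ * y)⁻¹ = ((s : B) : G) := by
        push_cast
        group
      rw [e1]
      exact (hmem _).2 s.2
  refine ⟨Equiv.ofBijective _ hbij, fun p => ?_⟩
  obtain ⟨s, hs⟩ := QuotientGroup.mk_out_eq_mul (S.map B.subtype)
    (p.1.1.out * (p.2.1.out : B) : G)
  refine ⟨p.2.1.out * ⟨(s : G), hle s.2⟩, ?_⟩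
  have e1 : ((Equiv.ofBijective _ hbij p).1).out = p.1.1.out * (p.2.1.out : B) * (s : G) := hs
  rw [e1]
  unfold wx
  push_cast
  group

theorem J_proj (B : Subgroup G) [Finite (G ⧸ B)] (S : Subgroup B) [Finite (B ⧸ S)] (ψ : B → ℤ)
    (hψ : ∀ a b : B, ψ (b⁻¹ * a * b) = ψ a) :
    J B (pf S * ψ) = J (S.map B.subtype) (fun s => ψ ⟨s.1, Subgroup.map_subtype_le S s.2⟩) := by
  classical
  funext g
  obtain ⟨e, he⟩ := J_equiv B S g
  have hf1 : Fintype {x : G ⧸ B // g • x = x} := Fintype.ofFinite _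
  have hf2 : ∀ x : {x : G ⧸ B // g • x = x}, Fintype {t : B ⧸ S // wx B g x • t = t} :=
    fun x => Fintype.ofFinite _
  have hf3 : Fintype {z : G ⧸ S.map B.subtype // g • z = z} := Fintype.ofEquiv _ e
  unfold J
  rw [finsum_eq_sum_of_fintype, finsum_eq_sum_of_fintype, ← Equiv.sum_comp e, Fintype.sum_sigma]
  refine Finset.sum_congr rfl fun x _ => ?_
  have h1 : ∀ t : {t : B ⧸ S // wx B g x • t = t},
      ψ ⟨(wx (S.map B.subtype) g (e ⟨x, t⟩)).1,
        Subgroup.map_subtype_le S (wx (S.map B.subtype) g (e ⟨x, t⟩)).2⟩ = ψ (wx B g x) := by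
    intro t
    obtain ⟨b, hb⟩ := he ⟨x, t⟩
    rw [← hψ (wx B g x) b]
    congr 1
    exact Subtype.ext hb
  rw [Finset.sum_congr rfl (fun t _ => h1 t), Finset.sum_const, Finset.card_univ,
    ← Nat.card_eq_fintype_card, nsmul_eq_mul]
  rfl

end Pool.Agent.TH452.TC
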