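import Pool.Agent.TH452.TC.Grp2

/-!
Induction of class functions to a group from a subgroup of finite index.
-/

set_option autoImplicit false

namespace Pool.Agent.TH452.TC

variable {G : Type} [Group G]

/-- the conjugate of `g` in `B` at a fixed coset -/
noncomputable def wx (B : Subgroup G) (g : G) (x : {x : G ⧸ B // g • x = x}) : B :=
  ⟨x.1.out⁻¹ * g * x.1.out, (fixed_iff B g x.1.out).1 (by rw [QuotientGroup.out_eq']; exact x.2)⟩

/-- induction -/
noncomputable def J (B : Subgroup G) (φ : B → ℤ) (g : G) : ℤ := ∑ᶠ x, φ (wx B g x)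

theorem J_add (B : Subgroup G) [Finite (G ⧸ B)] (φ ψ : B → ℤ) : J B (φ + ψ) = J B φ + J B ψ := by
  funext g
  unfold J
  exact finsum_add_distrib (Set.toFinite _) (Set.toFinite _)

theorem J_smul (B : Subgroup G) [Finite (G ⧸ B)] (n : ℤ) (φ : B → ℤ) :
    J B (n • φ) = n • J B φ := by
  funext g
  unfold J
  exact (smul_finsum n fun x => φ (wx B g x)).symm

/-- `J` as a homomorphism -/
noncomputable def Jh (B : Subgroup G) [Finite (G ⧸ B)] : (B → ℤ) →+ (G → ℤ) where
  toFun := J B
  map_zero' := by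
    funext g
    unfold J
    exact finsum_zero
  map_add' := J_add B

theorem J_pf (B : Subgroup G) [Finite (G ⧸ B)] (S : Subgroup B) [Finite (B ⧸ S)] :
    J B (pf S) = pf (S.map B.subtype) := by
  classical
  funext g
  have : Fintype {x : G ⧸ B // g • x = x} := Fintype.ofFinite _
  have hmem : ∀ b : B, (b : G) ∈ S.map B.subtype ↔ b ∈ S := by
    intro b
    constructor
    · rintro ⟨a, ha, hab⟩
      have : a = b := Subtype.ext hab
      rwa [← this]
    · intro hb
      exact ⟨b, hb, rfl⟩
  have hle : S.map B.subtype ≤ B := Subgroup.map_subtype_le S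
  have e : (Σ x : {x : G ⧸ B // g • x = x}, {t : B ⧸ S // wx B g x • t = t}) ≃
      {z : G ⧸ S.map B.subtype // g • z = z} := by
    refine Equiv.ofBijective (fun z => ⟨((z.1.1.out * (z.2.1.out : B) : G) : G ⧸ S.map B.subtype), ?_⟩)
      ⟨?_, ?_⟩
    · rw [fixed_iff]
      have h1 : (z.2.1.out)⁻¹ * wx B g z.1 * z.2.1.out ∈ S := by
        rw [← fixed_iff, QuotientGroup.out_eq']
        exact z.2.2
      have h2 := (hmem _).2 h1
      have e1 : (((z.2.1.out)⁻¹ * wx B g z.1 * z.2.1.out : B) : G) =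
          (z.1.1.out * (z.2.1.out : B) : G)⁻¹ * g * (z.1.1.out * (z.2.1.out : B) : G) := by
        unfold wx
        push_cast
        group
      rwa [e1] at h2
    · rintro ⟨x, t⟩ ⟨x', t'⟩ h
      have h1 : ((x.1.out * (t.1.out : B) : G) : G ⧸ S.map B.subtype) =
          ((x'.1.out * (t'.1.out : B) : G) : G ⧸ S.map B.subtype) := congrArg Subtype.val h
      rw [QuotientGroup.eq] at h1
      have hx : x = x' := by
        apply Subtype.ext
        rw [← QuotientGroup.out_eq' x.1, ← QuotientGroup.out_eq' x'.1, QuotientGroup.eq]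
        have h2 := hle h1
        have h3 := B.mul_mem (B.mul_mem (t.1.out : B).2 h2) (B.inv_mem (t'.1.out : B).2)
        have e1 : (t.1.out : G) * ((x.1.out * (t.1.out : B) : G)⁻¹ * (x'.1.out * (t'.1.out : B) : G)) *
            (t'.1.out : G)⁻¹ = (x.1.out)⁻¹ * x'.1.out := by group
        rwa [e1] at h3
      subst hx
      have ht : t = t' := by
        apply Subtype.ext
        rw [← QuotientGroup.out_eq' t.1, ← QuotientGroup.out_eq' t'.1, QuotientGroup.eq, ← hmem]
        have e1 : (((t.1.out)⁻¹ * t'.1.out : B) : G) =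
            (x.1.out * (t.1.out : B) : G)⁻¹ * (x.1.out * (t'.1.out : B) : G) := by
          push_cast
          group
        rw [e1]
        exact h1
      subst ht
      rfl
    · rintro ⟨z, hz⟩
      obtain ⟨y, rfl⟩ := QuotientGroup.mk_surjective z
      have h1 := (fixed_iff _ g y).1 hz
      have h2 := hle h1
      have hx : g • (y : G ⧸ B) = (y : G ⧸ B) := (fixed_iff B g y).2 h2
      obtain ⟨b, hb⟩ := QuotientGroup.mk_out_eq_mul B y
      obtain ⟨s, hs⟩ := QuotientGroup.mk_out_eq_mul S b⁻¹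
      obtain ⟨w, hw⟩ : ∃ w : B, w = b⁻¹ * (wx B g ⟨(y : G ⧸ B), hx⟩) * b := ⟨_, rfl⟩
      have ht : wx B g ⟨(y : G ⧸ B), hx⟩ • ((b⁻¹ : B) : B ⧸ S) = ((b⁻¹ : B) : B ⧸ S) := by
        rw [fixed_iff, ← hmem]
        have e1 : (((b⁻¹)⁻¹ * wx B g ⟨(y : G ⧸ B), hx⟩ * b⁻¹ : B) : G) = y⁻¹ * g * y := by
          unfold wx
          push_cast
          rw [hb]
          group
        rw [e1]
        exact h1
      refine ⟨⟨⟨(y : G ⧸ B), hx⟩, ⟨((b⁻¹ : B) : B ⧸ S), ht⟩⟩, ?_⟩
      apply Subtype.ext
      show ((((y : G ⧸ B).out * (((b⁻¹ : B) : B ⧸ S).out : B) : G)) : G ⧸ S.map B.subtype) =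
        ((y : G) : G ⧸ S.map B.subtype)
      rw [hb, hs, QuotientGroup.eq]
      refine Subgroup.inv_mem_iff _ |>.1 ?_
      have e1 : ((y * (b : G) * ((b⁻¹ * (s : B) : B) : G))⁻¹ * y)⁻¹ = ((s : B) : G) := by
        push_cast
        group
      rw [e1]
      exact (hmem _).2 s.2
  unfold J
  rw [finsum_eq_sum_of_fintype]
  have h2 : pf (S.map B.subtype) g =
      (Nat.card {z : G ⧸ S.map B.subtype // g • z = z} : ℤ) := rfl
  rw [h2, ← Nat.card_congr e, Nat.card_sigma]
  push_cast
  rfl

theorem fx_orbits (X : Type) [Finite X] [MulAction G X] :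
    fx (G := G) X = ∑ᶠ ω : Quotient (MulAction.orbitRel G X),
      pf (MulAction.stabilizer G ω.out) := by
  classical
  have : Fintype (Quotient (MulAction.orbitRel G X)) := Fintype.ofFinite _
  have hfin : ∀ x : X, Finite (G ⧸ MulAction.stabilizer G x) := fun x =>
    Finite.of_injective _ (MulAction.injective_ofQuotientStabilizer G x)
  rw [finsum_eq_sum_of_fintype]
  funext g
  rw [Finset.sum_apply]
  unfold fx pf
  have e : (Σ ω : Quotient (MulAction.orbitRel G X),
      {q : G ⧸ MulAction.stabilizer G ω.out // g • q = q}) ≃ {x : X // g • x = x} := by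
    refine Equiv.ofBijective
      (fun z => ⟨MulAction.ofQuotientStabilizer G z.1.out z.2.1, ?_⟩) ⟨?_, ?_⟩
    · rw [← MulAction.ofQuotientStabilizer_smul, z.2.2]
    · rintro ⟨ω, q, hq⟩ ⟨ω', q', hq'⟩ h
      have h1 : MulAction.ofQuotientStabilizer G ω.out q =
          MulAction.ofQuotientStabilizer G ω'.out q' := congrArg Subtype.val h
      have h2 : ∀ (ω : Quotient (MulAction.orbitRel G X)) (q : G ⧸ MulAction.stabilizer G ω.out),
          (Quotient.mk (MulAction.orbitRel G X) (MulAction.ofQuotientStabilizer G ω.out q)) = ω := by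
        intro ω q
        conv_rhs => rw [← Quotient.out_eq ω]
        apply Quotient.sound
        exact MulAction.ofQuotientStabilizer_mem_orbit G ω.out q
      have h3 : ω = ω' := by rw [← h2 ω q, ← h2 ω' q', h1]
      subst h3
      have h4 := MulAction.injective_ofQuotientStabilizer G ω.out h1
      subst h4
      rfl
    · rintro ⟨x, hx⟩
      have h1 : x ∈ MulAction.orbit G (Quotient.mk (MulAction.orbitRel G X) x).out := by
        have := Quotient.mk_out (s := MulAction.orbitRel G X) x
        exact MulAction.orbitRel_apply.1 ((MulAction.orbitRel G X).symm this)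
      obtain ⟨y, hy⟩ := h1
      have hy' : MulAction.ofQuotientStabilizer G (Quotient.mk (MulAction.orbitRel G X) x).out
          (y : G ⧸ MulAction.stabilizer G (Quotient.mk (MulAction.orbitRel G X) x).out) = x := hy
      refine ⟨⟨Quotient.mk (MulAction.orbitRel G X) x, (y : G ⧸ _), ?_⟩, ?_⟩
      · apply MulAction.injective_ofQuotientStabilizer G
        rw [MulAction.ofQuotientStabilizer_smul, hy', hx]
      · exact Subtype.ext hy'
  rw [← Nat.card_congr e, Nat.card_sigma]
  push_cast
  rfl

/-- group generated by the `pf H`, `H` in the family `O` and with no conjugate of `c` -/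
def To (O : Subgroup G → Prop) (c : G) : AddSubgroup (G → ℤ) :=
  AddSubgroup.closure {f | ∃ H : Subgroup G, O H ∧ (∀ x, x⁻¹ * c * x ∉ H) ∧ f = pf H}

theorem J_fx_mem (O : Subgroup G → Prop) (c : G) (B : Subgroup G) [Finite (G ⧸ B)] (T : Type)
    [Finite T] [MulAction B T] (hO : ∀ t : T, O ((MulAction.stabilizer B t).map B.subtype))
    (hT : ∀ t : T, ∀ b : B, (∃ y : G, (b : G) = y⁻¹ * c * y) → b • t ≠ t) :
    J B (fx T) ∈ To O c := by
  classical
  have : Fintype (Quotient (MulAction.orbitRel B T)) := Fintype.ofFinite _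
  have hfin : ∀ x : T, Finite (B ⧸ MulAction.stabilizer B x) := fun x =>
    Finite.of_injective _ (MulAction.injective_ofQuotientStabilizer B x)
  have h1 : J B (fx T) = ∑ ω : Quotient (MulAction.orbitRel B T),
      pf ((MulAction.stabilizer B ω.out).map B.subtype) := by
    rw [fx_orbits, finsum_eq_sum_of_fintype]
    have h2 : J B (∑ ω : Quotient (MulAction.orbitRel B T), pf (MulAction.stabilizer B ω.out)) =
      Jh B (∑ ω : Quotient (MulAction.orbitRel B T), pf (MulAction.stabilizer B ω.out)) := rfl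
    rw [h2, map_sum]
    exact Finset.sum_congr rfl fun ω _ => J_pf B _
  rw [h1]
  refine (To O c).sum_mem fun ω _ => AddSubgroup.subset_closure ⟨_, hO _, ?_, rfl⟩
  rintro x ⟨b, hb, hbx⟩
  exact hT _ b ⟨x, hbx⟩ (MulAction.mem_stabilizer_iff.1 hb)

end Pool.Agent.TH452.TC
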