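import Pool.Agent.TH452.TC.Tr1

/-!
Steps of prime index.
-/

set_option autoImplicit false

namespace Pool.Agent.TH452.TC

variable {G : Type} [Group G]

theorem pf_normal (A : Subgroup G) [hA : A.Normal] [DecidablePred (· ∈ A)] (g : G) :
    pf A g = if g ∈ A then (A.index : ℤ) else 0 := by
  have h1 : ∀ y : G, y⁻¹ * g * y ∈ A ↔ g ∈ A := by
    intro y
    constructor
    · intro h
      have := hA.conj_mem _ h y
      have e : y * (y⁻¹ * g * y) * y⁻¹ = g := by group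
      rwa [e] at this
    · intro h
      have := hA.conj_mem _ h y⁻¹
      rwa [inv_inv] at this
  split_ifs with h
  · unfold pf
    have e : {x : G ⧸ A // g • x = x} ≃ (G ⧸ A) := Equiv.subtypeUnivEquiv fun x => by
      obtain ⟨y, rfl⟩ := QuotientGroup.mk_surjective x
      exact (fixed_iff A g y).2 ((h1 y).2 h)
    rw [Nat.card_congr e]
    rfl
  · exact pf_zero fun y hy => h ((h1 y).1 hy)

theorem pf_top : pf (⊤ : Subgroup G) = 1 := by
  classical
  funext g
  rw [pf_normal, if_pos (Subgroup.mem_top g), Subgroup.index_top]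
  rfl

theorem J_one (B : Subgroup G) [Finite (G ⧸ B)] : J B 1 = pf B := by
  have h1 := J_pf B ⊤
  rw [pf_top] at h1
  rw [h1]
  congr 1
  rw [← MonoidHom.range_eq_map]
  exact B.range_subtype

theorem cyc_step (O : Subgroup G → Prop) (hOi : ∀ H H', O H → O H' → O (H ⊓ H')) (c : G)
    (B : Subgroup G) [Finite (G ⧸ B)] (P : Subgroup B) [hP : P.Normal] [Finite (B ⧸ P)]
    (hOP : O (P.map B.subtype)) (Z : Type) [Finite Z] [MulAction B Z]
    (hO : ∀ t : Z, O ((MulAction.stabilizer B t).map B.subtype))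
    (hT : ∀ t : Z, ∀ b : B, (∃ y : G, (b : G) = y⁻¹ * c * y) → b • t ≠ t)
    (h1 : ∀ b : B, b ∉ P → fx Z b = 1) :
    pf (P.map B.subtype) - (P.index : ℤ) • pf B ∈ To O c := by
  classical
  have e1 : pf P - (P.index : ℤ) • (1 : B → ℤ) = fx (Z × (B ⧸ P)) + (-(P.index : ℤ)) • fx Z := by
    rw [fx_prod, ← pf_eq_fx]
    funext b
    rw [Pi.sub_apply, Pi.add_apply, Pi.smul_apply, Pi.smul_apply, Pi.mul_apply, Pi.one_apply,
      pf_normal]
    split_ifs with hb
    · rw [smul_eq_mul, smul_eq_mul]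
      ring
    · rw [h1 b hb]
      simp
  have e2 : pf (P.map B.subtype) - (P.index : ℤ) • pf B =
      J B (fx (Z × (B ⧸ P))) + (-(P.index : ℤ)) • J B (fx Z) := by
    rw [← J_smul, ← J_add, ← e1]
    have h2 : pf P - (P.index : ℤ) • (1 : B → ℤ) = pf P + (-(P.index : ℤ)) • (1 : B → ℤ) := by
      rw [neg_smul, sub_eq_add_neg]
    rw [h2, J_add, J_smul, J_one, J_pf, neg_smul, sub_eq_add_neg]
  rw [e2]
  refine (To O c).add_mem ?_ ((To O c).zsmul_mem ?_ _)
  · refine J_fx_mem O c B _ ?_ ?_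
    · rintro ⟨z, x⟩
      have h3 : (MulAction.stabilizer B (z, x)).map B.subtype =
          (MulAction.stabilizer B z).map B.subtype ⊓ P.map B.subtype := by
        rw [← Subgroup.map_inf _ _ _ B.subtype_injective]
        congr 1
        ext b
        rw [MulAction.mem_stabilizer_iff, Subgroup.mem_inf, MulAction.mem_stabilizer_iff,
          Prod.smul_mk, Prod.mk.injEq]
        refine and_congr_right fun _ => ?_
        obtain ⟨y, rfl⟩ := QuotientGroup.mk_surjective x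
        rw [fixed_iff]
        constructor
        · intro h
          have := hP.conj_mem _ h y
          have e : y * (y⁻¹ * b * y) * y⁻¹ = b := by group
          rwa [e] at this
        · intro h
          have := hP.conj_mem _ h y⁻¹
          rwa [inv_inv] at this
      rw [h3]
      exact hOi _ _ (hO z) hOP
    · rintro ⟨z, x⟩ b hb h
      exact hT z b hb (congrArg Prod.fst h)
  · exact J_fx_mem O c B Z hO hT

theorem two_step (O : Subgroup G → Prop) (hOi : ∀ H H', O H → O H' → O (H ⊓ H'))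
    (hOm : ∀ H H', H ≤ H' → O H → O H') (c : G)
    (B : Subgroup G) [Finite (G ⧸ B)] (P : Subgroup B) (hP : P.index = 2)
    (hOP : O (P.map B.subtype)) (hOB : O B) (N1 : Subgroup G) (hON : O N1)
    (hN1 : ∀ a b, a ∉ N1 → b ∉ N1 → a * b ∈ N1) (hcN : ∀ y, y⁻¹ * c * y ∉ N1)
    (hcP : ∀ b : B, (∃ y : G, (b : G) = y⁻¹ * c * y) → b ∈ P) :
    pf (P.map B.subtype) - (2 : ℤ) • pf B ∈ To O c := by
  classical
  by_cases hex : ∃ b : B, ∃ y : G, (b : G) = y⁻¹ * c * y
  swap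
  · push Not at hex
    have h1 : ∀ x, x⁻¹ * c * x ∉ B := fun x hx => hex ⟨_, hx⟩ x rfl
    refine (To O c).sub_mem (AddSubgroup.subset_closure ⟨_, hOP, fun x hx => ?_, rfl⟩)
      ((To O c).zsmul_mem (AddSubgroup.subset_closure ⟨_, hOB, h1, rfl⟩) _)
    exact h1 x (Subgroup.map_subtype_le P hx)
  obtain ⟨b0, y0, hb0⟩ := hex
  have hb0P : b0 ∈ P := hcP b0 ⟨y0, hb0⟩
  obtain ⟨Q, hQ⟩ : ∃ Q, Q = N1.subgroupOf B := ⟨_, rfl⟩
  have hmQ : ∀ b : B, b ∈ Q ↔ (b : G) ∈ N1 := by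
    intro b
    rw [hQ]
    exact Subgroup.mem_subgroupOf
  have hQm : ∀ a b : B, a ∉ Q → b ∉ Q → a * b ∈ Q := by
    intro a b ha hb
    rw [hmQ] at ha hb ⊢
    exact hN1 _ _ ha hb
  have hPm : ∀ a b : B, a * b ∈ P ↔ (a ∈ P ↔ b ∈ P) := fun a b =>
    Subgroup.mul_mem_iff_of_index_two hP
  have hQm' : ∀ a b : B, a * b ∈ Q ↔ (a ∈ Q ↔ b ∈ Q) := by
    intro a b
    by_cases ha : a ∈ Q <;> by_cases hb : b ∈ Q
    · simp [ha, hb, Q.mul_mem ha hb]
    · exact ⟨fun h => absurd ((Q.mul_mem_cancel_left ha).1 h) hb, fun h => absurd (h.1 ha) hb⟩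
    · exact ⟨fun h => absurd ((Q.mul_mem_cancel_right hb).1 h) ha, fun h => absurd (h.2 hb) ha⟩
    · simp [ha, hb, hQm a b ha hb]
  have hb0Q : b0 ∉ Q := by
    rw [hmQ, hb0]
    exact hcN y0
  have hcQ : ∀ b : B, (∃ y : G, (b : G) = y⁻¹ * c * y) → b ∉ Q := by
    rintro b ⟨y, hy⟩
    rw [hmQ, hy]
    exact hcN y
  let R : Subgroup B :=
    { carrier := {b | b ∈ P ↔ b ∈ Q}
      one_mem' := by simp [P.one_mem, Q.one_mem]
      mul_mem' := by
        intro a b ha hb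
        change (a * b ∈ P ↔ a * b ∈ Q)
        change (a ∈ P ↔ a ∈ Q) at ha
        change (b ∈ P ↔ b ∈ Q) at hb
        rw [hPm, hQm', ha, hb]
      inv_mem' := by
        intro a ha
        change (a⁻¹ ∈ P ↔ a⁻¹ ∈ Q)
        rw [P.inv_mem_iff, Q.inv_mem_iff]
        exact ha }
  have hmR : ∀ b, b ∈ R ↔ (b ∈ P ↔ b ∈ Q) := fun b => Iff.rfl
  have hQi : Q.index = 2 := by
    rw [Subgroup.index_eq_two_iff]
    refine ⟨b0, fun b => ?_⟩
    rw [hQm']
    by_cases hb : b ∈ Q <;> simp [hb, hb0Q, Xor]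
  have hRi : R.index = 2 := by
    rw [Subgroup.index_eq_two_iff]
    refine ⟨b0, fun b => ?_⟩
    rw [hmR, hmR, hPm, hQm']
    by_cases hb : b ∈ Q <;> by_cases hb' : b ∈ P <;> simp [hb, hb', hb0Q, hb0P, Xor]
  have hPQi : (P ⊓ Q).index = 4 := by
    rw [← Subgroup.relIndex_mul_index (inf_le_left : P ⊓ Q ≤ P), hP, Subgroup.inf_relIndex_left]
    have : Q.relIndex P = 2 := by
      unfold Subgroup.relIndex
      rw [Subgroup.index_eq_two_iff]
      refine ⟨⟨b0, hb0P⟩, fun b => ?_⟩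
      rw [Subgroup.mem_subgroupOf, Subgroup.mem_subgroupOf]
      show Xor ((b : B) * b0 ∈ Q) ((b : B) ∈ Q)
      rw [hQm']
      by_cases hb : (b : B) ∈ Q <;> simp [hb, hb0Q, Xor]
    rw [this]
  have hPn : P.Normal := Subgroup.normal_of_index_eq_two hP
  have hQn : Q.Normal := Subgroup.normal_of_index_eq_two hQi
  have hRn : R.Normal := Subgroup.normal_of_index_eq_two hRi
  have hPQn : (P ⊓ Q).Normal := inferInstance
  have e1 : pf P + (-2 : ℤ) • (1 : B → ℤ) = pf (P ⊓ Q) + ((-1 : ℤ) • pf Q + (-1 : ℤ) • pf R) := by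
    funext b
    rw [Pi.add_apply, Pi.add_apply, Pi.add_apply, Pi.smul_apply, Pi.smul_apply, Pi.smul_apply,
      pf_normal, pf_normal, pf_normal, pf_normal, hP, hQi, hRi, hPQi, Subgroup.mem_inf, hmR]
    by_cases hb : b ∈ Q <;> by_cases hb' : b ∈ P <;> simp [hb, hb']
  have hfP : Finite (B ⧸ P) := Nat.finite_of_card_ne_zero (by
    change P.index ≠ 0; rw [hP]; norm_num)
  have hfQ : Finite (B ⧸ Q) := Nat.finite_of_card_ne_zero (by
    change Q.index ≠ 0; rw [hQi]; norm_num)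
  have hfR : Finite (B ⧸ R) := Nat.finite_of_card_ne_zero (by
    change R.index ≠ 0; rw [hRi]; norm_num)
  have hfPQ : Finite (B ⧸ (P ⊓ Q)) := Nat.finite_of_card_ne_zero (by
    change (P ⊓ Q).index ≠ 0; rw [hPQi]; norm_num)
  have e2 : pf (P.map B.subtype) - (2 : ℤ) • pf B = pf ((P ⊓ Q).map B.subtype) +
      ((-1 : ℤ) • pf (Q.map B.subtype) + (-1 : ℤ) • pf (R.map B.subtype)) := by
    have h2 := congrArg (J B) e1
    rw [J_add, J_smul, J_one, J_pf, J_add, J_add, J_smul, J_smul, J_pf, J_pf, J_pf] at h2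
    rw [← h2, sub_eq_add_neg, neg_smul]
  have hQmap : Q.map B.subtype = N1 ⊓ B := by
    rw [hQ, Subgroup.subgroupOf_map_subtype]
  have hmapmem : ∀ (A : Subgroup B) (b : B), (b : G) ∈ A.map B.subtype → b ∈ A := by
    rintro A b ⟨a, ha, hab⟩
    have : a = b := Subtype.ext hab
    rwa [← this]
  have hfree : ∀ A : Subgroup B, (∀ b : B, (∃ y : G, (b : G) = y⁻¹ * c * y) → b ∉ A) →
      ∀ x, x⁻¹ * c * x ∉ A.map B.subtype := by
    intro A hA x hx
    have hxB := Subgroup.map_subtype_le A hx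
    exact hA ⟨_, hxB⟩ ⟨x, rfl⟩ (hmapmem A ⟨_, hxB⟩ hx)
  have hOQ : O (Q.map B.subtype) := by
    rw [hQmap]
    exact hOi _ _ hON hOB
  have hOPQ : O ((P ⊓ Q).map B.subtype) := by
    rw [Subgroup.map_inf _ _ _ B.subtype_injective]
    exact hOi _ _ hOP hOQ
  have hOR : O (R.map B.subtype) := by
    refine hOm _ _ (Subgroup.map_mono fun b hb => ?_) hOPQ
    rw [hmR]
    exact ⟨fun _ => hb.2, fun _ => hb.1⟩
  rw [e2]
  refine (To O c).add_mem (AddSubgroup.subset_closure ⟨_, hOPQ, hfree _ ?_, rfl⟩)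
    ((To O c).add_mem ((To O c).zsmul_mem (AddSubgroup.subset_closure ⟨_, hOQ, hfree _ hcQ, rfl⟩) _)
      ((To O c).zsmul_mem (AddSubgroup.subset_closure ⟨_, hOR, hfree _ ?_, rfl⟩) _))
  · intro b hb h
    exact hcQ b hb h.2
  · intro b hb h
    exact hcQ b hb (((hmR b).1 h).1 (hcP b hb))

end Pool.Agent.TH452.TC
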