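import Pool.Agent.TH452.TC.Gal2

/-!
A set without real points attached to a cyclic extension of odd prime degree.
-/

set_option autoImplicit false

namespace Pool.Agent.TH452.TC

open NumberField Pool.Agent.TH965.St

/-- functions with values in the algebraic closure -/
def Fn (X : Type) : Type := X → Qb

noncomputable instance fnAct (B : Subgroup GQ) (X : Type) [MulAction B X] : MulAction B (Fn X) where
  smul β r := fun x => (β : GQ) (r (β⁻¹ • x))
  one_smul r := by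
    funext x
    show ((1 : B) : GQ) (r ((1 : B)⁻¹ • x)) = r x
    rw [inv_one, one_smul]
    rfl
  mul_smul β γ r := by
    funext x
    show ((β * γ : B) : GQ) (r ((β * γ)⁻¹ • x)) = (β : GQ) ((γ : GQ) (r (γ⁻¹ • (β⁻¹ • x))))
    rw [mul_inv_rev, mul_smul]
    rfl

theorem fn_smul (B : Subgroup GQ) (X : Type) [MulAction B X] (β : B) (r : Fn X) (x : X) :
    (β • r : Fn X) x = (β : GQ) (r (β⁻¹ • x)) := rfl

theorem exists_a (B : Subgroup GQ) (P : Subgroup B) [Fintype (B ⧸ P)] (l : ℕ)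
    (hcard : Fintype.card (B ⧸ P) = l) (hodd : Odd l) (b0 : Qb)
    (hb0 : ∀ p ∈ P, (p : GQ) b0 = b0) (β0 : B) (hβ0 : (β0 : GQ) b0 ≠ b0) :
    ∃ (a : B ⧸ P → Qb) (ρ : Qb), (∀ (β : B) x, a (β • x) = (β : GQ) (a x)) ∧
      ∑ x, a x = 0 ∧ ∏ x, a x = ρ ^ 2 ∧ (∀ β : B, (β : GQ) ρ = ρ) ∧ (∀ x, a x ≠ 0) ∧ ρ ≠ 0 := by
  classical
  obtain ⟨bt, hbt⟩ : ∃ bt : B ⧸ P → Qb, bt = fun x => ((x.out : B) : GQ) b0 := ⟨_, rfl⟩
  have hbte : ∀ (β : B) x, bt (β • x) = (β : GQ) (bt x) := by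
    intro β x
    rw [hbt]
    simp only
    obtain ⟨p, hp⟩ := QuotientGroup.mk_out_eq_mul P (β * x.out)
    have h1 : (β • x : B ⧸ P) = ((β * x.out : B) : B ⧸ P) := by
      conv_lhs => rw [← QuotientGroup.out_eq' x]
      rfl
    rw [h1, hp]
    push_cast
    rw [AlgEquiv.mul_apply, AlgEquiv.mul_apply, hb0 _ p.2]
  obtain ⟨σ, hσ⟩ : ∃ σ, σ = ∑ x, bt x := ⟨_, rfl⟩
  have hσf : ∀ β : B, (β : GQ) σ = σ := by
    intro β
    rw [hσ, map_sum]
    rw [← Equiv.sum_comp (MulAction.toPerm β) bt]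
    exact Finset.sum_congr rfl fun x _ => (hbte β x).symm
  obtain ⟨b, hb⟩ : ∃ b : B ⧸ P → Qb, b = fun x => (l : Qb) * bt x - σ := ⟨_, rfl⟩
  have hbe : ∀ (β : B) x, b (β • x) = (β : GQ) (b x) := by
    intro β x
    rw [hb]
    simp only
    rw [map_sub, map_mul, hσf, hbte, map_natCast]
  have hbs : ∑ x, b x = 0 := by
    rw [hb]
    simp only
    rw [Finset.sum_sub_distrib, ← Finset.mul_sum, ← hσ, Finset.sum_const, Finset.card_univ, hcard,
      nsmul_eq_mul, sub_self]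
  have hl0 : (l : Qb) ≠ 0 := by
    have : l ≠ 0 := by
      rintro rfl
      exact absurd hodd (by decide)
    exact_mod_cast this
  have hb1 : ∀ x, b x ≠ 0 := by
    intro x hx
    have h1 : ∀ x', b x' = 0 := by
      intro x'
      obtain ⟨y, rfl⟩ := QuotientGroup.mk_surjective x
      obtain ⟨y', rfl⟩ := QuotientGroup.mk_surjective x'
      have h2 : ((y' : B) : B ⧸ P) = (y' * y⁻¹) • ((y : B) : B ⧸ P) := by
        rw [MulAction.Quotient.smul_mk, smul_eq_mul, inv_mul_cancel_right]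
      rw [h2, hbe, hx, map_zero]
    have h2 : ∀ x', (l : Qb) * bt x' = σ := by
      intro x'
      have := h1 x'
      rw [hb] at this
      exact sub_eq_zero.1 this
    have h3 : bt ((β0 : B) • ((1 : B) : B ⧸ P)) = bt ((1 : B) : B ⧸ P) :=
      mul_left_cancel₀ hl0 (by rw [h2, h2])
    rw [hbte] at h3
    have h4 : bt ((1 : B) : B ⧸ P) = b0 := by
      rw [hbt]
      simp only
      obtain ⟨p, hp⟩ := QuotientGroup.mk_out_eq_mul P (1 : B)
      rw [hp, one_mul]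
      exact hb0 _ p.2
    rw [h4] at h3
    exact hβ0 h3
  obtain ⟨N, hN⟩ : ∃ N, N = ∏ x, b x := ⟨_, rfl⟩
  have hN0 : N ≠ 0 := by
    rw [hN]
    exact Finset.prod_ne_zero_iff.2 fun x _ => hb1 x
  have hNf : ∀ β : B, (β : GQ) N = N := by
    intro β
    rw [hN, map_prod]
    rw [← Equiv.prod_comp (MulAction.toPerm β) b]
    exact Finset.prod_congr rfl fun x _ => (hbe β x).symm
  obtain ⟨h, hh⟩ := hodd
  refine ⟨fun x => b x * N, N ^ (h + 1), ?_, ?_, ?_, ?_, ?_, ?_⟩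
  · intro β x
    simp only
    rw [map_mul, hNf, hbe]
  · rw [← Finset.sum_mul, hbs, zero_mul]
  · rw [Finset.prod_mul_distrib, Finset.prod_const, Finset.card_univ, hcard, ← hN, hh]
    ring
  · intro β
    rw [map_pow, hNf]
  · intro x
    exact mul_ne_zero (hb1 x) hN0
  · exact pow_ne_zero _ hN0

/-- sign choices -/
noncomputable def Zs (B : Subgroup GQ) (P : Subgroup B) [Fintype (B ⧸ P)] (a : B ⧸ P → Qb) (ρ : Qb)
    (ha : ∀ (β : B) x, a (β • x) = (β : GQ) (a x)) (hρ : ∀ β : B, (β : GQ) ρ = ρ) :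
    SubMulAction B (Fn (B ⧸ P)) where
  carrier := {r | (∀ x, (r x) ^ 2 = a x) ∧ ∏ x, r x = ρ}
  smul_mem' := by
    rintro β r ⟨h1, h2⟩
    refine ⟨fun x => ?_, ?_⟩
    · rw [fn_smul, ← map_pow, h1, ← ha, smul_inv_smul]
    · obtain ⟨f, hf⟩ : ∃ f : B ⧸ P → Qb, f = r := ⟨r, rfl⟩
      have e1 : ∀ x, (β • r : Fn (B ⧸ P)) x = (β : GQ) (f (β⁻¹ • x)) := fun x => by rw [hf]; rfl
      calc ∏ x, (β • r : Fn (B ⧸ P)) x = ∏ x, (β : GQ) (f (β⁻¹ • x)) :=
            Finset.prod_congr rfl fun x _ => e1 x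
        _ = (β : GQ) (∏ x, f (β⁻¹ • x)) := (map_prod _ _ _).symm
        _ = (β : GQ) (∏ x, f x) := congrArg _ (Equiv.prod_comp (MulAction.toPerm β⁻¹) f)
        _ = (β : GQ) ρ := by rw [hf]; exact congrArg _ h2
        _ = ρ := hρ β

theorem zs_finite (B : Subgroup GQ) (P : Subgroup B) [Fintype (B ⧸ P)] (a : B ⧸ P → Qb) (ρ : Qb)
    (ha : ∀ (β : B) x, a (β • x) = (β : GQ) (a x)) (hρ : ∀ β : B, (β : GQ) ρ = ρ) :
    Finite (Zs B P a ρ ha hρ) := by
  classical
  have h1 : ∀ x, ({z : Qb | z ^ 2 = a x}).Finite := by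
    intro x
    obtain ⟨z0, hz0⟩ := IsAlgClosed.exists_pow_nat_eq (k := Qb) (a x) (n := 2) (by norm_num)
    refine (Set.toFinite ({z0, -z0} : Set Qb)).subset fun z hz => ?_
    have : z ^ 2 = z0 ^ 2 := by rw [hz0]; exact hz
    rcases sq_eq_sq_iff_eq_or_eq_neg.1 this with h | h
    · exact Or.inl h
    · exact Or.inr h
  have h2 : ({r : B ⧸ P → Qb | ∀ x, r x ∈ {z : Qb | z ^ 2 = a x}}).Finite := by
    have := Set.Finite.pi' h1
    exact this
  exact (h2.subset fun r hr => hr.1 : ({r : B ⧸ P → Qb | (∀ x, (r x) ^ 2 = a x) ∧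
    ∏ x, r x = ρ}).Finite).to_subtype

theorem zs_count (B : Subgroup GQ) (P : Subgroup B) [P.Normal] [Fintype (B ⧸ P)] (l : ℕ)
    (hl : l.Prime) (hcard : Fintype.card (B ⧸ P) = l) (hodd : Odd l) (a : B ⧸ P → Qb) (ρ : Qb)
    (ha : ∀ (β : B) x, a (β • x) = (β : GQ) (a x)) (hρ : ∀ β : B, (β : GQ) ρ = ρ)
    (hprod : ∏ x, a x = ρ ^ 2) (hρ0 : ρ ≠ 0) (β : B) (hβ : β ∉ P) :
    Nat.card {t : Zs B P a ρ ha hρ // β • t = t} = 1 := by
  classical
  obtain ⟨q, hq⟩ : ∃ q : B ⧸ P, q = (β : B ⧸ P) := ⟨_, rfl⟩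
  have hq1 : q ≠ 1 := by
    rw [hq]
    intro h
    exact hβ ((QuotientGroup.eq_one_iff β).1 h)
  have hsm : ∀ x : B ⧸ P, β • x = q * x := by
    intro x
    obtain ⟨y, rfl⟩ := QuotientGroup.mk_surjective x
    rw [hq, ← QuotientGroup.mk_mul]
    rfl
  have hord : orderOf q = l := by
    have h1 : orderOf q ∣ l := by rw [← hcard]; exact orderOf_dvd_card
    rcases (Nat.dvd_prime hl).1 h1 with h2 | h2
    · exact absurd (orderOf_eq_one_iff.1 h2) hq1
    · exact h2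
  obtain ⟨e, he⟩ : ∃ e : Fin l → B ⧸ P, e = fun j : Fin l => q ^ (j : ℕ) := ⟨_, rfl⟩
  have hebij : Function.Bijective e := by
    rw [Fintype.bijective_iff_injective_and_card]
    refine ⟨fun i j hij => ?_, by rw [Fintype.card_fin, hcard]⟩
    rw [he] at hij
    have := pow_injOn_Iio_orderOf (x := q) (by rw [hord]; exact i.2) (by rw [hord]; exact j.2) hij
    exact Fin.ext this
  obtain ⟨g, hg⟩ : ∃ g : GQ, g = (β : GQ) := ⟨_, rfl⟩
  have hgs : ∀ (n : ℕ) (z : Qb), (g ^ (n + 1)) z = g ((g ^ n) z) := by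
    intro n z
    rw [pow_succ', AlgEquiv.mul_apply]
  have hfix : ∀ t : Zs B P a ρ ha hρ, β • t = t → ∀ x, t.1 (q * x) = g (t.1 x) := by
    intro t ht x
    have h1 : (β • t.1 : Fn (B ⧸ P)) = t.1 := congrArg Subtype.val ht
    have h2 := congrFun h1 (β • x)
    rw [fn_smul, inv_smul_smul] at h2
    rw [← hsm, ← h2, hg]
  have hfixn : ∀ t : Zs B P a ρ ha hρ, β • t = t → ∀ n : ℕ, t.1 (q ^ n) = (g ^ n) (t.1 1) := by
    intro t ht n
    induction n with
    | zero => rw [pow_zero, pow_zero]; rfl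
    | succ n ih => rw [pow_succ', hfix t ht, ih, hgs]
  have hall : ∀ x : B ⧸ P, ∃ n : ℕ, x = q ^ n := by
    intro x
    obtain ⟨j, hj⟩ := hebij.2 x
    exact ⟨j, by rw [← hj, he]⟩
  have hneg : (-1 : Qb) ^ l = -1 := hodd.neg_one_pow
  have h20 : (2 : Qb) ≠ 0 := two_ne_zero
  rw [Nat.card_eq_one_iff_unique]
  constructor
  · constructor
    rintro ⟨t, ht⟩ ⟨t', ht'⟩
    have h1 : (t.1 1) ^ 2 = (t'.1 1) ^ 2 := by rw [t.2.1, t'.2.1]
    rcases sq_eq_sq_iff_eq_or_eq_neg.1 h1 with h2 | h2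
    · apply Subtype.ext
      apply Subtype.ext
      funext x
      obtain ⟨n, rfl⟩ := hall x
      rw [hfixn t ht, hfixn t' ht', h2]
    · exfalso
      have h3 : ∀ x, t.1 x = (-1) * t'.1 x := by
        intro x
        obtain ⟨n, rfl⟩ := hall x
        rw [hfixn t ht, hfixn t' ht', h2, map_neg]
        ring
      have h4 : ρ = -ρ := by
        obtain ⟨f, hf⟩ : ∃ f : B ⧸ P → Qb, f = t.1 := ⟨t.1, rfl⟩
        obtain ⟨f', hf'⟩ : ∃ f' : B ⧸ P → Qb, f' = t'.1 := ⟨t'.1, rfl⟩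
        have hfρ : ∏ x, f x = ρ := by rw [hf]; exact t.2.2
        have hfρ' : ∏ x, f' x = ρ := by rw [hf']; exact t'.2.2
        have h3' : ∀ x, f x = (-1) * f' x := by rw [hf, hf']; exact h3
        calc ρ = ∏ x, f x := hfρ.symm
          _ = ∏ x, (-1) * f' x := Finset.prod_congr rfl fun x _ => h3' x
          _ = (-1) ^ l * ∏ x, f' x := by
              rw [Finset.prod_mul_distrib, Finset.prod_const, Finset.card_univ, hcard]
          _ = -ρ := by rw [hneg, hfρ']; ring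
      apply hρ0
      have h5 : 2 * ρ = 0 := by linear_combination h4
      exact (mul_eq_zero.1 h5).resolve_left h20
  · -- existence
    have han : ∀ n : ℕ, (g ^ n) (a 1) = a (q ^ n) := by
      intro n
      induction n with
      | zero => rw [pow_zero, pow_zero]; rfl
      | succ n ih => rw [hgs, ih, pow_succ', ← hsm, ha, hg]
    have hprodx : ∀ f : B ⧸ P → Qb, ∏ x, f x = ∏ j ∈ Finset.range l, f (q ^ j) := by
      intro f
      rw [← Fin.prod_univ_eq_prod_range (fun j => f (q ^ j)) l]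
      rw [← hebij.prod_comp f]
      rw [he]
    obtain ⟨s, hs, hsp⟩ : ∃ s : Qb, s ^ 2 = a 1 ∧ ∏ j ∈ Finset.range l, (g ^ j) s = ρ := by
      obtain ⟨s, hs⟩ := IsAlgClosed.exists_pow_nat_eq (k := Qb) (a 1) (n := 2) (by norm_num)
      have h1 : (∏ j ∈ Finset.range l, (g ^ j) s) ^ 2 = ρ ^ 2 := by
        rw [← hprod, hprodx, ← Finset.prod_pow]
        refine Finset.prod_congr rfl fun j _ => ?_
        rw [← map_pow, hs, han]
      rcases sq_eq_sq_iff_eq_or_eq_neg.1 h1 with h2 | h2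
      · exact ⟨s, hs, h2⟩
      · refine ⟨-s, by rw [neg_sq, hs], ?_⟩
        calc ∏ j ∈ Finset.range l, (g ^ j) (-s) = ∏ j ∈ Finset.range l, (-1) * (g ^ j) s := by
              refine Finset.prod_congr rfl fun j _ => ?_
              rw [map_neg]
              ring
          _ = (-1) ^ l * ∏ j ∈ Finset.range l, (g ^ j) s := by
              rw [Finset.prod_mul_distrib, Finset.prod_const, Finset.card_range]
          _ = ρ := by rw [hneg, h2]; ring
    have hper : (g ^ l) s = s := by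
      have h1 : ∏ j ∈ Finset.range l, (g ^ (j + 1)) s = ρ := by
        have h2 : g ρ = ρ := by rw [hg]; exact hρ β
        rw [← hsp, map_prod] at h2
        rw [← hsp, ← h2]
        exact Finset.prod_congr rfl fun j _ => hgs j s
      have h2 := Finset.prod_range_succ (fun j => (g ^ j) s) l
      have h3 := Finset.prod_range_succ' (fun j => (g ^ j) s) l
      rw [h3, h1, hsp] at h2
      have h4 : (g ^ 0) s = s := by rw [pow_zero]; rfl
      rw [h4] at h2
      exact (mul_left_cancel₀ hρ0 h2).symm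
    have hper2 : ∀ k n : ℕ, (g ^ (n + l * k)) s = (g ^ n) s := by
      intro k
      induction k with
      | zero => intro n; rw [mul_zero, add_zero]
      | succ k ih =>
        intro n
        have e1 : n + l * (k + 1) = (n + l * k) + l := by ring
        rw [e1, pow_add, AlgEquiv.mul_apply, hper, ih]
    obtain ⟨E, hE⟩ : ∃ E : Fin l ≃ B ⧸ P, ∀ j, E j = q ^ (j : ℕ) :=
      ⟨Equiv.ofBijective e hebij, fun j => by rw [Equiv.ofBijective_apply, he]⟩
    obtain ⟨r, hr⟩ : ∃ r : B ⧸ P → Qb, r = fun x => (g ^ ((E.symm x : Fin l) : ℕ)) s := ⟨_, rfl⟩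
    have hrn : ∀ n : ℕ, r (q ^ n) = (g ^ n) s := by
      intro n
      rw [hr]
      simp only
      have h1 : E.symm (q ^ n) = ⟨n % l, Nat.mod_lt _ hl.pos⟩ := by
        rw [Equiv.symm_apply_eq, hE]
        have : q ^ (n % l) = q ^ n := by
          rw [← hord, pow_mod_orderOf]
        exact this.symm
      rw [h1]
      simp only
      conv_rhs => rw [← Nat.mod_add_div n l]
      exact (hper2 _ _).symm
    have hrZ : r ∈ (Zs B P a ρ ha hρ) := by
      refine ⟨fun x => ?_, ?_⟩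
      · obtain ⟨n, rfl⟩ := hall x
        rw [hrn, ← map_pow, hs, han]
      · rw [hprodx]
        rw [← hsp]
        exact Finset.prod_congr rfl fun j _ => hrn j
    refine ⟨⟨⟨r, hrZ⟩, ?_⟩⟩
    apply Subtype.ext
    rw [SubMulAction.val_smul]
    obtain ⟨r', hr'⟩ : ∃ r' : Fn (B ⧸ P), r' = r := ⟨r, rfl⟩
    suffices hsuff : (β • r' : Fn (B ⧸ P)) = r' by
      rw [hr'] at hsuff
      exact hsuff
    funext x
    rw [fn_smul]
    have hr'' : ∀ x, r' x = r x := fun x => by rw [hr']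
    rw [hr'', hr'']
    obtain ⟨n, hn⟩ := hall (q⁻¹ * x)
    have hx : x = q ^ (n + 1) := by
      rw [pow_succ', ← hn, mul_inv_cancel_left]
    have h1 : β⁻¹ • x = q ^ n := by
      rw [inv_smul_eq_iff, hsm, hx, pow_succ']
    rw [h1, hrn, hx, hrn, hgs, hg]

theorem zs_free {τ : Qb →+* ℂ} {c : GQ} (h : Cj τ c) (B : Subgroup GQ) (P : Subgroup B)
    [hPn : P.Normal] [Fintype (B ⧸ P)] (a : B ⧸ P → Qb) (ρ : Qb)
    (ha : ∀ (β : B) x, a (β • x) = (β : GQ) (a x)) (hρ : ∀ β : B, (β : GQ) ρ = ρ)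
    (hsum : ∑ x, a x = 0) (ha0 : ∀ x, a x ≠ 0)
    (t : Zs B P a ρ ha hρ) (b : B) (hb : ∃ y : GQ, (b : GQ) = y⁻¹ * c * y) (hbP : b ∈ P) :
    b • t ≠ t := by
  intro ht
  obtain ⟨y, hy⟩ := hb
  have hx : ∀ x : B ⧸ P, b⁻¹ • x = x := by
    intro x
    obtain ⟨z, rfl⟩ := QuotientGroup.mk_surjective x
    rw [fixed_iff]
    have := hPn.conj_mem _ (P.inv_mem hbP) z⁻¹
    rwa [inv_inv] at this
  have h1 : ∀ x, (b : GQ) (t.1 x) = t.1 x := by
    intro x
    have h2 : (b • t.1 : Fn (B ⧸ P)) = t.1 := congrArg Subtype.val ht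
    have h3 := congrFun h2 x
    rw [fn_smul, hx] at h3
    exact h3
  have h2 : ∀ x, (τ (y (t.1 x))).im = 0 := by
    intro x
    have h3 := h1 x
    rw [hy, AlgEquiv.mul_apply, AlgEquiv.mul_apply] at h3
    have h4 : c (y (t.1 x)) = y (t.1 x) := by
      have h5 := congrArg y h3
      rwa [← AlgEquiv.mul_apply y y⁻¹, mul_inv_cancel, AlgEquiv.one_apply] at h5
    have h5 := h (y (t.1 x))
    rw [h4] at h5
    exact Complex.conj_eq_iff_im.1 h5.symm
  have h3 : ∀ x, 0 < (τ (y (a x))).re := by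
    intro x
    have h4 : a x = (t.1 x) ^ 2 := (t.2.1 x).symm
    have h5 : t.1 x ≠ 0 := by
      intro h0
      apply ha0 x
      rw [h4, h0]
      ring
    rw [h4, map_pow, map_pow, sq, Complex.mul_re, h2 x]
    have h6 : (τ (y (t.1 x))).re ≠ 0 := by
      intro h7
      apply h5
      have h8 : τ (y (t.1 x)) = 0 := Complex.ext h7 (h2 x)
      rw [map_eq_zero, EmbeddingLike.map_eq_zero_iff] at h8
      exact h8
    have := mul_self_pos.2 h6
    linarith
  have h4 : (∑ x, τ (y (a x))).re = 0 := by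
    rw [← map_sum, ← map_sum, hsum, map_zero, map_zero, Complex.zero_re]
  rw [Complex.re_sum] at h4
  have h5 : 0 < ∑ x, (τ (y (a x))).re :=
    Finset.sum_pos (fun x _ => h3 x) ⟨((1 : B) : B ⧸ P), Finset.mem_univ _⟩
  linarith

end Pool.Agent.TH452.TC
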