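import Pool.Agent.TH452.TC.Tr2
import Pool.Agent.TH452.TC.Tr3
import Pool.Agent.TH452.TC.Gal4

/-!
Galois steps of prime degree between totally real fields.
-/

set_option autoImplicit false

namespace Pool.Agent.TH452.TC

open NumberField Pool.Agent.TH965.St

/-- open subgroups -/
def Op (H : Subgroup GQ) : Prop := ∃ L : IntermediateField ℚ Qb, NumberField L ∧ L.fixingSubgroup ≤ H

theorem op_inf (H H' : Subgroup GQ) (h : Op H) (h' : Op H') : Op (H ⊓ H') := by
  obtain ⟨L, hL, hLH⟩ := h
  obtain ⟨L', hL', hLH'⟩ := h'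
  refine ⟨L ⊔ L', nf_sup hL hL', le_inf ?_ ?_⟩
  · exact (IntermediateField.fixingSubgroup_le le_sup_left).trans hLH
  · exact (IntermediateField.fixingSubgroup_le le_sup_right).trans hLH'

theorem op_mono (H H' : Subgroup GQ) (h : H ≤ H') (hH : Op H) : Op H' := by
  obtain ⟨L, hL, hLH⟩ := hH
  exact ⟨L, hL, hLH.trans h⟩

theorem to_combo {c : GQ} {φ : GQ → ℤ} (hφ : φ ∈ To Op c) :
    ∃ n : NF →₀ ℤ, (∀ K ∈ n.support, em K.1 c = 0) ∧
      ∀ g : GQ, n.sum (fun K a => a * em K.1 g) = φ g := by
  classical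
  unfold To at hφ
  induction hφ using AddSubgroup.closure_induction with
  | mem f hf =>
    obtain ⟨H, ⟨L, hL, hle⟩, hH, rfl⟩ := hf
    obtain ⟨F, hF, hFH, -⟩ := exists_field hL H hle
    have hem : ∀ g, em F g = pf H g := by
      intro g
      rw [em_eq, hFH]
    refine ⟨Finsupp.single ⟨F, hF⟩ 1, ?_, ?_⟩
    · intro K hK
      have h1 := Finsupp.support_single_subset hK
      rw [Finset.mem_singleton] at h1
      rw [h1]
      show em F c = 0
      rw [hem]
      exact pf_zero hH
    · intro g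
      rw [Finsupp.sum_single_index (by simp), one_mul]
      exact hem g
  | zero =>
    refine ⟨0, by simp, fun g => ?_⟩
    simp
  | add f f' _ _ h1 h2 =>
    obtain ⟨n, hn, hn'⟩ := h1
    obtain ⟨m, hm, hm'⟩ := h2
    refine ⟨n + m, ?_, ?_⟩
    · intro K hK
      rcases Finset.mem_union.1 (Finsupp.support_add hK) with h3 | h3
      · exact hn K h3
      · exact hm K h3
    · intro g
      rw [Finsupp.sum_add_index' (by simp) (by intros; ring), hn', hm']
      rfl
  | neg f _ h1 =>
    obtain ⟨n, hn, hn'⟩ := h1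
    refine ⟨-n, ?_, ?_⟩
    · intro K hK
      rw [Finsupp.support_neg] at hK
      exact hn K hK
    · intro g
      rw [Finsupp.sum_neg_index (by simp)]
      rw [Pi.neg_apply, ← hn', ← Finsupp.sum_neg]
      simp

theorem index_fix (K : IntermediateField ℚ Qb) [NumberField K] :
    K.fixingSubgroup.index = Module.finrank ℚ K := by
  have h1 := em_one K
  rw [em_eq] at h1
  unfold pf at h1
  have e : {x : GQ ⧸ K.fixingSubgroup // (1 : GQ) • x = x} ≃ (GQ ⧸ K.fixingSubgroup) :=
    Equiv.subtypeUnivEquiv fun x => one_smul _ x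
  rw [Nat.card_congr e] at h1
  exact_mod_cast h1

theorem step {τ : Qb →+* ℂ} {c : GQ} (h : Cj τ c) {K L : IntermediateField ℚ Qb}
    (hK : NumberField K) (hL : NumberField L) (hKL : K ≤ L)
    (hreal : ∀ y : GQ, ∀ x ∈ L, (y⁻¹ * c * y) x = x)
    (hnor : ∀ σ ∈ K.fixingSubgroup, ∀ x ∈ L, σ x ∈ L) (p : ℕ) (hp : p.Prime)
    (hdeg : Module.finrank ℚ L = p * Module.finrank ℚ K) :
    em L - (p : ℤ) • em K ∈ To Op c := by
  classical
  obtain ⟨B, hB⟩ : ∃ B, B = K.fixingSubgroup := ⟨_, rfl⟩
  have hLB : L.fixingSubgroup ≤ B := by rw [hB]; exact IntermediateField.fixingSubgroup_le hKL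
  obtain ⟨P, hP⟩ : ∃ P : Subgroup B, P = L.fixingSubgroup.subgroupOf B := ⟨_, rfl⟩
  have hmP : ∀ b : B, b ∈ P ↔ (b : GQ) ∈ L.fixingSubgroup := by
    intro b
    rw [hP]
    exact Subgroup.mem_subgroupOf
  have hPmap : P.map B.subtype = L.fixingSubgroup := by
    rw [hP, Subgroup.subgroupOf_map_subtype]
    exact inf_eq_left.2 hLB
  have hBK : ∀ g : GQ, g ∈ B → g ∈ K.fixingSubgroup := fun g hg => hB ▸ hg
  have hPn : P.Normal := by
    constructor
    intro a ha b
    rw [hmP] at ha ⊢
    rw [IntermediateField.mem_fixingSubgroup_iff] at ha ⊢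
    intro x hx
    have h1 : ((b : GQ)⁻¹) x ∈ L :=
      hnor _ (hBK _ (B.inv_mem b.2)) x hx
    have h2 : (((b * a * b⁻¹ : B)) : GQ) x = (b : GQ) ((a : GQ) (((b : GQ)⁻¹) x)) := by
      push_cast
      rfl
    rw [h2, ha _ h1, ← AlgEquiv.mul_apply, mul_inv_cancel]
    rfl
  have hBfin : Finite (GQ ⧸ B) := by
    rw [hB]
    exact finite_quot_of_open hK K.fixingSubgroup le_rfl
  have hBi : B.index = Module.finrank ℚ K := by rw [hB]; exact index_fix K
  have hK0 : 0 < Module.finrank ℚ K := Module.finrank_pos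
  have hPi : P.index = p := by
    have h1 := Subgroup.relIndex_mul_index hLB
    rw [hBi, index_fix L, hdeg] at h1
    have h2 : P.index = L.fixingSubgroup.relIndex B := by rw [hP]; rfl
    rw [h2]
    exact Nat.eq_of_mul_eq_mul_right hK0 h1
  have hPfin : Finite (B ⧸ P) := Nat.finite_of_card_ne_zero (by
    change P.index ≠ 0
    rw [hPi]
    exact hp.ne_zero)
  have hOP : Op (P.map B.subtype) := by
    rw [hPmap]
    exact ⟨L, hL, le_rfl⟩
  have hcP : ∀ b : B, (∃ y : GQ, (b : GQ) = y⁻¹ * c * y) → b ∈ P := by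
    rintro b ⟨y, hy⟩
    rw [hmP, hy, IntermediateField.mem_fixingSubgroup_iff]
    exact fun x hx => hreal y x hx
  have e1 : em L - (p : ℤ) • em K = pf (P.map B.subtype) - (P.index : ℤ) • pf B := by
    rw [hPmap, hPi, hB]
    funext g
    rw [Pi.sub_apply, Pi.sub_apply, Pi.smul_apply, Pi.smul_apply, em_eq, em_eq]
  rw [e1]
  rcases hp.eq_two_or_odd' with hp2 | hodd
  · obtain ⟨i, hi⟩ := IsAlgClosed.exists_pow_nat_eq (k := Qb) (-1) (n := 2) (by norm_num)
    have hgi : ∀ g : GQ, g i = i ∨ g i = -i := by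
      intro g
      have : (g i) ^ 2 = i ^ 2 := by rw [← map_pow, hi, map_neg, map_one]
      exact sq_eq_sq_iff_eq_or_eq_neg.1 this
    have hci : c i = -i := by
      rcases hgi c with h1 | h1
      · exfalso
        have h3 := h i
        rw [h1] at h3
        have h4 : (τ i).im = 0 := Complex.conj_eq_iff_im.1 h3.symm
        have h5 : (τ i) ^ 2 = -1 := by rw [← map_pow, hi, map_neg, map_one]
        have h6 : ((τ i) ^ 2).re = -1 := by rw [h5]; simp
        rw [sq, Complex.mul_re, h4] at h6
        nlinarith [sq_nonneg (τ i).re]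
      · exact h1
    have hi0 : i ≠ -i := by
      intro h1
      have h2 : (2 : Qb) * i = 0 := by linear_combination h1
      rcases mul_eq_zero.1 h2 with h3 | h3
      · exact two_ne_zero h3
      · rw [h3] at hi
        norm_num at hi
    obtain ⟨N1, hN1⟩ : ∃ N1, N1 = (IntermediateField.adjoin ℚ {i}).fixingSubgroup := ⟨_, rfl⟩
    have hmN : ∀ g, g ∈ N1 ↔ g i = i := fun g => by
      rw [hN1]
      exact mem_fix_adjoin i g
    have h2 := two_step Op op_inf op_mono c B P (by rw [hPi, hp2]) hOP ⟨K, hK, by rw [hB]⟩ N1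
      ⟨_, nf_adjoin i, by rw [hN1]⟩ (by
        intro a b ha hb
        rw [hmN] at ha hb ⊢
        rw [AlgEquiv.mul_apply, (hgi b).resolve_left hb, map_neg, (hgi a).resolve_left ha, neg_neg])
      (by
        intro y hy
        rw [hmN] at hy
        rw [AlgEquiv.mul_apply, AlgEquiv.mul_apply] at hy
        have h3 : c (y i) = y i := by
          have h5 := congrArg y hy
          rwa [← AlgEquiv.mul_apply y y⁻¹, mul_inv_cancel, AlgEquiv.one_apply] at h5
        rcases hgi y with h4 | h4
        · rw [h4, hci] at h3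
          exact hi0 h3.symm
        · rw [h4, map_neg, hci, neg_neg] at h3
          exact hi0 h3) hcP
    rw [hPi, hp2]
    exact h2
  · have hPft : Fintype (B ⧸ P) := Fintype.ofFinite _
    have hcard : Fintype.card (B ⧸ P) = p := by
      rw [← Nat.card_eq_fintype_card]
      exact hPi
    obtain ⟨b0, hb0L, hb0K⟩ : ∃ b0 ∈ L, b0 ∉ K := by
      by_contra hno
      push Not at hno
      have h1 : L = K := le_antisymm hno hKL
      rw [h1] at hdeg
      have h2 : p = 1 := by
        have h3 : 1 * Module.finrank ℚ K = p * Module.finrank ℚ K := by rw [one_mul]; exact hdeg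
        exact (Nat.eq_of_mul_eq_mul_right hK0 h3).symm
      exact hp.one_lt.ne' h2
    obtain ⟨β0, hβ0⟩ : ∃ β0 : B, (β0 : GQ) b0 ≠ b0 := by
      by_contra hno
      push Not at hno
      apply hb0K
      have h1 := InfiniteGalois.fixedField_fixingSubgroup K
      rw [← h1, IntermediateField.mem_fixedField_iff]
      intro g hg
      exact hno ⟨g, by rw [hB]; exact hg⟩
    have hb0 : ∀ q ∈ P, (q : GQ) b0 = b0 := by
      intro q hq
      exact (IntermediateField.mem_fixingSubgroup_iff _ _).1 ((hmP q).1 hq) b0 hb0L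
    obtain ⟨a, ρ, ha, hsum, hprod, hρ, ha0, hρ0⟩ := exists_a B P p hcard hodd b0 hb0 β0 hβ0
    have hZf := zs_finite B P a ρ ha hρ
    refine cyc_step Op op_inf c B P hOP (Zs B P a ρ ha hρ) ?_ ?_ ?_
    · intro t
      have hrange : (Set.range (fun x => t.1 x)).Finite := Set.finite_range _
      have hfd : FiniteDimensional ℚ (IntermediateField.adjoin ℚ (Set.range (fun x => t.1 x))) := by
        have := hrange.to_subtype
        apply IntermediateField.finiteDimensional_adjoin
        intro y _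
        exact (Algebra.IsAlgebraic.isAlgebraic (R := ℚ) y).isIntegral
      refine ⟨L ⊔ IntermediateField.adjoin ℚ (Set.range (fun x => t.1 x)),
        nf_sup hL ((nf_iff _).2 hfd), ?_⟩
      intro g hg
      have hgL : g ∈ L.fixingSubgroup := IntermediateField.fixingSubgroup_le le_sup_left hg
      have hgA : g ∈ (IntermediateField.adjoin ℚ (Set.range (fun x => t.1 x))).fixingSubgroup :=
        IntermediateField.fixingSubgroup_le le_sup_right hg
      refine ⟨⟨g, hLB hgL⟩, ?_, rfl⟩
      obtain ⟨b, hb⟩ : ∃ b : B, b = ⟨g, hLB hgL⟩ := ⟨_, rfl⟩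
      have hbg : (b : GQ) = g := by rw [hb]
      rw [← hb]
      have hbP : b ∈ P := by rw [hmP, hbg]; exact hgL
      show b ∈ MulAction.stabilizer B t
      rw [MulAction.mem_stabilizer_iff]
      apply Subtype.ext
      rw [SubMulAction.val_smul]
      funext x
      rw [fn_smul]
      have hx : b⁻¹ • x = x := by
        obtain ⟨z, rfl⟩ := QuotientGroup.mk_surjective x
        rw [fixed_iff]
        have := hPn.conj_mem _ (P.inv_mem hbP) z⁻¹
        rwa [inv_inv] at this
      rw [hx, hbg]
      exact (IntermediateField.mem_fixingSubgroup_iff _ _).1 hgA _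
        (IntermediateField.subset_adjoin ℚ _ ⟨x, rfl⟩)
    · intro t b hb
      exact zs_free h B P a ρ ha hρ hsum ha0 t b hb (hcP b hb)
    · intro b hb
      have h1 := zs_count B P p hp hcard hodd a ρ ha hρ hprod hρ0 b hb
      unfold fx
      rw [h1]
      rfl

end Pool.Agent.TH452.TC
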