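import Pool.Agent.TH452.TC.Tr4
import Pool.Agent.TH452.TC.Gal5

/-!
Exact relations.
-/

set_option autoImplicit false

namespace Pool.Agent.TH452.TC

open NumberField Pool.Agent.TH965.St

variable {Z : Type} [CommGroup Z]

theorem exact_mu {f : NF → Z} (hf : Mu f) {T : Subgroup Z} {c : GQ}
    (hTC : ∀ F : NF, em F.1 c = 0 → f F ∈ T) (rat : NF)
    (hrat : rat.1 = ⊥) (K : NF) (r : ℕ) (hK : em K.1 - (r : ℤ) • (1 : GQ → ℤ) ∈ To Op c) :
    f K / f rat ^ r ∈ T := by
  classical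
  obtain ⟨n, hn, hrel⟩ := to_combo hK
  have hs : ∀ g, (n - Finsupp.single K (1 : ℤ) + Finsupp.single rat (r : ℤ)).sum
      (fun F a => a * em F.1 g) = 0 := by
    intro g
    rw [Finsupp.sum_add_index' (by simp) (by intros; ring),
      Finsupp.sum_sub_index (by intros; ring), Finsupp.sum_single_index (by simp),
      Finsupp.sum_single_index (by simp), hrel, hrat, em_bot, Pi.sub_apply, Pi.smul_apply,
      Pi.one_apply, smul_eq_mul]
    ring
  have hp := hf _ hs
  rw [Finsupp.prod_add_index' (by simp) (by intros; exact zpow_add _ _ _), sub_eq_add_neg,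
    Finsupp.prod_add_index' (by simp) (by intros; exact zpow_add _ _ _), ← Finsupp.single_neg,
    Finsupp.prod_single_index (by simp), Finsupp.prod_single_index (by simp)] at hp
  have hmem : n.prod (fun F a => f F ^ a) ∈ T := by
    unfold Finsupp.prod
    exact Subgroup.prod_mem _ fun F hF => Subgroup.zpow_mem _ (hTC F (hn F hF)) _
  have : f K / f rat ^ r = n.prod (fun F a => f F ^ a) := by
    rw [div_eq_iff_eq_mul]
    rw [zpow_neg, zpow_one, zpow_natCast] at hp
    calc f K = ((n.prod fun F a => f F ^ a) * (f K)⁻¹ * f rat ^ r) * f K := by rw [hp, one_mul]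
      _ = (n.prod fun F a => f F ^ a) * f rat ^ r := by
          rw [mul_assoc, mul_assoc]
          congr 1
          rw [mul_comm (f rat ^ r), inv_mul_cancel_left]
  rw [this]
  exact hmem

theorem real_of_em {τ : Qb →+* ℂ} {c : GQ} (h : Cj τ c) (K : IntermediateField ℚ Qb)
    [NumberField K] (hK : InfinitePlace.nrComplexPlaces K = 0) :
    ∀ y : GQ, ∀ x ∈ K, (y⁻¹ * c * y) x = x := by
  have h1 : em K c = em K 1 := by
    rw [em_cc h, em_one, ← InfinitePlace.card_add_two_mul_card_eq_rank, hK]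
    simp
  have h2 : ∀ φ : K →ₐ[ℚ] Qb, ∀ x, c (φ x) = φ x := by
    have e : {φ : K →ₐ[ℚ] Qb // ∀ x, (1 : GQ) (φ x) = φ x} ≃ (K →ₐ[ℚ] Qb) :=
      Equiv.subtypeUnivEquiv fun φ x => rfl
    unfold em at h1
    rw [Nat.card_congr e] at h1
    have h3 : Nat.card {φ : K →ₐ[ℚ] Qb // ∀ x, c (φ x) = φ x} = Nat.card (K →ₐ[ℚ] Qb) := by
      exact_mod_cast h1
    by_contra hno
    push Not at hno
    obtain ⟨φ, hφ⟩ := hno
    have h4 : Nat.card {φ : K →ₐ[ℚ] Qb // ∀ x, c (φ x) = φ x} < Nat.card (K →ₐ[ℚ] Qb) := by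
      have h5 : ({φ : K →ₐ[ℚ] Qb | ∀ x, c (φ x) = φ x}).ncard <
          (Set.univ : Set (K →ₐ[ℚ] Qb)).ncard := by
        apply Set.ncard_lt_ncard _ (Set.toFinite _)
        refine ⟨Set.subset_univ _, fun hsub => ?_⟩
        obtain ⟨x, hx⟩ := hφ
        exact hx ((hsub (Set.mem_univ φ)) x)
      rw [Set.ncard_univ] at h5
      exact h5
    omega
  intro y x hx
  have h3 := h2 ((y : Qb →ₐ[ℚ] Qb).comp K.val) ⟨x, hx⟩
  have h4 : c (y x) = y x := h3
  rw [AlgEquiv.mul_apply, AlgEquiv.mul_apply, h4, ← AlgEquiv.mul_apply, inv_mul_cancel]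
  rfl

end Pool.Agent.TH452.TC
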